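import Mathlib

/-!
The certificate measure: a probability measure on a finite set `A` (whose polar lies in the unit
ball) with large `L¹` norms on a given subspace (MP_882a21_co).
-/

set_option autoImplicit false

namespace Pool.Agent.Helper6.Helly

open scoped BigOperators RealInnerProductSpace

/-- Sign of a Boolean. -/
def sb (b : Bool) : ℝ := if b then 1 else -1

lemma sb_mul_self (b : Bool) : sb b * sb b = 1 := by cases b <;> simp [sb]

lemma sb_not (b : Bool) : sb (!b) = -sb b := by cases b <;> simp [sb]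

lemma sum_bool_fin_succ {r : ℕ} (f : (Fin (r + 1) → Bool) → ℝ) :
    ∑ σ : Fin (r + 1) → Bool, f σ =
      ∑ σ : Fin r → Bool, (f (Fin.cons true σ) + f (Fin.cons false σ)) := by
  rw [← (Fin.consEquiv (fun _ : Fin (r + 1) => Bool)).sum_comp]
  rw [Fintype.sum_prod_type]
  rw [Fintype.sum_bool, ← Finset.sum_add_distrib]
  rfl

/-- Second and fourth moments of Rademacher sums. -/
lemma rad_moments {r : ℕ} (c : Fin r → ℝ) :
    ∑ σ : Fin r → Bool, (∑ l, sb (σ l) * c l) ^ 2 = 2 ^ r * ∑ l, c l ^ 2 ∧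
    ∑ σ : Fin r → Bool, (∑ l, sb (σ l) * c l) ^ 4 ≤ 2 ^ r * (3 * (∑ l, c l ^ 2) ^ 2) := by
  induction r with
  | zero => simp
  | succ r ih =>
    obtain ⟨h1, h2⟩ := ih (fun l => c l.succ)
    set S : (Fin r → Bool) → ℝ := fun σ => ∑ l, sb (σ l) * c l.succ with hS
    set q : ℝ := ∑ l : Fin r, c l.succ ^ 2 with hq
    have hq0 : 0 ≤ q := Finset.sum_nonneg fun l _ => sq_nonneg _
    constructor
    · rw [sum_bool_fin_succ]
      have h3 : ∀ σ : Fin r → Bool,
          (∑ l, sb ((Fin.cons true σ : Fin (r + 1) → Bool) l) * c l) ^ 2 +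
          (∑ l, sb ((Fin.cons false σ : Fin (r + 1) → Bool) l) * c l) ^ 2 =
          2 * (S σ) ^ 2 + 2 * c 0 ^ 2 := by
        intro σ
        rw [Fin.sum_univ_succ, Fin.sum_univ_succ]
        simp only [Fin.cons_zero, Fin.cons_succ, sb, if_true, Bool.false_eq_true, if_false, hS]
        ring
      simp only [h3]
      rw [Finset.sum_add_distrib, ← Finset.mul_sum, h1, Finset.sum_const, Finset.card_univ,
        Fintype.card_fun, Fintype.card_bool, Fintype.card_fin, nsmul_eq_mul, Fin.sum_univ_succ]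
      push_cast
      ring
    · rw [sum_bool_fin_succ]
      have h3 : ∀ σ : Fin r → Bool,
          (∑ l, sb ((Fin.cons true σ : Fin (r + 1) → Bool) l) * c l) ^ 4 +
          (∑ l, sb ((Fin.cons false σ : Fin (r + 1) → Bool) l) * c l) ^ 4 =
          2 * (S σ) ^ 4 + 12 * c 0 ^ 2 * (S σ) ^ 2 + 2 * c 0 ^ 4 := by
        intro σ
        rw [Fin.sum_univ_succ, Fin.sum_univ_succ]
        simp only [Fin.cons_zero, Fin.cons_succ, sb, if_true, Bool.false_eq_true, if_false, hS]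
        ring
      simp only [h3]
      rw [Finset.sum_add_distrib, Finset.sum_add_distrib, ← Finset.mul_sum, ← Finset.mul_sum, h1,
        Finset.sum_const, Finset.card_univ, Fintype.card_fun, Fintype.card_bool,
        Fintype.card_fin, nsmul_eq_mul, Fin.sum_univ_succ]
      push_cast
      have h4 : (0 : ℝ) < 2 ^ r := by positivity
      have h5 : 0 ≤ c 0 ^ 4 := by positivity
      calc 2 * ∑ σ : Fin r → Bool, S σ ^ 4 + 12 * c 0 ^ 2 * (2 ^ r * q) + 2 ^ r * (2 * c 0 ^ 4)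
          ≤ 2 * (2 ^ r * (3 * q ^ 2)) + 12 * c 0 ^ 2 * (2 ^ r * q) + 2 ^ r * (2 * c 0 ^ 4) := by
            linarith
        _ ≤ 2 ^ (r + 1) * (3 * (c 0 ^ 2 + q) ^ 2) := by
            have h6 : (2 : ℝ) ^ (r + 1) * (3 * (c 0 ^ 2 + q) ^ 2) =
                2 * (2 ^ r * (3 * q ^ 2)) + 12 * c 0 ^ 2 * (2 ^ r * q) + 2 ^ r * (2 * c 0 ^ 4) +
                4 * (2 ^ r * c 0 ^ 4) := by
              rw [pow_succ]; ring
            have h7 := mul_nonneg h4.le h5
            linarith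

lemma abs_ge_poly (z σ : ℝ) (hσ : 0 < σ) :
    3 / 4 * z ^ 2 / σ - z ^ 4 / (16 * σ ^ 3) ≤ |z| := by
  have h1 : 0 ≤ (|z| - 2 * σ) ^ 2 * (|z| + 4 * σ) * |z| / (16 * σ ^ 3) := by positivity
  have h2 : (|z| - 2 * σ) ^ 2 * (|z| + 4 * σ) * |z| / (16 * σ ^ 3) =
      |z| - 3 / 4 * |z| ^ 2 / σ + |z| ^ 4 / (16 * σ ^ 3) := by
    field_simp
    ring
  have h3 : |z| ^ 2 = z ^ 2 := sq_abs z
  have h4 : |z| ^ 4 = z ^ 4 := by
    have : |z| ^ 4 = (|z| ^ 2) ^ 2 := by ring
    rw [this, h3]; ring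
  rw [h2, h3, h4] at h1
  linarith

/-- A weak form of Khintchine's inequality. -/
lemma khintchine {r : ℕ} (c : Fin r → ℝ) :
    2 ^ r * (1 / 2 * √(∑ l, c l ^ 2)) ≤ ∑ σ : Fin r → Bool, |∑ l, sb (σ l) * c l| := by
  obtain ⟨h1, h2⟩ := rad_moments c
  set q := ∑ l, c l ^ 2 with hq
  have hq0 : 0 ≤ q := Finset.sum_nonneg fun l _ => sq_nonneg _
  rcases hq0.eq_or_lt with h | h
  · rw [← h]
    simp only [Real.sqrt_zero, mul_zero]
    exact Finset.sum_nonneg fun σ _ => abs_nonneg _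
  · set s := √q with hs
    have hs0 : 0 < s := Real.sqrt_pos.2 h
    have hs2 : s ^ 2 = q := Real.sq_sqrt hq0
    have h3 : ∑ σ : Fin r → Bool, (3 / 4 * (∑ l, sb (σ l) * c l) ^ 2 / s -
        (∑ l, sb (σ l) * c l) ^ 4 / (16 * s ^ 3)) ≤ ∑ σ : Fin r → Bool, |∑ l, sb (σ l) * c l| :=
      Finset.sum_le_sum fun σ _ => abs_ge_poly _ s hs0
    refine le_trans ?_ h3
    rw [Finset.sum_sub_distrib, ← Finset.sum_div, ← Finset.sum_div, ← Finset.mul_sum, h1]
    have h4 : (∑ σ : Fin r → Bool, (∑ l, sb (σ l) * c l) ^ 4) / (16 * s ^ 3) ≤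
        2 ^ r * (3 * q ^ 2) / (16 * s ^ 3) := by gcongr
    have h5 : 3 / 4 * (2 ^ r * q) / s - 2 ^ r * (3 * q ^ 2) / (16 * s ^ 3) =
        2 ^ r * (9 / 16 * s) := by
      rw [← hs2]
      field_simp
      ring
    have h6 : (0 : ℝ) < 2 ^ r := by positivity
    nlinarith

/-- The key step: no convex combination of the deficits is negative on all of `A`. -/
lemma cert_key {d : ℕ} (A : Finset (EuclideanSpace ℝ (Fin d)))
    (hA : ∀ y : EuclideanSpace ℝ (Fin d), ∃ a ∈ A, ‖y‖ ≤ ⟪a, y⟫) {r : ℕ}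
    (b : Fin r → EuclideanSpace ℝ (Fin d)) (hb : Orthonormal ℝ b)
    {ι : Type*} (t : Finset ι) (w : ι → ℝ) (hw : ∀ j ∈ t, 0 ≤ w j)
    (y : ι → EuclideanSpace ℝ (Fin d)) :
    ∃ a ∈ A, ∑ j ∈ t, w j * √(∑ l, ⟪b l, y j⟫ ^ 2) ≤
      2 * √r * ∑ j ∈ t, w j * |⟪a, y j⟫| := by
  set Nb : ℝ := ∑ j ∈ t, w j * √(∑ l, ⟪b l, y j⟫ ^ 2) with hNb
  set g : (Fin r → Bool) → EuclideanSpace ℝ (Fin d) := fun σ => ∑ l, sb (σ l) • b l with hg
  have hgy : ∀ σ (z : EuclideanSpace ℝ (Fin d)), ⟪g σ, z⟫ = ∑ l, sb (σ l) * ⟪b l, z⟫ := by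
    intro σ z
    rw [hg, sum_inner]
    refine Finset.sum_congr rfl fun l _ => ?_
    rw [real_inner_smul_left]
  have hgn : ∀ σ, ‖g σ‖ = √r := by
    intro σ
    rw [← Real.sqrt_sq (norm_nonneg (g σ)), ← real_inner_self_eq_norm_sq, hgy]
    congr 1
    have h1 : ∀ l, sb (σ l) * ⟪b l, g σ⟫ = 1 := by
      intro l
      rw [real_inner_comm, hgy, Finset.sum_eq_single l]
      · rw [real_inner_self_eq_norm_sq, hb.1 l, one_pow, mul_one, sb_mul_self]
      · intro l' _ hl'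
        rw [hb.2 hl', mul_zero]
      · intro h; exact absurd (Finset.mem_univ l) h
    simp only [h1, Finset.sum_const, Finset.card_univ, Fintype.card_fin, nsmul_eq_mul, mul_one]
  -- a good sign vector
  obtain ⟨σ, hσ⟩ : ∃ σ : Fin r → Bool, 1 / 2 * Nb ≤ ∑ j ∈ t, w j * |⟪g σ, y j⟫| := by
    by_contra hcon
    push Not at hcon
    have h1 : ∑ σ : Fin r → Bool, ∑ j ∈ t, w j * |⟪g σ, y j⟫| <
        ∑ σ : Fin r → Bool, 1 / 2 * Nb :=
      Finset.sum_lt_sum_of_nonempty Finset.univ_nonempty fun σ _ => hcon σ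
    rw [Finset.sum_const, Finset.card_univ, Fintype.card_fun, Fintype.card_bool,
      Fintype.card_fin, nsmul_eq_mul, Finset.sum_comm] at h1
    have h2 : ∑ j ∈ t, w j * (2 ^ r * (1 / 2 * √(∑ l, ⟪b l, y j⟫ ^ 2))) ≤
        ∑ j ∈ t, ∑ σ : Fin r → Bool, w j * |⟪g σ, y j⟫| := by
      apply Finset.sum_le_sum
      intro j hj
      rw [← Finset.mul_sum]
      apply mul_le_mul_of_nonneg_left _ (hw j hj)
      simp only [hgy]
      exact khintchine _
    have h3 : ∑ j ∈ t, w j * (2 ^ r * (1 / 2 * √(∑ l, ⟪b l, y j⟫ ^ 2))) =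
        ((2 ^ r : ℕ) : ℝ) * (1 / 2 * Nb) := by
      rw [hNb, Finset.mul_sum, Finset.mul_sum]
      refine Finset.sum_congr rfl fun j _ => ?_
      push_cast
      ring
    linarith
  set s : ι → ℝ := fun j => if 0 ≤ ⟪g σ, y j⟫ then 1 else -1 with hs
  have hs1 : ∀ j, s j * ⟪g σ, y j⟫ = |⟪g σ, y j⟫| := by
    intro j
    simp only [hs]
    split_ifs with h
    · rw [abs_of_nonneg h, one_mul]
    · rw [abs_of_neg (not_le.1 h)]; ring
  set v : EuclideanSpace ℝ (Fin d) := ∑ j ∈ t, (w j * s j) • y j with hv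
  have hzv : ∀ z : EuclideanSpace ℝ (Fin d), ⟪z, v⟫ = ∑ j ∈ t, w j * s j * ⟪z, y j⟫ := by
    intro z
    rw [hv, inner_sum]
    refine Finset.sum_congr rfl fun j _ => ?_
    rw [real_inner_smul_right]
  have h1 : ⟪g σ, v⟫ = ∑ j ∈ t, w j * |⟪g σ, y j⟫| := by
    rw [hzv]
    refine Finset.sum_congr rfl fun j _ => ?_
    rw [mul_assoc, hs1]
  have h2 : 1 / 2 * Nb ≤ √r * ‖v‖ := by
    calc 1 / 2 * Nb ≤ ⟪g σ, v⟫ := by rw [h1]; exact hσ
      _ ≤ ‖g σ‖ * ‖v‖ := real_inner_le_norm _ _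
      _ = _ := by rw [hgn]
  obtain ⟨a, ha, hav⟩ := hA v
  refine ⟨a, ha, ?_⟩
  have h3 : ⟪a, v⟫ ≤ ∑ j ∈ t, w j * |⟪a, y j⟫| := by
    rw [hzv]
    apply Finset.sum_le_sum
    intro j hj
    rw [mul_assoc]
    apply mul_le_mul_of_nonneg_left _ (hw j hj)
    calc s j * ⟪a, y j⟫ ≤ |s j * ⟪a, y j⟫| := le_abs_self _
      _ = |s j| * |⟪a, y j⟫| := abs_mul _ _
      _ = |⟪a, y j⟫| := by
        have : |s j| = 1 := by simp only [hs]; split_ifs <;> simp
        rw [this, one_mul]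
  have h4 : √r * ‖v‖ ≤ √r * ∑ j ∈ t, w j * |⟪a, y j⟫| :=
    mul_le_mul_of_nonneg_left (hav.trans h3) (Real.sqrt_nonneg _)
  linarith

/-- The certificate, with the orthogonal projection. -/
theorem cert_proj {d : ℕ} (A : Finset (EuclideanSpace ℝ (Fin d)))
    (hA : ∀ y : EuclideanSpace ℝ (Fin d), ∃ a ∈ A, ‖y‖ ≤ ⟪a, y⟫)
    (F : Submodule ℝ (EuclideanSpace ℝ (Fin d))) (r : ℕ) (hr : Module.finrank ℝ F ≤ r) :
    ∃ μ : EuclideanSpace ℝ (Fin d) → ℝ, (∀ a, 0 ≤ μ a) ∧ ∑ a ∈ A, μ a = 1 ∧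
      ∀ y : EuclideanSpace ℝ (Fin d),
        ‖F.starProjection y‖ ≤ 2 * √r * ∑ a ∈ A, μ a * |⟪a, y⟫| := by
  classical
  set f := Module.finrank ℝ F with hf
  set b := stdOrthonormalBasis ℝ F with hb
  have hbo : Orthonormal ℝ (fun l => (b l : EuclideanSpace ℝ (Fin d))) := by
    have := b.orthonormal
    exact this.comp_linearIsometry F.subtypeₗᵢ
  set N : EuclideanSpace ℝ (Fin d) → ℝ := fun y =>
    √(∑ l, ⟪(b l : EuclideanSpace ℝ (Fin d)), y⟫ ^ 2) with hN
  -- the norm of the projection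
  have hNF : ∀ y : EuclideanSpace ℝ (Fin d), N y = ‖F.starProjection y‖ := by
    intro y
    have h1 : ∑ l, ⟪(b l : EuclideanSpace ℝ (Fin d)), y⟫ ^ 2 = ‖F.orthogonalProjectionOnto y‖ ^ 2 := by
      rw [← b.sum_sq_norm_inner_right]
      refine Finset.sum_congr rfl fun l _ => ?_
      rw [Real.norm_eq_abs, sq_abs]
      congr 1
      have := Submodule.inner_orthogonalProjectionOnto_eq_of_mem_left (K := F) (b l) y
      exact this.symm
    rw [hN]
    simp only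
    rw [h1, Real.sqrt_sq (norm_nonneg _)]
    rfl
  suffices hmain : ∃ μ : EuclideanSpace ℝ (Fin d) → ℝ, (∀ a, 0 ≤ μ a) ∧ ∑ a ∈ A, μ a = 1 ∧
      ∀ y, N y ≤ 2 * √r * ∑ a ∈ A, μ a * |⟪a, y⟫| by
    obtain ⟨μ, h1, h2, h3⟩ := hmain
    exact ⟨μ, h1, h2, fun y => by rw [← hNF]; exact h3 y⟩
  obtain ⟨a₀, ha₀, _⟩ := hA 0
  rcases Nat.eq_zero_or_pos f with hf0 | hfpos
  · refine ⟨fun a => if a = a₀ then 1 else 0, fun a => by dsimp only; split_ifs <;> norm_num, ?_, ?_⟩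
    · rw [Finset.sum_ite_eq' A a₀]; simp [ha₀]
    · intro y
      have h1 : N y = 0 := by
        rw [hN]
        simp only
        have : IsEmpty (Fin f) := by rw [hf0]; infer_instance
        rw [Finset.univ_eq_empty, Finset.sum_empty, Real.sqrt_zero]
      rw [h1]
      have h2 : 0 ≤ ∑ a ∈ A, (if a = a₀ then (1 : ℝ) else 0) * |⟪a, y⟫| :=
        Finset.sum_nonneg fun a _ => by split_ifs <;> positivity
      positivity
  have hrpos : 0 < r := lt_of_lt_of_le hfpos hr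
  have hsf : 0 < √(f : ℝ) := Real.sqrt_pos.2 (by exact_mod_cast hfpos)
  have hsr : √(f : ℝ) ≤ √(r : ℝ) := Real.sqrt_le_sqrt (by exact_mod_cast hr)
  -- separation
  set φ : EuclideanSpace ℝ (Fin d) → (A → ℝ) := fun y a =>
    2 * √f * |⟪(a : EuclideanSpace ℝ (Fin d)), y⟫| - N y with hφ
  set C₂ : Set (A → ℝ) := {v | ∀ a, v a < 0} with hC₂
  have hC₂c : Convex ℝ C₂ := by
    intro x hx y hy p q hp hq hpq a
    simp only [Pi.add_apply, Pi.smul_apply, smul_eq_mul]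
    rcases hp.eq_or_lt with h | h
    · have : q = 1 := by linarith
      rw [← h, this]; simpa using hy a
    · have h1 : p * x a < 0 := mul_neg_of_pos_of_neg h (hx a)
      have h2 : q * y a ≤ 0 := mul_nonpos_of_nonneg_of_nonpos hq (hy a).le
      linarith
  have hC₂o : IsOpen C₂ := by
    have : C₂ = ⋂ a, {v : A → ℝ | v a < 0} := by
      ext v; simp [hC₂]
    rw [this]
    exact isOpen_iInter_of_finite fun a => isOpen_lt (continuous_apply a) continuous_const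
  have hdisj : Disjoint C₂ (convexHull ℝ (Set.range φ)) := by
    rw [Set.disjoint_left]
    intro v hv hv'
    rw [convexHull_eq] at hv'
    obtain ⟨ι, t, w, z, hw0, hw1, hz, hcm⟩ := hv'
    have hz' : ∀ i, ∃ y, i ∈ t → φ y = z i := by
      intro i
      by_cases hi : i ∈ t
      · obtain ⟨y, hy⟩ := hz i hi
        exact ⟨y, fun _ => hy⟩
      · exact ⟨0, fun h => absurd h hi⟩
    choose y hy using hz'
    obtain ⟨a, ha, hle⟩ := cert_key A hA (fun l => (b l : EuclideanSpace ℝ (Fin d))) hbo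
      t w hw0 y
    have h1 : v ⟨a, ha⟩ = ∑ j ∈ t, w j * (2 * √f * |⟪a, y j⟫| - N (y j)) := by
      rw [← hcm, Finset.centerMass_eq_of_sum_1 _ _ hw1, Finset.sum_apply]
      refine Finset.sum_congr rfl fun j hj => ?_
      rw [Pi.smul_apply, smul_eq_mul, ← hy j hj]
    have h2 := hv ⟨a, ha⟩
    rw [h1] at h2
    have h3 : ∑ j ∈ t, w j * (2 * √f * |⟪a, y j⟫| - N (y j)) =
        2 * √f * ∑ j ∈ t, w j * |⟪a, y j⟫| - ∑ j ∈ t, w j * N (y j) := by
      rw [Finset.mul_sum, ← Finset.sum_sub_distrib]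
      refine Finset.sum_congr rfl fun j _ => ?_
      ring
    rw [h3] at h2
    linarith
  obtain ⟨F', u, hF1, hF2⟩ := geometric_hahn_banach_open hC₂c hC₂o (convex_convexHull ℝ _) hdisj
  set μ' : A → ℝ := fun a => F' (Pi.single a 1) with hμ'
  have hF'v : ∀ v : A → ℝ, F' v = ∑ a, v a * μ' a := by
    intro v
    conv_lhs => rw [← Finset.univ_sum_single v]
    rw [map_sum]
    refine Finset.sum_congr rfl fun a _ => ?_
    have : (Pi.single a (v a) : A → ℝ) = v a • Pi.single a 1 := by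
      rw [← Pi.single_smul]; simp
    rw [this, map_smul, smul_eq_mul]
  have hu0 : u ≤ 0 := by
    have h1 := hF2 (φ 0) (subset_convexHull ℝ _ ⟨0, rfl⟩)
    have h2 : φ 0 = 0 := by
      funext a
      simp [hφ, hN]
    rwa [h2, map_zero] at h1
  have hneg : ∀ v ∈ C₂, F' v < 0 := fun v hv => (hF1 v hv).trans_le hu0
  have hμ0 : ∀ a, 0 ≤ μ' a := by
    intro a
    by_contra hcon
    push Not at hcon
    set S := ∑ c, μ' c with hS
    -- v = -1 - T e_a
    obtain ⟨T, hT0, hT⟩ : ∃ T : ℝ, 0 ≤ T ∧ 0 ≤ -S + T * (-μ' a) := by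
      refine ⟨|S| / (-μ' a), by apply div_nonneg (abs_nonneg _); linarith, ?_⟩
      rw [div_mul_cancel₀ _ (by linarith : -μ' a ≠ 0)]
      linarith [le_abs_self S]
    have h1 := hneg (fun c => -1 - T * (Pi.single a 1 : A → ℝ) c) (by
      intro c
      have : 0 ≤ (Pi.single a 1 : A → ℝ) c := by
        by_cases h : c = a
        · rw [h]; simp
        · simp [Pi.single_eq_of_ne h]
      nlinarith)
    rw [hF'v] at h1
    have h2 : ∑ c, (-1 - T * (Pi.single a 1 : A → ℝ) c) * μ' c = -S + T * (-μ' a) := by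
      have h3 : ∀ c, (-1 - T * (Pi.single a 1 : A → ℝ) c) * μ' c =
          -μ' c - T * ((Pi.single a 1 : A → ℝ) c * μ' c) := fun c => by ring
      have h4 : ∑ c, (Pi.single a 1 : A → ℝ) c * μ' c = μ' a := by
        rw [Finset.sum_eq_single a]
        · simp
        · intro c _ hc; simp [Pi.single_eq_of_ne hc]
        · intro h; exact absurd (Finset.mem_univ a) h
      simp only [h3, Finset.sum_sub_distrib, Finset.sum_neg_distrib, ← Finset.mul_sum, h4, ← hS]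
      ring
    rw [h2] at h1
    linarith
  have hSpos : 0 < ∑ c, μ' c := by
    have h1 := hneg (fun _ => -1) (fun _ => by norm_num)
    rw [hF'v] at h1
    simp only [neg_mul, one_mul, Finset.sum_neg_distrib] at h1
    linarith
  have hφ0 : ∀ y, 0 ≤ F' (φ y) := by
    intro y
    have h1 := hF2 (φ y) (subset_convexHull ℝ _ ⟨y, rfl⟩)
    -- u = 0: approximate by small negative vectors
    have h2 : 0 ≤ u := by
      by_contra hcon
      push Not at hcon
      have h3 := hF1 (fun _ => u / (2 * ∑ c, μ' c)) (fun _ => by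
        apply div_neg_of_neg_of_pos hcon; positivity)
      rw [hF'v, ← Finset.mul_sum] at h3
      have h4 : u / (2 * ∑ c, μ' c) * ∑ c, μ' c = u / 2 := by field_simp
      rw [h4] at h3
      linarith
    linarith
  set S := ∑ c, μ' c with hS
  refine ⟨fun a => if h : a ∈ A then μ' ⟨a, h⟩ / S else 0, ?_, ?_, ?_⟩
  · intro a
    dsimp only
    split_ifs with h
    · exact div_nonneg (hμ0 _) hSpos.le
    · exact le_rfl
  · rw [← Finset.sum_coe_sort A]
    have : ∀ a : A, (if h : (a : EuclideanSpace ℝ (Fin d)) ∈ A then μ' ⟨a, h⟩ / S else 0) =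
        μ' a / S := by
      intro a; rw [dif_pos a.2]
    simp only [this, ← Finset.sum_div]
    exact div_self hSpos.ne'
  · intro y
    have h1 := hφ0 y
    rw [hF'v] at h1
    have h2 : ∑ a : A, φ y a * μ' a =
        2 * √f * ∑ a : A, μ' a * |⟪(a : EuclideanSpace ℝ (Fin d)), y⟫| - N y * S := by
      rw [Finset.mul_sum, hS, Finset.mul_sum, ← Finset.sum_sub_distrib]
      refine Finset.sum_congr rfl fun a _ => ?_
      simp only [hφ]
      ring
    rw [h2] at h1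
    have h3 : ∑ a ∈ A, (if h : a ∈ A then μ' ⟨a, h⟩ / S else 0) * |⟪a, y⟫| =
        (∑ a : A, μ' a * |⟪(a : EuclideanSpace ℝ (Fin d)), y⟫|) / S := by
      rw [← Finset.sum_coe_sort A, Finset.sum_div]
      refine Finset.sum_congr rfl fun a _ => ?_
      rw [dif_pos a.2]
      ring
    rw [h3]
    have h4 : N y ≤ 2 * √f * ((∑ a : A, μ' a * |⟪(a : EuclideanSpace ℝ (Fin d)), y⟫|) / S) := by
      rw [mul_div_assoc', le_div_iff₀ hSpos]
      linarith
    refine h4.trans ?_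
    apply mul_le_mul_of_nonneg_right
    · linarith
    · apply div_nonneg _ hSpos.le
      exact Finset.sum_nonneg fun a _ => mul_nonneg (hμ0 a) (abs_nonneg _)

/-- The certificate. -/
theorem cert {d : ℕ} (A : Finset (EuclideanSpace ℝ (Fin d)))
    (hA : ∀ y : EuclideanSpace ℝ (Fin d), ∃ a ∈ A, ‖y‖ ≤ ⟪a, y⟫)
    (F : Submodule ℝ (EuclideanSpace ℝ (Fin d))) (r : ℕ) (hr : Module.finrank ℝ F ≤ r) :
    ∃ μ : EuclideanSpace ℝ (Fin d) → ℝ, (∀ a, 0 ≤ μ a) ∧ ∑ a ∈ A, μ a = 1 ∧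
      ∀ y : EuclideanSpace ℝ (Fin d), ∀ w ∈ F,
        ‖w‖ - ‖y‖ ≤ 2 * √r * ∑ a ∈ A, μ a * |⟪a, y + w⟫| := by
  obtain ⟨μ, h1, h2, h3⟩ := cert_proj A hA F r hr
  refine ⟨μ, h1, h2, fun y w hw => le_trans ?_ (h3 _)⟩
  rw [map_add, Submodule.starProjection_eq_self_iff.2 hw]
  have h1 : ‖F.starProjection y‖ ≤ ‖y‖ := by
    have := F.starProjection.le_opNorm y
    have h2 := Submodule.starProjection_norm_le F
    nlinarith [norm_nonneg y]
  have h2 : ‖w‖ ≤ ‖F.starProjection y + w‖ + ‖F.starProjection y‖ := by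
    have := norm_sub_le (F.starProjection y + w) (F.starProjection y)
    rwa [add_sub_cancel_left] at this
  linarith

end Pool.Agent.Helper6.Helly
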