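import Mathlib

/-!
Iterated halving (MP_882a21_co): from the halving lemma to a short list which preserves the
averages of `|⟨a, Y⟩|` from below, after making a few coordinates harmless.
-/

set_option autoImplicit false

namespace Pool.Agent.Helper6.Helly

open scoped BigOperators

/-- The halving statement. -/
def HalvingStmt : Prop :=
  ∀ (n N : ℕ) (x x' : Fin N → Fin n → ℝ) (J : Finset (Fin n)) (V C : ℝ),
    (∀ i ∈ J, ∑ l, (x l i ^ 2 + x' l i ^ 2) ≤ V) →
    (∑ l, ∑ i, (x l i ^ 2 + x' l i ^ 2) ≤ C) →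
    ∀ ρ Λ : ℝ, 0 ≤ ρ → 0 ≤ Λ →
    ∃ c : Fin N → Bool, ∀ Y : Fin n → ℝ, (∀ i, i ∉ J → |Y i| ≤ ρ) → ∑ i ∈ J, |Y i| ≤ Λ →
      (1 / 2) * ∑ l, (|∑ i, x l i * Y i| + |∑ i, x' l i * Y i|) -
        (Λ * √(2 * V * Real.log (2 * n)) + ρ * √(2 * n * C)) ≤
      ∑ l, |∑ i, (if c l then x l else x' l) i * Y i|

theorem iterate (H : HalvingStmt) {ι : Type*} {n : ℕ} (α : ι → Fin n → ℝ) (C2 : ℝ)
    (hC2 : 0 < C2) (hα : ∀ a, ∑ i, α a i ^ 2 ≤ C2) (B : Finset (Fin n)) (m : ℕ) (hm : 0 < m)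
    (ρ Λ : ℝ) (hρ : 0 ≤ ρ) (hΛ : 0 ≤ Λ) (E1 E2 : ℝ)
    (hE1 : 4 * Λ * √(C2 * Real.log (2 * n)) / m ≤ E1)
    (hE2 : 2 * ρ * √(2 * n * C2 / m) ≤ E2) (S : ℕ) :
    ∀ N : ℕ, N = 2 ^ S * m → ∀ L : Fin N → ι,
    ∃ R ⊆ B, (R.card : ℝ) ≤ m * (1 - (2 / 3) ^ S) ∧ ∃ L₀ : Fin m → ι, ∀ Y : Fin n → ℝ,
      (∀ i, i ∉ B \ R → |Y i| ≤ ρ) → ∑ i ∈ B, |Y i| ≤ Λ →
      (∑ l, |∑ i, α (L l) i * Y i|) / N -
        (7 * (1 - (7 / 8) ^ S) * E1 + 3 * (1 - (3 / 4) ^ S) * E2) ≤
      (∑ l, |∑ i, α (L₀ l) i * Y i|) / m := by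
  classical
  have hm0 : (0 : ℝ) < m := by exact_mod_cast hm
  induction S with
  | zero =>
    intro N hN L
    have hN' : N = m := by simpa using hN
    subst hN'
    refine ⟨∅, Finset.empty_subset _, by simp, L, fun Y _ _ => by simp⟩
  | succ S ih =>
    intro N hN L
    obtain ⟨N', hN'⟩ : ∃ N', N' = 2 ^ S * m := ⟨_, rfl⟩
    have hNN : N = N' + N' := by rw [hN, hN', pow_succ]; ring
    subst hNN
    have hN'0 : (0 : ℝ) < N' := by
      rw [hN']; positivity
    have hN'r : (N' : ℝ) = 2 ^ S * m := by rw [hN']; push_cast; ring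
    set x : Fin N' → Fin n → ℝ := fun l => α (L (Fin.castAdd N' l)) with hx
    set x' : Fin N' → Fin n → ℝ := fun l => α (L (Fin.natAdd N' l)) with hx'
    set V : ℝ := 2 * C2 * 3 ^ (S + 1) with hV
    have hV0 : 0 < V := by positivity
    set R' : Finset (Fin n) := B.filter (fun i => V < ∑ l, (x l i ^ 2 + x' l i ^ 2)) with hR'
    have hCsum : ∑ l, ∑ i, (x l i ^ 2 + x' l i ^ 2) ≤ 2 * N' * C2 := by
      calc ∑ l, ∑ i, (x l i ^ 2 + x' l i ^ 2) ≤ ∑ l : Fin N', 2 * C2 := by
            apply Finset.sum_le_sum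
            intro l _
            rw [Finset.sum_add_distrib]
            have h1 := hα (L (Fin.castAdd N' l))
            have h2 := hα (L (Fin.natAdd N' l))
            simp only [hx, hx']
            linarith
        _ = 2 * N' * C2 := by
            rw [Finset.sum_const, Finset.card_univ, Fintype.card_fin, nsmul_eq_mul]; ring
    have hR'card : (R'.card : ℝ) ≤ m / 2 * (2 / 3) ^ (S + 1) := by
      have h1 : (R'.card : ℝ) * V ≤ 2 * N' * C2 := by
        calc (R'.card : ℝ) * V = ∑ i ∈ R', V := by rw [Finset.sum_const, nsmul_eq_mul]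
          _ ≤ ∑ i ∈ R', ∑ l, (x l i ^ 2 + x' l i ^ 2) :=
              Finset.sum_le_sum fun i hi => (Finset.mem_filter.1 hi).2.le
          _ ≤ ∑ i, ∑ l, (x l i ^ 2 + x' l i ^ 2) :=
              Finset.sum_le_sum_of_subset_of_nonneg (Finset.subset_univ _)
                fun i _ _ => Finset.sum_nonneg fun l _ => by positivity
          _ = ∑ l, ∑ i, (x l i ^ 2 + x' l i ^ 2) := Finset.sum_comm
          _ ≤ _ := hCsum
      have h2 : (R'.card : ℝ) ≤ 2 * N' * C2 / V := by
        rw [le_div_iff₀ hV0]; exact h1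
      refine h2.trans (le_of_eq ?_)
      rw [hN'r, hV, div_pow]
      field_simp
      ring
    obtain ⟨c, hc⟩ := H n N' x x' (B \ R') V (2 * N' * C2) (by
      intro i hi
      obtain ⟨hiB, hiR⟩ := Finset.mem_sdiff.1 hi
      by_contra hcon
      push Not at hcon
      exact hiR (Finset.mem_filter.2 ⟨hiB, hcon⟩)) hCsum ρ Λ hρ hΛ
    obtain ⟨R'', hR''B, hR''card, L₀, hL₀⟩ := ih N' hN'
      (fun l => if c l then L (Fin.castAdd N' l) else L (Fin.natAdd N' l))
    refine ⟨R' ∪ R'', Finset.union_subset (Finset.filter_subset _ _) hR''B, ?_, L₀, ?_⟩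
    · have h1 : ((R' ∪ R'').card : ℝ) ≤ R'.card + R''.card := by
        exact_mod_cast Finset.card_union_le R' R''
      have h2 : (m : ℝ) * (1 - (2 / 3) ^ (S + 1)) =
          m / 2 * (2 / 3) ^ (S + 1) + m * (1 - (2 / 3) ^ S) := by
        rw [pow_succ]; ring
      linarith
    · intro Y hY1 hY2
      have h1 := hc Y (by
        intro i hi
        apply hY1
        intro hi'
        apply hi
        rw [Finset.mem_sdiff] at hi' ⊢
        exact ⟨hi'.1, fun h => hi'.2 (Finset.mem_union_left _ h)⟩) (by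
        refine le_trans ?_ hY2
        exact Finset.sum_le_sum_of_subset_of_nonneg Finset.sdiff_subset
          fun i _ _ => abs_nonneg _)
      have h2 := hL₀ Y (by
        intro i hi
        apply hY1
        intro hi'
        apply hi
        rw [Finset.mem_sdiff] at hi' ⊢
        exact ⟨hi'.1, fun h => hi'.2 (Finset.mem_union_right _ h)⟩) hY2
      have h3 : ∑ l, |∑ i, α (L l) i * Y i| =
          ∑ l, (|∑ i, x l i * Y i| + |∑ i, x' l i * Y i|) := by
        rw [Fin.sum_univ_add, ← Finset.sum_add_distrib]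
      have h4 : ∑ l, |∑ i, α (if c l then L (Fin.castAdd N' l) else L (Fin.natAdd N' l)) i * Y i|
          = ∑ l, |∑ i, (if c l then x l else x' l) i * Y i| := by
        refine Finset.sum_congr rfl fun l _ => ?_
        cases c l <;> simp [hx, hx']
      rw [h4] at h2
      set T := ∑ l, (|∑ i, x l i * Y i| + |∑ i, x' l i * Y i|) with hT
      set U := ∑ l, |∑ i, (if c l then x l else x' l) i * Y i| with hU
      -- the losses
      have hl1 : √(2 * V * Real.log (2 * n)) ≤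
          √(C2 * Real.log (2 * n)) * (2 * (7 / 4) ^ (S + 1)) := by
        have hlog : 0 ≤ Real.log (2 * n) := by
          rcases Nat.eq_zero_or_pos n with h | h
          · rw [h]; simp
          · apply Real.log_nonneg
            have : (1 : ℝ) ≤ n := by exact_mod_cast h
            linarith
        have h5 : 2 * V * Real.log (2 * n) ≤
            (C2 * Real.log (2 * n)) * (2 * (7 / 4) ^ (S + 1)) ^ 2 := by
          have h6 : (3 : ℝ) ^ (S + 1) ≤ ((7 / 4) ^ (S + 1)) ^ 2 := by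
            rw [← pow_mul, mul_comm, pow_mul]
            exact pow_le_pow_left₀ (by norm_num) (by norm_num) _
          have h7 : 0 ≤ C2 * Real.log (2 * n) := mul_nonneg hC2.le hlog
          calc 2 * V * Real.log (2 * n) = (C2 * Real.log (2 * n)) * (4 * 3 ^ (S + 1)) := by
                rw [hV]; ring
            _ ≤ (C2 * Real.log (2 * n)) * (4 * ((7 / 4) ^ (S + 1)) ^ 2) := by
                apply mul_le_mul_of_nonneg_left _ h7
                linarith
            _ = _ := by ring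
        calc √(2 * V * Real.log (2 * n)) ≤
            √((C2 * Real.log (2 * n)) * (2 * (7 / 4) ^ (S + 1)) ^ 2) := Real.sqrt_le_sqrt h5
          _ = _ := by
            rw [Real.sqrt_mul (mul_nonneg hC2.le hlog), Real.sqrt_sq (by positivity)]
      have hl2 : √(2 * n * (2 * N' * C2)) ≤ √(2 * n * C2 / m) * (m * (3 / 2) ^ (S + 1)) := by
        have h5 : 2 * n * (2 * N' * C2) ≤ (2 * n * C2 / m) * (m * (3 / 2) ^ (S + 1)) ^ 2 := by
          have h6 : (2 : ℝ) ^ (S + 1) ≤ ((3 / 2) ^ (S + 1)) ^ 2 := by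
            rw [← pow_mul, mul_comm, pow_mul]
            exact pow_le_pow_left₀ (by norm_num) (by norm_num) _
          have h7 : (2 : ℝ) * n * (2 * N' * C2) = (2 * n * C2 / m) * (m ^ 2 * 2 ^ (S + 1)) := by
            rw [hN'r]
            field_simp
            ring
          rw [h7]
          apply mul_le_mul_of_nonneg_left _ (by positivity)
          rw [mul_pow]
          apply mul_le_mul_of_nonneg_left h6 (by positivity)
        calc √(2 * n * (2 * N' * C2)) ≤ √((2 * n * C2 / m) * (m * (3 / 2) ^ (S + 1)) ^ 2) :=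
              Real.sqrt_le_sqrt h5
          _ = _ := by
            rw [Real.sqrt_mul (by positivity), Real.sqrt_sq (by positivity)]
      have hl3 : (Λ * √(2 * V * Real.log (2 * n)) + ρ * √(2 * n * (2 * N' * C2))) / N' ≤
          (7 / 8) ^ (S + 1) * E1 + (3 / 4) ^ (S + 1) * E2 := by
        have h5 : Λ * √(2 * V * Real.log (2 * n)) ≤
            Λ * (√(C2 * Real.log (2 * n)) * (2 * (7 / 4) ^ (S + 1))) :=
          mul_le_mul_of_nonneg_left hl1 hΛ
        have h6 : ρ * √(2 * n * (2 * N' * C2)) ≤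
            ρ * (√(2 * n * C2 / m) * (m * (3 / 2) ^ (S + 1))) :=
          mul_le_mul_of_nonneg_left hl2 hρ
        have h7 : (Λ * √(2 * V * Real.log (2 * n)) + ρ * √(2 * n * (2 * N' * C2))) / N' ≤
            (Λ * (√(C2 * Real.log (2 * n)) * (2 * (7 / 4) ^ (S + 1))) +
              ρ * (√(2 * n * C2 / m) * (m * (3 / 2) ^ (S + 1)))) / N' := by
          gcongr
        have h8 : (Λ * (√(C2 * Real.log (2 * n)) * (2 * (7 / 4) ^ (S + 1))) +
              ρ * (√(2 * n * C2 / m) * (m * (3 / 2) ^ (S + 1)))) / N' =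
            (7 / 8) ^ (S + 1) * (4 * Λ * √(C2 * Real.log (2 * n)) / m) +
              (3 / 4) ^ (S + 1) * (2 * ρ * √(2 * n * C2 / m)) := by
          have e1 : (7 / 4 : ℝ) ^ (S + 1) = (7 / 8) ^ (S + 1) * 2 ^ (S + 1) := by
            rw [← mul_pow]; norm_num
          have e2 : (3 / 2 : ℝ) ^ (S + 1) = (3 / 4) ^ (S + 1) * 2 ^ (S + 1) := by
            rw [← mul_pow]; norm_num
          rw [hN'r, e1, e2, pow_succ (2 : ℝ) S]
          field_simp
          ring
        rw [h8] at h7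
        refine h7.trans ?_
        have h9 : (7 / 8 : ℝ) ^ (S + 1) * (4 * Λ * √(C2 * Real.log (2 * n)) / m) ≤
            (7 / 8) ^ (S + 1) * E1 := mul_le_mul_of_nonneg_left hE1 (by positivity)
        have h10 : (3 / 4 : ℝ) ^ (S + 1) * (2 * ρ * √(2 * n * C2 / m)) ≤
            (3 / 4) ^ (S + 1) * E2 := mul_le_mul_of_nonneg_left hE2 (by positivity)
        linarith
      have h5 : T / (2 * N') -
          (Λ * √(2 * V * Real.log (2 * n)) + ρ * √(2 * n * (2 * N' * C2))) / N' ≤ U / N' := by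
        have h6 : (1 / 2 * T - (Λ * √(2 * V * Real.log (2 * n)) +
            ρ * √(2 * n * (2 * N' * C2)))) / N' ≤ U / N' := by gcongr
        have h7 : (1 / 2 * T - (Λ * √(2 * V * Real.log (2 * n)) +
            ρ * √(2 * n * (2 * N' * C2)))) / N' = T / (2 * N') -
          (Λ * √(2 * V * Real.log (2 * n)) + ρ * √(2 * n * (2 * N' * C2))) / N' := by
          field_simp
        rw [← h7]; exact h6
      have h6 : ((N' + N' : ℕ) : ℝ) = 2 * N' := by push_cast; ring
      rw [h3, h6]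
      have e3 : 7 * (1 - (7 / 8 : ℝ) ^ (S + 1)) * E1 + 3 * (1 - (3 / 4) ^ (S + 1)) * E2 =
          7 * (1 - (7 / 8) ^ S) * E1 + 3 * (1 - (3 / 4) ^ S) * E2 +
          ((7 / 8) ^ (S + 1) * E1 + (3 / 4) ^ (S + 1) * E2) := by
        rw [pow_succ, pow_succ]; ring
      rw [e3]
      linarith

/-- A list whose empirical measure dominates a given probability measure, up to a factor. -/
lemma exists_list_gen {E : Type*} (A : Finset E) (hA : A.Nonempty) (μ : E → ℝ)
    (hμ0 : ∀ a, 0 ≤ μ a) (hμ1 : ∑ a ∈ A, μ a = 1) (N : ℕ) (hN : A.card ≤ N) :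
    ∃ L : Fin N → A, ∀ g : E → ℝ, (∀ a, 0 ≤ g a) →
      (1 - (A.card : ℝ) / N) * ∑ a ∈ A, μ a * g a ≤ (∑ l, g (L l)) / N := by
  classical
  obtain ⟨a₀, ha₀⟩ := hA
  have hcard : 0 < A.card := Finset.card_pos.2 ⟨a₀, ha₀⟩
  have hN0 : (0 : ℝ) < N := by
    have : 0 < N := by omega
    exact_mod_cast this
  set M : ℝ := (N : ℝ) - A.card with hM
  have hM0 : 0 ≤ M := by
    have : (A.card : ℝ) ≤ N := by exact_mod_cast hN
    rw [hM]; linarith
  set c : A → ℕ := fun a => ⌈M * μ a⌉₊ with hc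
  have hc1 : ∀ a : A, M * μ a ≤ c a := fun a => Nat.le_ceil _
  have hc2 : ∀ a : A, (c a : ℝ) ≤ M * μ a + 1 := fun a =>
    (Nat.ceil_lt_add_one (mul_nonneg hM0 (hμ0 a))).le
  have hsum : ∑ a : A, c a ≤ N := by
    have h1 : ((∑ a : A, c a : ℕ) : ℝ) ≤ N := by
      push_cast
      calc ∑ a : A, (c a : ℝ) ≤ ∑ a : A, (M * μ a + 1) := Finset.sum_le_sum fun a _ => hc2 a
        _ = M * ∑ a : A, μ a + A.card := by
            rw [Finset.sum_add_distrib, ← Finset.mul_sum, Finset.sum_const, Finset.card_univ,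
              Fintype.card_coe, nsmul_eq_mul, mul_one]
        _ = N := by
            rw [Finset.sum_coe_sort A μ, hμ1, hM]; ring
    exact_mod_cast h1
  obtain ⟨e⟩ : Nonempty ((Σ a : A, Fin (c a)) ↪ Fin N) := by
    apply Function.Embedding.nonempty_of_card_le
    rw [Fintype.card_sigma, Fintype.card_fin]
    simpa using hsum
  refine ⟨Function.extend e Sigma.fst (fun _ => ⟨a₀, ha₀⟩), ?_⟩
  intro g hg
  set L : Fin N → A := Function.extend e Sigma.fst (fun _ => ⟨a₀, ha₀⟩) with hL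
  have h1 : ∑ s : (Σ a : A, Fin (c a)), g s.1 ≤ ∑ l, g (L l) := by
    have h2 : ∑ s : (Σ a : A, Fin (c a)), g s.1 = ∑ s : (Σ a : A, Fin (c a)), g (L (e s)) := by
      refine Finset.sum_congr rfl fun s _ => ?_
      rw [hL, e.injective.extend_apply]
    rw [h2, ← Finset.sum_map Finset.univ e (fun l => g (L l))]
    exact Finset.sum_le_sum_of_subset_of_nonneg (Finset.subset_univ _) fun l _ _ => hg _
  have h2 : ∑ s : (Σ a : A, Fin (c a)), g s.1 = ∑ a : A, (c a : ℝ) * g a := by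
    rw [Fintype.sum_sigma]
    refine Finset.sum_congr rfl fun a _ => ?_
    simp
  have h3 : M * ∑ a ∈ A, μ a * g a ≤ ∑ a : A, (c a : ℝ) * g a := by
    rw [Finset.mul_sum, ← Finset.sum_coe_sort A (fun a => M * (μ a * g a))]
    apply Finset.sum_le_sum
    intro a _
    rw [← mul_assoc]
    exact mul_le_mul_of_nonneg_right (hc1 a) (hg a)
  rw [le_div_iff₀ hN0]
  calc (1 - (A.card : ℝ) / N) * (∑ a ∈ A, μ a * g a) * N = M * ∑ a ∈ A, μ a * g a := by
        rw [hM]; field_simp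
    _ ≤ _ := h3
    _ = _ := h2.symm
    _ ≤ _ := h1

/-- A list whose empirical measure dominates half of a given probability measure. -/
lemma exists_list {E : Type*} (A : Finset E) (hA : A.Nonempty) (μ : E → ℝ)
    (hμ0 : ∀ a, 0 ≤ μ a) (hμ1 : ∑ a ∈ A, μ a = 1) (N : ℕ) (hN : 2 * A.card ≤ N) :
    ∃ L : Fin N → A, ∀ g : E → ℝ, (∀ a, 0 ≤ g a) →
      1 / 2 * ∑ a ∈ A, μ a * g a ≤ (∑ l, g (L l)) / N := by
  obtain ⟨L, hL⟩ := exists_list_gen A hA μ hμ0 hμ1 N (by omega)
  refine ⟨L, fun g hg => le_trans ?_ (hL g hg)⟩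
  apply mul_le_mul_of_nonneg_right _ (Finset.sum_nonneg fun a _ => mul_nonneg (hμ0 a) (hg a))
  have hcard : 0 < A.card := Finset.card_pos.2 hA
  have hN0 : (0 : ℝ) < N := by
    have : 0 < N := by omega
    exact_mod_cast this
  have h1 : (A.card : ℝ) / N ≤ 1 / 2 := by
    rw [div_le_div_iff₀ hN0 (by norm_num)]
    have : (2 : ℝ) * A.card ≤ N := by exact_mod_cast hN
    linarith
  linarith

end Pool.Agent.Helper6.Helly
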