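import Mathlib

/-!
D-optimal multisets of at most `2 d` vectors (used for MP_882a21_co).
-/

set_option autoImplicit false

namespace Pool.Agent.Helper6.Helly

open scoped BigOperators Matrix

/-- The Gram (moment) matrix `∑ tᵢ tᵢᵀ`. -/
def gm {n d : ℕ} (t : Fin n → Fin d → ℝ) : Matrix (Fin d) (Fin d) ℝ :=
  (Matrix.of t)ᵀ * Matrix.of t

lemma gm_apply {n d : ℕ} (t : Fin n → Fin d → ℝ) (a b : Fin d) :
    gm t a b = ∑ i, t i a * t i b := by
  simp [gm, Matrix.mul_apply]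

lemma gm_posSemidef {n d : ℕ} (t : Fin n → Fin d → ℝ) : (gm t).PosSemidef := by
  have := Matrix.posSemidef_conjTranspose_mul_self (Matrix.of t)
  simpa [gm] using this

lemma gm_succAbove {n d : ℕ} (t : Fin (n + 1) → Fin d → ℝ) (i : Fin (n + 1)) :
    gm (fun j => t (i.succAbove j)) = gm t + (-1 : ℝ) • Matrix.vecMulVec (t i) (t i) := by
  ext a b
  rw [Matrix.add_apply, gm_apply, gm_apply, Fin.sum_univ_succAbove _ i, Matrix.smul_apply,
    Matrix.vecMulVec_apply]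
  simp

lemma gm_cons {n d : ℕ} (t : Fin n → Fin d → ℝ) (u : Fin d → ℝ) :
    gm (Fin.cons u t : Fin (n + 1) → Fin d → ℝ) = gm t + (1 : ℝ) • Matrix.vecMulVec u u := by
  ext a b
  rw [Matrix.add_apply, gm_apply, gm_apply, Fin.sum_univ_succ, Matrix.smul_apply,
    Matrix.vecMulVec_apply]
  simp [add_comm]

lemma det_add_rank_one {d : ℕ} (M : Matrix (Fin d) (Fin d) ℝ) (hM : IsUnit M.det)
    (a : Fin d → ℝ) (c : ℝ) :
    (M + c • Matrix.vecMulVec a a).det = M.det * (1 + c * (a ⬝ᵥ M⁻¹ *ᵥ a)) := by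
  have h1 : c • Matrix.vecMulVec a a =
      Matrix.replicateCol Unit (c • a) * Matrix.replicateRow Unit a := by
    ext i j
    simp [Matrix.mul_apply, Matrix.vecMulVec_apply]
    ring
  rw [h1, Matrix.det_add_mul _ _ hM]
  congr 1
  rw [Matrix.det_unique (1 + Matrix.replicateRow Unit a * M⁻¹ * Matrix.replicateCol Unit (c • a)),
    Matrix.add_apply, Matrix.one_apply_eq, Matrix.mul_assoc, ← Matrix.replicateCol_mulVec,
    Matrix.replicateRow_mul_replicateCol_apply, Matrix.mulVec_smul, dotProduct_smul, smul_eq_mul]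

/-- Some `d` vectors of a spanning set have an invertible moment matrix. -/
lemma exists_basis {d : ℕ} (A : Finset (Fin d → ℝ))
    (hspan : Submodule.span ℝ (A : Set (Fin d → ℝ)) = ⊤) :
    ∃ t : Fin d → Fin d → ℝ, (∀ i, t i ∈ A) ∧ 0 < (gm t).det := by
  obtain ⟨b, hbA, hbspan, hbli⟩ := exists_linearIndependent ℝ (A : Set (Fin d → ℝ))
  rw [hspan] at hbspan
  have hbfin : b.Finite := A.finite_toSet.subset hbA
  let B : Module.Basis b ℝ (Fin d → ℝ) := Module.Basis.mk hbli (by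
    rw [Subtype.range_coe]
    exact hbspan.ge)
  have : Fintype b := hbfin.fintype
  have hcard : Fintype.card b = d := by
    have := Module.finrank_eq_card_basis B
    simpa using this.symm
  let e : Fin d ≃ b := (Fintype.equivFinOfCardEq hcard).symm
  refine ⟨fun i => (e i : Fin d → ℝ), fun i => hbA (e i).2, ?_⟩
  have hli : LinearIndependent ℝ (fun i : Fin d => ((e i : b) : Fin d → ℝ)) :=
    hbli.comp e e.injective
  have hunit : IsUnit (Matrix.of (fun i : Fin d => ((e i : b) : Fin d → ℝ))) := by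
    rw [← Matrix.linearIndependent_rows_iff_isUnit]
    exact hli
  have hdet : (Matrix.of (fun i : Fin d => ((e i : b) : Fin d → ℝ))).det ≠ 0 :=
    ((Matrix.isUnit_iff_isUnit_det _).1 hunit).ne_zero
  rw [gm, Matrix.det_mul, Matrix.det_transpose]
  exact mul_self_pos.2 hdet

theorem dopt {d : ℕ} (A : Finset (Fin d → ℝ))
    (hspan : Submodule.span ℝ (A : Set (Fin d → ℝ)) = ⊤) :
    ∃ n : ℕ, d ≤ n ∧ n ≤ 2 * d ∧ ∃ t : Fin n → Fin d → ℝ, (∀ i, t i ∈ A) ∧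
      (gm t).PosDef ∧ (∀ i, 1 / 2 ≤ t i ⬝ᵥ (gm t)⁻¹ *ᵥ t i) ∧
      ∀ a ∈ A, a ⬝ᵥ (gm t)⁻¹ *ᵥ a ≤ 1 := by
  classical
  let α := Σ n : Fin (2 * d + 2), (Fin n → A)
  have : Nonempty α := ⟨⟨⟨0, by omega⟩, fun i => i.elim0⟩⟩
  let f : α → ℝ := fun p => (1 / 2 : ℝ) ^ (p.1 : ℕ) * (gm (fun i => (p.2 i : Fin d → ℝ))).det
  obtain ⟨⟨n, t⟩, hmax⟩ := Finite.exists_max f
  have hpos : 0 < f ⟨n, t⟩ := by
    obtain ⟨t₀, ht₀A, ht₀⟩ := exists_basis A hspan
    refine lt_of_lt_of_le ?_ (hmax ⟨⟨d, by omega⟩, fun i => ⟨t₀ i, ht₀A i⟩⟩)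
    exact mul_pos (by positivity) ht₀
  obtain ⟨n, hn⟩ := n
  set T : Fin n → Fin d → ℝ := fun i => (t i : Fin d → ℝ) with hT
  have hdet : 0 < (gm T).det := by
    have h1 : 0 < (1 / 2 : ℝ) ^ n * (gm T).det := hpos
    exact (mul_pos_iff_of_pos_left (by positivity)).1 h1
  have hunit : IsUnit (gm T).det := hdet.ne'.isUnit
  have hPD : (gm T).PosDef := (gm_posSemidef T).posDef_iff_det_ne_zero.2 hdet.ne'
  -- removal
  have hlev : ∀ i, 1 / 2 ≤ T i ⬝ᵥ (gm T)⁻¹ *ᵥ T i := by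
    intro i
    obtain ⟨m, rfl⟩ : ∃ m, n = m + 1 := ⟨n - 1, by have := i.2; omega⟩
    have h1 := hmax ⟨⟨m, by omega⟩, fun j => t (i.succAbove j)⟩
    have h2 : (1 / 2 : ℝ) ^ m * (gm (fun j => T (i.succAbove j))).det ≤
        (1 / 2 : ℝ) ^ (m + 1) * (gm T).det := h1
    rw [gm_succAbove, det_add_rank_one _ hunit, pow_succ] at h2
    have h3 : (0 : ℝ) < (1 / 2 : ℝ) ^ m := by positivity
    have h4 : (gm T).det * (1 + -1 * (T i ⬝ᵥ (gm T)⁻¹ *ᵥ T i)) ≤ (gm T).det * (1 / 2) := by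
      have : (1 / 2 : ℝ) ^ m * ((gm T).det * (1 + -1 * (T i ⬝ᵥ (gm T)⁻¹ *ᵥ T i))) ≤
          (1 / 2 : ℝ) ^ m * ((gm T).det * (1 / 2)) := by
        calc _ ≤ _ := h2
          _ = _ := by ring
      exact le_of_mul_le_mul_left this h3
    have h5 := le_of_mul_le_mul_left h4 hdet
    linarith
  -- the leverages sum to `d`
  have hsum : ∑ i, T i ⬝ᵥ (gm T)⁻¹ *ᵥ T i = d := by
    have h1 : ∑ i, T i ⬝ᵥ (gm T)⁻¹ *ᵥ T i =
        (Matrix.of T * (gm T)⁻¹ * (Matrix.of T)ᵀ).trace := by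
      rw [Matrix.trace]
      refine Finset.sum_congr rfl fun i _ => ?_
      rw [Matrix.diag_apply, Matrix.mul_assoc, Matrix.mul_apply, dotProduct]
      refine Finset.sum_congr rfl fun a _ => ?_
      rw [Matrix.mul_apply, Matrix.mulVec, dotProduct]
      rfl
    rw [h1, Matrix.trace_mul_comm, ← Matrix.mul_assoc]
    have h2 : (Matrix.of T)ᵀ * Matrix.of T * (gm T)⁻¹ = 1 := Matrix.mul_nonsing_inv _ hunit
    rw [h2, Matrix.trace_one]
    simp
  have hn2 : n ≤ 2 * d := by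
    have h1 : ∑ i : Fin n, (1 / 2 : ℝ) ≤ ∑ i, T i ⬝ᵥ (gm T)⁻¹ *ᵥ T i :=
      Finset.sum_le_sum fun i _ => hlev i
    rw [hsum, Finset.sum_const, Finset.card_univ, Fintype.card_fin, nsmul_eq_mul] at h1
    have h2 : (n : ℝ) ≤ 2 * d := by linarith
    exact_mod_cast h2
  -- addition
  have hadd : ∀ a ∈ A, a ⬝ᵥ (gm T)⁻¹ *ᵥ a ≤ 1 := by
    intro a ha
    have h1 := hmax ⟨⟨n + 1, by omega⟩, Fin.cons ⟨a, ha⟩ t⟩
    have hc : (fun i : Fin (n + 1) => ((Fin.cons (⟨a, ha⟩ : A) t : Fin (n + 1) → A) i :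
        Fin d → ℝ)) = Fin.cons a T := by
      funext i
      refine Fin.cases ?_ (fun j => ?_) i
      · simp
      · simp [hT]
    have h2 : (1 / 2 : ℝ) ^ (n + 1) * (gm (fun i : Fin (n + 1) =>
        ((Fin.cons (⟨a, ha⟩ : A) t : Fin (n + 1) → A) i : Fin d → ℝ))).det ≤
        (1 / 2 : ℝ) ^ n * (gm T).det := h1
    rw [hc, gm_cons, det_add_rank_one _ hunit, pow_succ] at h2
    have h3 : (0 : ℝ) < (1 / 2 : ℝ) ^ n := by positivity
    have h4 : (gm T).det * (1 / 2 * (1 + 1 * (a ⬝ᵥ (gm T)⁻¹ *ᵥ a))) ≤ (gm T).det * 1 := by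
      have : (1 / 2 : ℝ) ^ n * ((gm T).det * (1 / 2 * (1 + 1 * (a ⬝ᵥ (gm T)⁻¹ *ᵥ a)))) ≤
          (1 / 2 : ℝ) ^ n * ((gm T).det * 1) := by
        calc _ = _ := by ring
          _ ≤ _ := h2
          _ = _ := by ring
      exact le_of_mul_le_mul_left this h3
    have h5 := le_of_mul_le_mul_left h4 hdet
    linarith
  have hn1 : d ≤ n := by
    have h1 : ∑ i, T i ⬝ᵥ (gm T)⁻¹ *ᵥ T i ≤ ∑ i : Fin n, (1 : ℝ) :=
      Finset.sum_le_sum fun i _ => hadd (T i) (t i).2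
    rw [hsum, Finset.sum_const, Finset.card_univ, Fintype.card_fin, nsmul_eq_mul, mul_one] at h1
    exact_mod_cast h1
  exact ⟨n, hn1, hn2, T, fun i => (t i).2, hPD, hlev, hadd⟩

end Pool.Agent.Helper6.Helly
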