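import Mathlib

/-!
The selection lemma: a one sided, Bang type, sign lemma for orthogonal projections with diagonal
at most `1/2` (used for MP_882a21_co).
-/

set_option autoImplicit false

namespace Pool.Agent.Helper6.Helly

open scoped BigOperators Matrix

/-- The sign attached to a Boolean. -/
def sg (b : Bool) : ℝ := if b then 1 else -1

lemma sg_mul_self (b : Bool) : sg b * sg b = 1 := by
  cases b <;> simp [sg]

lemma sg_not (b : Bool) : sg (!b) = - sg b := by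
  cases b <;> simp [sg]

lemma abs_sg (b : Bool) : |sg b| = 1 := by
  cases b <;> simp [sg]

lemma abs_lt_sqrt' {x y : ℝ} (h : x ^ 2 < y) : |x| < √y := by
  rw [← Real.sqrt_sq_eq_abs]
  exact Real.sqrt_lt_sqrt (sq_nonneg _) h

section

variable {ι : Type} [Fintype ι] [DecidableEq ι]

/-- Flip one coordinate of a Boolean vector. -/
def flp (v : ι) (σ : ι → Bool) : ι → Bool := Function.update σ v (!σ v)

lemma flp_same (v : ι) (σ : ι → Bool) : flp v σ v = !σ v := by simp [flp]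

lemma flp_ne {v u : ι} (h : u ≠ v) (σ : ι → Bool) : flp v σ u = σ u := by simp [flp, h]

lemma flp_flp (v : ι) : Function.Involutive (flp v) := by
  intro σ
  funext u
  by_cases h : u = v
  · subst h; simp [flp]
  · simp [flp, h]

lemma sum_flp (v : ι) (f : (ι → Bool) → ℝ) : ∑ σ, f (flp v σ) = ∑ σ, f σ :=
  (flp_flp v).bijective.sum_comp f

lemma sum_sg_mul (u v : ι) :
    ∑ σ : ι → Bool, sg (σ u) * sg (σ v) =
      if u = v then (Fintype.card (ι → Bool) : ℝ) else 0 := by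
  split_ifs with h
  · subst h
    simp [sg_mul_self, Finset.card_univ]
  · have h1 := sum_flp u (fun σ : ι → Bool => sg (σ u) * sg (σ v))
    have h2 : ∀ σ : ι → Bool, sg (flp u σ u) * sg (flp u σ v) = -(sg (σ u) * sg (σ v)) := by
      intro σ
      rw [flp_same, flp_ne (Ne.symm h), sg_not]
      ring
    simp only [h2, Finset.sum_neg_distrib] at h1
    linarith

lemma sum_sq (c : ι → ℝ) :
    ∑ σ : ι → Bool, (∑ v, sg (σ v) * c v) ^ 2 =
      (Fintype.card (ι → Bool) : ℝ) * ∑ v, c v ^ 2 := by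
  have h1 : ∀ σ : ι → Bool, (∑ v, sg (σ v) * c v) ^ 2 =
      ∑ u, ∑ v, (c u * c v) * (sg (σ u) * sg (σ v)) := by
    intro σ
    rw [sq, Finset.sum_mul_sum]
    refine Finset.sum_congr rfl fun u _ => Finset.sum_congr rfl fun v _ => ?_
    ring
  simp only [h1]
  rw [Finset.sum_comm]
  have h2 : ∀ u, ∑ σ : ι → Bool, ∑ v, (c u * c v) * (sg (σ u) * sg (σ v)) =
      (Fintype.card (ι → Bool) : ℝ) * c u ^ 2 := by
    intro u
    rw [Finset.sum_comm]
    simp only [← Finset.mul_sum, sum_sg_mul, mul_ite, mul_zero, Finset.sum_ite_eq,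
      Finset.mem_univ, if_true]
    ring
  simp only [h2, ← Finset.mul_sum]

variable (P : Matrix ι ι ℝ)

lemma dot_mul (hs : Pᵀ = P) (hi : P * P = P) (a b : ι → ℝ) :
    (P *ᵥ a) ⬝ᵥ (P *ᵥ b) = (P *ᵥ a) ⬝ᵥ b := by
  rw [Matrix.dotProduct_mulVec, ← Matrix.mulVec_transpose, hs, Matrix.mulVec_mulVec, hi]

lemma nsq_le (hs : Pᵀ = P) (hi : P * P = P) (a : ι → ℝ) :
    (P *ᵥ a) ⬝ᵥ (P *ᵥ a) ≤ a ⬝ᵥ a := by
  have h := dotProduct_star_self_nonneg (a - P *ᵥ a)
  simp only [star_trivial] at h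
  rw [sub_dotProduct, dotProduct_sub, dotProduct_sub, dot_mul P hs hi] at h
  rw [dot_mul P hs hi]
  rw [dotProduct_comm a (P *ᵥ a)] at h
  linarith

lemma nsq_sub_single (hs : Pᵀ = P) (hi : P * P = P) (c : ι → ℝ) (v : ι) (a : ℝ) :
    (P *ᵥ (c - a • Pi.single v 1)) ⬝ᵥ (P *ᵥ (c - a • Pi.single v 1)) =
      (P *ᵥ c) ⬝ᵥ (P *ᵥ c) - 2 * a * (P *ᵥ c) v + a ^ 2 * P v v := by
  have h1 : (P *ᵥ c) ⬝ᵥ (P *ᵥ (Pi.single v 1 : ι → ℝ)) = (P *ᵥ c) v := by
    rw [dot_mul P hs hi, dotProduct_single_one]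
  have h2 : (P *ᵥ (Pi.single v 1 : ι → ℝ)) ⬝ᵥ (P *ᵥ (Pi.single v 1 : ι → ℝ)) = P v v := by
    rw [dot_mul P hs hi, dotProduct_single_one, Matrix.mulVec_single_one]
    rfl
  have h3 : (P *ᵥ (Pi.single v 1 : ι → ℝ)) ⬝ᵥ (P *ᵥ c) = (P *ᵥ c) v := by
    rw [dotProduct_comm, h1]
  rw [Matrix.mulVec_sub, Matrix.mulVec_smul, sub_dotProduct, dotProduct_sub, dotProduct_sub,
    smul_dotProduct, dotProduct_smul, smul_dotProduct, dotProduct_smul, h1, h2, h3]
  simp only [smul_eq_mul]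
  ring

/-- The signed coefficient vector supported on `G`. -/
def sv (G : Finset ι) (q : ι → ℝ) (s : ι → Bool) : ι → ℝ :=
  fun v => if v ∈ G then sg (s v) * q v else 0

lemma sv_flp (G : Finset ι) (q : ι → ℝ) (s : ι → Bool) {v : ι} (hv : v ∈ G) :
    sv G q (flp v s) = sv G q s - (2 * (sg (s v) * q v)) • Pi.single v 1 := by
  funext u
  by_cases h : u = v
  · subst h
    simp only [sv, hv, if_true, flp_same, sg_not, Pi.sub_apply, Pi.smul_apply,
      Pi.single_eq_same, smul_eq_mul]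
    ring
  · simp [sv, flp_ne h, Pi.single_eq_of_ne h]

lemma sv_nsq (G : Finset ι) (q : ι → ℝ) (s : ι → Bool) :
    sv G q s ⬝ᵥ sv G q s = ∑ v ∈ G, q v ^ 2 := by
  rw [dotProduct, ← Finset.sum_filter_add_sum_filter_not Finset.univ (· ∈ G)]
  have h1 : ∑ v ∈ Finset.univ.filter (fun v => ¬ v ∈ G), sv G q s v * sv G q s v = 0 := by
    apply Finset.sum_eq_zero
    intro v hv
    simp [sv, (Finset.mem_filter.1 hv).2]
  rw [h1, add_zero, Finset.filter_mem_eq_inter, Finset.univ_inter]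
  refine Finset.sum_congr rfl fun v hv => ?_
  simp only [sv, hv, if_true]
  have := sg_mul_self (s v)
  linear_combination (q v ^ 2) * this

lemma opt_flip (hs : Pᵀ = P) (hi : P * P = P) (G : Finset ι) (q : ι → ℝ) (c : ι → ℝ)
    (s : ι → Bool)
    (hopt : ∀ s', (P *ᵥ (c + sv G q s')) ⬝ᵥ (P *ᵥ (c + sv G q s')) ≤
      (P *ᵥ (c + sv G q s)) ⬝ᵥ (P *ᵥ (c + sv G q s))) {v : ι} (hv : v ∈ G) (hq : 0 < q v) :
    q v * P v v ≤ sg (s v) * (P *ᵥ (c + sv G q s)) v := by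
  have h := hopt (flp v s)
  rw [sv_flp G q s hv, ← add_sub_assoc, nsq_sub_single P hs hi] at h
  have h1 := sg_mul_self (s v)
  have h2 : (2 * (sg (s v) * q v)) ^ 2 = 4 * q v ^ 2 := by
    linear_combination (4 * q v ^ 2) * h1
  rw [h2] at h
  have h3 : 0 ≤ 4 * q v * (sg (s v) * (P *ᵥ (c + sv G q s)) v - q v * P v v) := by
    linarith
  have h4 : 0 ≤ sg (s v) * (P *ᵥ (c + sv G q s)) v - q v * P v v := by
    by_contra hcon
    push Not at hcon
    have := mul_neg_of_pos_of_neg (by linarith : 0 < 4 * q v) hcon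
    linarith
  linarith

/-- Two optimal completions of neighbouring base vectors. -/
lemma opt_pair (hs : Pᵀ = P) (hi : P * P = P) (G : Finset ι) (q : ι → ℝ) (c : ι → ℝ) (v : ι)
    (a : ℝ) (ha : 0 < a) (s s' : ι → Bool)
    (hopt : ∀ t, (P *ᵥ (c + sv G q t)) ⬝ᵥ (P *ᵥ (c + sv G q t)) ≤
      (P *ᵥ (c + sv G q s)) ⬝ᵥ (P *ᵥ (c + sv G q s)))
    (hopt' : ∀ t, (P *ᵥ (c - a • Pi.single v 1 + sv G q t)) ⬝ᵥ
      (P *ᵥ (c - a • Pi.single v 1 + sv G q t)) ≤
      (P *ᵥ (c - a • Pi.single v 1 + sv G q s')) ⬝ᵥ (P *ᵥ (c - a • Pi.single v 1 + sv G q s'))) :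
    a * P v v ≤ (P *ᵥ (c + sv G q s)) v - (P *ᵥ (c - a • Pi.single v 1 + sv G q s')) v := by
  have h1 := hopt s'
  have h2 := hopt' s
  have e1 : ∀ t, c - a • Pi.single v 1 + sv G q t = c + sv G q t - a • Pi.single v 1 := by
    intro t; abel
  rw [e1 s, e1 s'] at h2
  rw [nsq_sub_single P hs hi, nsq_sub_single P hs hi] at h2
  have h3 : (P *ᵥ (c - a • Pi.single v 1 + sv G q s')) v =
      (P *ᵥ (c + sv G q s')) v - a * P v v := by
    rw [e1 s', Matrix.mulVec_sub, Matrix.mulVec_smul, Matrix.mulVec_single_one]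
    simp [Matrix.col]
  rw [h3]
  have h4 : 0 ≤ 2 * a * ((P *ᵥ (c + sv G q s)) v - (P *ᵥ (c + sv G q s')) v) := by linarith
  have h5 : 0 ≤ (P *ᵥ (c + sv G q s)) v - (P *ᵥ (c + sv G q s')) v := by
    by_contra hcon
    push Not at hcon
    have := mul_neg_of_pos_of_neg (by linarith : 0 < 2 * a) hcon
    linarith
  linarith

lemma diag_nonneg (hs : Pᵀ = P) (hi : P * P = P) (v : ι) : 0 ≤ P v v := by
  have h2 : (P *ᵥ (Pi.single v 1 : ι → ℝ)) ⬝ᵥ (P *ᵥ (Pi.single v 1 : ι → ℝ)) = P v v := by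
    rw [dot_mul P hs hi, dotProduct_single_one, Matrix.mulVec_single_one]
    rfl
  rw [← h2]
  have h := dotProduct_star_self_nonneg (P *ᵥ (Pi.single v 1 : ι → ℝ))
  simpa using h

lemma good_of_opt (hs : Pᵀ = P) (hi : P * P = P) (G : Finset ι) (β : ι → ℝ)
    (hβ : ∀ i, 0 ≤ β i) (c : ι → ℝ) (s : ι → Bool)
    (hopt : ∀ s', (P *ᵥ (c + sv G (fun v => √(β v) / P v v) s')) ⬝ᵥ
        (P *ᵥ (c + sv G (fun v => √(β v) / P v v) s')) ≤
      (P *ᵥ (c + sv G (fun v => √(β v) / P v v) s)) ⬝ᵥ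
        (P *ᵥ (c + sv G (fun v => √(β v) / P v v) s))) {v : ι} (hv : v ∈ G)
    (hP : 0 < P v v) :
    β v ≤ (P *ᵥ (c + sv G (fun v => √(β v) / P v v) s)) v ^ 2 := by
  rcases (hβ v).eq_or_lt with h0 | h0
  · rw [← h0]; exact sq_nonneg _
  · have hq : 0 < √(β v) / P v v := div_pos (Real.sqrt_pos.2 h0) hP
    have h1 := opt_flip P hs hi G (fun v => √(β v) / P v v) c s hopt hv hq
    have h2 : √(β v) / P v v * P v v = √(β v) := div_mul_cancel₀ _ hP.ne'
    simp only [h2] at h1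
    set z := (P *ᵥ (c + sv G (fun v => √(β v) / P v v) s)) v with hz
    have h3 : (sg (s v) * z) ^ 2 = z ^ 2 := by
      have := sg_mul_self (s v)
      linear_combination (z ^ 2) * this
    calc β v = √(β v) ^ 2 := (Real.sq_sqrt (hβ v)).symm
      _ ≤ (sg (s v) * z) ^ 2 := pow_le_pow_left₀ (Real.sqrt_nonneg _) h1 2
      _ = z ^ 2 := h3

lemma exists_opt (G : Finset ι) (q c : ι → ℝ) : ∃ s : ι → Bool,
    ∀ s', (P *ᵥ (c + sv G q s')) ⬝ᵥ (P *ᵥ (c + sv G q s')) ≤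
      (P *ᵥ (c + sv G q s)) ⬝ᵥ (P *ᵥ (c + sv G q s)) :=
  Finite.exists_max (fun s : ι → Bool => (P *ᵥ (c + sv G q s)) ⬝ᵥ (P *ᵥ (c + sv G q s)))

lemma sum_nsq (hs : Pᵀ = P) (hi : P * P = P) (G : Finset ι) (q : ι → ℝ) :
    ∑ σ : ι → Bool, (P *ᵥ sv G q σ) ⬝ᵥ (P *ᵥ sv G q σ) =
      (Fintype.card (ι → Bool) : ℝ) * ∑ v ∈ G, q v ^ 2 * P v v := by
  have h1 : ∀ σ : ι → Bool, (P *ᵥ sv G q σ) ⬝ᵥ (P *ᵥ sv G q σ) =
      ∑ i, (∑ v, sg (σ v) * (if v ∈ G then P i v * q v else 0)) ^ 2 := by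
    intro σ
    rw [dotProduct]
    refine Finset.sum_congr rfl fun i _ => ?_
    rw [← sq]
    congr 1
    rw [Matrix.mulVec, dotProduct]
    refine Finset.sum_congr rfl fun v _ => ?_
    simp only [sv]
    split_ifs <;> ring
  simp only [h1]
  rw [Finset.sum_comm]
  simp only [sum_sq, ← Finset.mul_sum]
  congr 1
  rw [Finset.sum_comm]
  rw [← Finset.sum_filter_add_sum_filter_not Finset.univ (· ∈ G)]
  have h2 : ∑ v ∈ Finset.univ.filter (fun v => ¬ v ∈ G),
      ∑ i, (if v ∈ G then P i v * q v else 0) ^ 2 = 0 := by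
    apply Finset.sum_eq_zero
    intro v hv
    apply Finset.sum_eq_zero
    intro i _
    simp [(Finset.mem_filter.1 hv).2]
  rw [h2, add_zero, Finset.filter_mem_eq_inter, Finset.univ_inter]
  refine Finset.sum_congr rfl fun v hv => ?_
  simp only [hv, if_true]
  have h3 : P v v = ∑ i, P i v * P i v := by
    conv_lhs => rw [← hi]
    rw [Matrix.mul_apply]
    refine Finset.sum_congr rfl fun i _ => ?_
    congr 1
    conv_lhs => rw [← hs]
    rfl
  rw [h3, Finset.mul_sum]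
  refine Finset.sum_congr rfl fun i _ => ?_
  ring

theorem selection (hs : Pᵀ = P) (hi : P * P = P) (hdiag : ∀ i, P i i ≤ 1 / 2) (k : ℕ)
    (htr : P.trace = k) (β : ι → ℝ) (hβ : ∀ i, 0 ≤ β i) :
    ∃ Z : ι → ℝ, P *ᵥ Z = Z ∧ Z ⬝ᵥ Z ≤ 576 * ∑ i, β i ∧
      ∃ B : Finset ι, 2 * k ≤ B.card ∧ ∀ i ∈ B, β i ≤ Z i ^ 2 := by
  have htr' : ∑ v, P v v = (k : ℝ) := htr
  have hPP : ∀ c : ι → ℝ, P *ᵥ (P *ᵥ c) = P *ᵥ c := by
    intro c
    rw [Matrix.mulVec_mulVec, hi]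
  set τ := ∑ i, β i with hτdef
  have hτ0 : 0 ≤ τ := Finset.sum_nonneg fun i _ => hβ i
  rcases hτ0.eq_or_lt with hτ | hτ
  · -- all weights vanish
    have hb0 : ∀ i, β i = 0 := by
      intro i
      exact (Finset.sum_eq_zero_iff_of_nonneg (fun i _ => hβ i)).1 hτ.symm i (Finset.mem_univ i)
    refine ⟨0, by simp, by simp [← hτ], Finset.univ, ?_, fun i _ => by simp [hb0 i]⟩
    have h1 : (k : ℝ) ≤ ∑ v : ι, (1 / 2 : ℝ) := by
      rw [← htr']
      exact Finset.sum_le_sum fun v _ => hdiag v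
    rw [Finset.sum_const, nsmul_eq_mul] at h1
    have h2 : (2 * k : ℝ) ≤ (Finset.univ : Finset ι).card := by linarith
    exact_mod_cast h2
  set q : ι → ℝ := fun v => √(β v) / P v v with hq
  set G₁ : Finset ι := Finset.univ.filter (fun v => 1 / 16 ≤ P v v) with hG₁
  have hqG : ∑ v ∈ G₁, q v ^ 2 ≤ 256 * τ := by
    calc ∑ v ∈ G₁, q v ^ 2 ≤ ∑ v ∈ G₁, 256 * β v := by
          refine Finset.sum_le_sum fun v hv => ?_
          have h1 : 1 / 16 ≤ P v v := (Finset.mem_filter.1 hv).2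
          simp only [hq]
          rw [div_pow, Real.sq_sqrt (hβ v), div_le_iff₀ (by positivity)]
          have h2 : (1 / 16) ^ 2 ≤ P v v ^ 2 := pow_le_pow_left₀ (by norm_num) h1 2
          nlinarith [hβ v]
      _ ≤ ∑ v, 256 * β v := Finset.sum_le_sum_of_subset_of_nonneg (Finset.subset_univ _)
          (fun v _ _ => mul_nonneg (by norm_num) (hβ v))
      _ = 256 * τ := by rw [← Finset.mul_sum]
  by_cases hcase : 2 * k ≤ G₁.card
  · obtain ⟨s, hopt⟩ := exists_opt P G₁ q 0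
    refine ⟨P *ᵥ (0 + sv G₁ q s), hPP _, ?_, G₁, hcase, ?_⟩
    · refine (nsq_le P hs hi _).trans ?_
      rw [zero_add, sv_nsq]
      linarith
    · intro v hv
      exact good_of_opt P hs hi G₁ β hβ 0 s hopt hv
        (lt_of_lt_of_le (by norm_num) (Finset.mem_filter.1 hv).2)
  push Not at hcase
  obtain ⟨j, hj⟩ : ∃ j : ℕ, 2 * k = G₁.card + j := ⟨2 * k - G₁.card, by omega⟩
  have hj1 : 1 ≤ j := by omega
  have hjpos : (0 : ℝ) < j := by exact_mod_cast hj1
  set E₀ : Finset ι := Finset.univ.filter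
    (fun v => P v v < 1 / 16 ∧ 0 < P v v ∧ (j : ℝ) * β v ≤ 4 * τ * P v v) with hE₀
  have hE₀card : 4 * j ≤ E₀.card := by
    have h1 : ∀ v, P v v ≤ (if v ∈ G₁ then (1 / 2 : ℝ) else 0) +
        (if v ∈ E₀ then (1 / 16 : ℝ) else 0) + (j : ℝ) / (4 * τ) * β v := by
      intro v
      have hnn : 0 ≤ (j : ℝ) / (4 * τ) * β v := mul_nonneg (by positivity) (hβ v)
      have hp0 := diag_nonneg P hs hi v
      by_cases hv1 : v ∈ G₁
      · rw [if_pos hv1]
        have : (0 : ℝ) ≤ if v ∈ E₀ then (1 / 16 : ℝ) else 0 := by split_ifs <;> norm_num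
        linarith [hdiag v]
      · rw [if_neg hv1]
        have hv1' : P v v < 1 / 16 := by
          by_contra hcon
          push Not at hcon
          exact hv1 (Finset.mem_filter.2 ⟨Finset.mem_univ v, hcon⟩)
        by_cases hv2 : v ∈ E₀
        · rw [if_pos hv2]; linarith
        · rw [if_neg hv2]
          rcases hp0.eq_or_lt with h0 | h0
          · rw [← h0]; linarith
          · have h3 : ¬ ((j : ℝ) * β v ≤ 4 * τ * P v v) := fun hcon =>
              hv2 (Finset.mem_filter.2 ⟨Finset.mem_univ v, hv1', h0, hcon⟩)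
            push Not at h3
            have h4 : P v v ≤ (j : ℝ) / (4 * τ) * β v := by
              rw [div_mul_eq_mul_div, le_div_iff₀ (by positivity)]
              linarith
            linarith
    have h2 : (k : ℝ) ≤ (G₁.card : ℝ) * (1 / 2) + (E₀.card : ℝ) * (1 / 16) + (j : ℝ) / 4 := by
      rw [← htr']
      refine (Finset.sum_le_sum fun v _ => h1 v).trans ?_
      rw [Finset.sum_add_distrib, Finset.sum_add_distrib, Finset.sum_ite_mem,
        Finset.sum_ite_mem, Finset.univ_inter, Finset.univ_inter, Finset.sum_const,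
        Finset.sum_const, nsmul_eq_mul, nsmul_eq_mul, ← Finset.mul_sum, ← hτdef]
      have h3 : (j : ℝ) / (4 * τ) * τ = j / 4 := by field_simp
      rw [h3]
    have h3 : (2 * k : ℝ) = G₁.card + j := by exact_mod_cast hj
    have h4 : (4 * j : ℝ) ≤ E₀.card := by linarith
    exact_mod_cast h4
  obtain ⟨G₂, hG₂E, hG₂card⟩ := Finset.exists_subset_card_eq hE₀card
  have hG₂ : ∀ v ∈ G₂, P v v < 1 / 16 ∧ 0 < P v v ∧ (j : ℝ) * β v ≤ 4 * τ * P v v :=
    fun v hv => (Finset.mem_filter.1 (hG₂E hv)).2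
  choose s hopt using fun σ : ι → Bool => exists_opt P G₁ q (sv G₂ q σ)
  set Z : (ι → Bool) → ι → ℝ := fun σ => P *ᵥ (sv G₂ q σ + sv G₁ q (s σ)) with hZ
  set bad : (ι → Bool) → ι → ℝ := fun σ v => if Z σ v ^ 2 < β v then 1 else 0 with hbad
  set N : ℝ := (Fintype.card (ι → Bool) : ℝ) with hN
  have hNpos : 0 < N := by
    have : 0 < Fintype.card (ι → Bool) := Fintype.card_pos
    rw [hN]
    exact_mod_cast this
  have hbad_nn : ∀ σ v, 0 ≤ bad σ v := by
    intro σ v; simp only [hbad]; split_ifs <;> norm_num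
  -- a pair of neighbouring sign vectors
  have hpair0 : ∀ v ∈ G₂, ∀ σ : ι → Bool, σ v = true → bad σ v + bad (flp v σ) v ≤ 1 := by
    intro v hv σ hσ
    by_contra hcon
    have hb1 : Z σ v ^ 2 < β v := by
      by_contra h
      apply hcon
      have : bad σ v = 0 := by simp only [hbad]; rw [if_neg h]
      rw [this, zero_add]
      simp only [hbad]; split_ifs <;> norm_num
    have hb2 : Z (flp v σ) v ^ 2 < β v := by
      by_contra h
      apply hcon
      have : bad (flp v σ) v = 0 := by simp only [hbad]; rw [if_neg h]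
      rw [this, add_zero]
      simp only [hbad]; split_ifs <;> norm_num
    have hβv : 0 < β v := lt_of_le_of_lt (sq_nonneg _) hb1
    have hPv := (hG₂ v hv).2.1
    have hqv : 0 < q v := div_pos (Real.sqrt_pos.2 hβv) hPv
    have hsgt : sg (σ v) = 1 := by rw [hσ]; simp [sg]
    have hc : sv G₂ q (flp v σ) = sv G₂ q σ - (2 * q v) • Pi.single v 1 := by
      rw [sv_flp G₂ q σ hv, hsgt, one_mul]
    have hopt' := hopt (flp v σ)
    simp only [hc] at hopt'
    have h1 := opt_pair P hs hi G₁ q (sv G₂ q σ) v (2 * q v) (by linarith) (s σ)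
      (s (flp v σ)) (hopt σ) hopt'
    have h2 : 2 * q v * P v v = 2 * √(β v) := by
      simp only [hq]
      field_simp
    rw [h2, ← hc] at h1
    have h3 : Z σ v < √(β v) := lt_of_abs_lt (abs_lt_sqrt' hb1)
    have h4 : -√(β v) < Z (flp v σ) v := neg_lt_of_abs_lt (abs_lt_sqrt' hb2)
    have h5 : 2 * √(β v) ≤ Z σ v - Z (flp v σ) v := h1
    linarith
  have hpair : ∀ v ∈ G₂, ∀ σ : ι → Bool, bad σ v + bad (flp v σ) v ≤ 1 := by
    intro v hv σ
    cases hσ : σ v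
    · have h1 := hpair0 v hv (flp v σ) (by rw [flp_same, hσ]; rfl)
      rw [flp_flp v σ] at h1
      linarith
    · exact hpair0 v hv σ hσ
  have hbadsum : ∀ v ∈ G₂, ∑ σ, bad σ v ≤ N / 2 := by
    intro v hv
    have h1 : ∑ σ : ι → Bool, (bad σ v + bad (flp v σ) v) ≤ ∑ σ : ι → Bool, (1 : ℝ) :=
      Finset.sum_le_sum fun σ _ => hpair v hv σ
    rw [Finset.sum_add_distrib, sum_flp v (fun σ => bad σ v), Finset.sum_const, Finset.card_univ,
      nsmul_eq_mul, mul_one] at h1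
    linarith
  have hzsum : ∑ σ : ι → Bool, (P *ᵥ sv G₂ q σ) ⬝ᵥ (P *ᵥ sv G₂ q σ) ≤ N * (16 * τ) := by
    rw [sum_nsq P hs hi]
    refine mul_le_mul_of_nonneg_left ?_ hNpos.le
    have h1 : ∀ v ∈ G₂, q v ^ 2 * P v v ≤ 4 * τ / j := by
      intro v hv
      obtain ⟨_, hPv, hb⟩ := hG₂ v hv
      simp only [hq]
      rw [div_pow, Real.sq_sqrt (hβ v), le_div_iff₀ hjpos]
      have : β v / P v v ^ 2 * P v v * j = (j * β v) / P v v := by field_simp
      rw [this, div_le_iff₀ hPv]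
      exact hb
    refine (Finset.sum_le_sum h1).trans ?_
    rw [Finset.sum_const, hG₂card, nsmul_eq_mul]
    push_cast
    apply le_of_eq
    field_simp
    norm_num
  obtain ⟨σ, hσ⟩ : ∃ σ : ι → Bool, (∑ v ∈ G₂, bad σ v) / (3 * j) +
      ((P *ᵥ sv G₂ q σ) ⬝ᵥ (P *ᵥ sv G₂ q σ)) / (64 * τ) < 1 := by
    by_contra hcon
    push Not at hcon
    have h1 : ∑ σ : ι → Bool, (1 : ℝ) ≤ ∑ σ : ι → Bool, ((∑ v ∈ G₂, bad σ v) / (3 * j) +
      ((P *ᵥ sv G₂ q σ) ⬝ᵥ (P *ᵥ sv G₂ q σ)) / (64 * τ)) :=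
      Finset.sum_le_sum fun σ _ => hcon σ
    rw [Finset.sum_const, Finset.card_univ, nsmul_eq_mul, mul_one, Finset.sum_add_distrib,
      ← Finset.sum_div, ← Finset.sum_div, Finset.sum_comm] at h1
    have h2 : ∑ v ∈ G₂, ∑ σ : ι → Bool, bad σ v ≤ 4 * j * (N / 2) := by
      refine (Finset.sum_le_sum hbadsum).trans ?_
      rw [Finset.sum_const, hG₂card, nsmul_eq_mul]
      push_cast
      exact le_refl _
    have h3 : (∑ v ∈ G₂, ∑ σ : ι → Bool, bad σ v) / (3 * j) ≤ 2 / 3 * N := by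
      rw [div_le_iff₀ (by positivity)]
      calc _ ≤ 4 * j * (N / 2) := h2
        _ = 2 / 3 * N * (3 * j) := by ring
    have h4 : (∑ σ : ι → Bool, (P *ᵥ sv G₂ q σ) ⬝ᵥ (P *ᵥ sv G₂ q σ)) / (64 * τ) ≤
        1 / 4 * N := by
      rw [div_le_iff₀ (by positivity)]
      calc _ ≤ N * (16 * τ) := hzsum
        _ = 1 / 4 * N * (64 * τ) := by ring
    have h5 : N ≤ 2 / 3 * N + 1 / 4 * N := h1.trans (add_le_add h3 h4)
    linarith
  have hzn : 0 ≤ (P *ᵥ sv G₂ q σ) ⬝ᵥ (P *ᵥ sv G₂ q σ) := by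
    have h := dotProduct_star_self_nonneg (P *ᵥ sv G₂ q σ)
    simpa using h
  have hbs : 0 ≤ ∑ v ∈ G₂, bad σ v := Finset.sum_nonneg fun v _ => hbad_nn σ v
  have hbadlt : ∑ v ∈ G₂, bad σ v < 3 * j := by
    have h1 : 0 ≤ ((P *ᵥ sv G₂ q σ) ⬝ᵥ (P *ᵥ sv G₂ q σ)) / (64 * τ) := by positivity
    have h2 : (∑ v ∈ G₂, bad σ v) / (3 * j) < 1 := by linarith
    rwa [div_lt_one (by positivity)] at h2
  have hzlt : (P *ᵥ sv G₂ q σ) ⬝ᵥ (P *ᵥ sv G₂ q σ) < 64 * τ := by
    have h1 : 0 ≤ (∑ v ∈ G₂, bad σ v) / (3 * j) := by positivity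
    have h2 : ((P *ᵥ sv G₂ q σ) ⬝ᵥ (P *ᵥ sv G₂ q σ)) / (64 * τ) < 1 := by linarith
    rwa [div_lt_one (by positivity)] at h2
  set Good : Finset ι := G₂.filter (fun v => ¬ (Z σ v ^ 2 < β v)) with hGood
  have hGoodcard : j ≤ Good.card := by
    have h1 : (∑ v ∈ G₂, bad σ v) = ((G₂.filter (fun v => Z σ v ^ 2 < β v)).card : ℝ) := by
      simp only [hbad]
      rw [Finset.sum_ite, Finset.sum_const_zero, add_zero, Finset.sum_const, nsmul_eq_mul,
        mul_one]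
    have h2 : (G₂.filter (fun v => Z σ v ^ 2 < β v)).card + Good.card = G₂.card :=
      Finset.card_filter_add_card_filter_not _
    have h3 : ((G₂.filter (fun v => Z σ v ^ 2 < β v)).card : ℝ) < 3 * j := by
      rw [← h1]; exact hbadlt
    have h4 : (G₂.filter (fun v => Z σ v ^ 2 < β v)).card < 3 * j := by exact_mod_cast h3
    omega
  refine ⟨Z σ, hPP _, ?_, G₁ ∪ Good, ?_, ?_⟩
  · have hy : (P *ᵥ sv G₁ q (s σ)) ⬝ᵥ (P *ᵥ sv G₁ q (s σ)) ≤ 256 * τ := by
      refine (nsq_le P hs hi _).trans ?_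
      rw [sv_nsq]
      exact hqG
    have h1 : Z σ = P *ᵥ sv G₂ q σ + P *ᵥ sv G₁ q (s σ) := by
      simp only [hZ]
      rw [Matrix.mulVec_add]
    rw [h1]
    set a := P *ᵥ sv G₂ q σ with ha
    set b := P *ᵥ sv G₁ q (s σ) with hb
    have h2 := dotProduct_star_self_nonneg ((2 : ℝ) • a - b)
    simp only [star_trivial, sub_dotProduct, dotProduct_sub, smul_dotProduct, dotProduct_smul,
      smul_eq_mul] at h2
    rw [add_dotProduct, dotProduct_add, dotProduct_add]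
    rw [dotProduct_comm b a] at h2 ⊢
    linarith
  · rw [Finset.card_union_of_disjoint]
    · omega
    · rw [Finset.disjoint_left]
      intro v hv1 hv2
      have h1 : 1 / 16 ≤ P v v := (Finset.mem_filter.1 hv1).2
      have h2 := (hG₂ v (Finset.mem_filter.1 hv2).1).1
      linarith
  · intro v hv
    rcases Finset.mem_union.1 hv with hv | hv
    · exact good_of_opt P hs hi G₁ β hβ (sv G₂ q σ) (s σ) (hopt σ) hv
        (lt_of_lt_of_le (by norm_num) (Finset.mem_filter.1 hv).2)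
    · exact not_lt.1 (Finset.mem_filter.1 hv).2

end

end Pool.Agent.Helper6.Helly
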