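import Mathlib
import Pool.Agent.Helper6.Helly.Selection
import Pool.Agent.Helper6.Helly.DOpt

/-!
Core theorem for symmetric families (MP_882a21_co): at most `2 d` members of a symmetric spanning
set `A` cut out a set of radius at most `√(1154 d tr X)`, where the ellipsoid of `X` lies in the
polar of `A`.
-/

set_option autoImplicit false

namespace Pool.Agent.Helper6.Helly

open scoped BigOperators Matrix

theorem core {d : ℕ} (A : Finset (Fin d → ℝ)) (hsym : ∀ p ∈ A, -p ∈ A)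
    (hspan : Submodule.span ℝ (A : Set (Fin d → ℝ)) = ⊤) :
    ∃ X : Matrix (Fin d) (Fin d) ℝ, X.PosDef ∧ (∀ p ∈ A, p ⬝ᵥ X *ᵥ p ≤ 1) ∧
      ∃ S ⊆ A, S.card ≤ 2 * d ∧ ∀ x : Fin d → ℝ, (∀ p ∈ S, p ⬝ᵥ x ≤ 1) →
        x ⬝ᵥ x ≤ 1154 * d * X.trace := by
  classical
  obtain ⟨n, hn1, hn2, t, htA, hPD, hlev, hadd⟩ := dopt A hspan
  set M := gm t with hM
  have hunit : IsUnit M.det := hPD.det_pos.ne'.isUnit
  set X := M⁻¹ with hX
  have hXPD : X.PosDef := hPD.inv
  have hXs : Xᵀ = X := by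
    have := hXPD.isHermitian
    simpa [Matrix.IsHermitian, Matrix.conjTranspose_eq_transpose_of_trivial] using this
  set G : Matrix (Fin n) (Fin d) ℝ := Matrix.of t with hG
  have hGG : Gᵀ * G = M := rfl
  have hXM : X * M = 1 := Matrix.nonsing_inv_mul _ hunit
  have hMX : M * X = 1 := Matrix.mul_nonsing_inv _ hunit
  set Q : Matrix (Fin n) (Fin n) ℝ := G * X * Gᵀ with hQ
  have hQs : Qᵀ = Q := by
    rw [hQ, Matrix.transpose_mul, Matrix.transpose_mul, Matrix.transpose_transpose, hXs,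
      Matrix.mul_assoc]
  have hQi : Q * Q = Q := by
    calc Q * Q = G * X * (Gᵀ * G) * X * Gᵀ := by simp only [hQ, Matrix.mul_assoc]
      _ = G * (X * M) * X * Gᵀ := by rw [hGG]; simp only [Matrix.mul_assoc]
      _ = Q := by rw [hXM, Matrix.mul_one]
  set P : Matrix (Fin n) (Fin n) ℝ := 1 - Q with hP
  have hPs : Pᵀ = P := by rw [hP, Matrix.transpose_sub, Matrix.transpose_one, hQs]
  have hPi : P * P = P := by
    rw [hP, Matrix.sub_mul, Matrix.mul_sub, Matrix.mul_sub, Matrix.one_mul, Matrix.mul_one,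
      hQi]
    simp
  have hQdiag : ∀ i, Q i i = t i ⬝ᵥ X *ᵥ t i := by
    intro i
    rw [hQ, Matrix.mul_assoc, Matrix.mul_apply, dotProduct]
    refine Finset.sum_congr rfl fun a _ => ?_
    rw [Matrix.mul_apply, Matrix.mulVec, dotProduct]
    rfl
  have hPdiag : ∀ i, P i i ≤ 1 / 2 := by
    intro i
    rw [hP, Matrix.sub_apply, Matrix.one_apply_eq, hQdiag]
    linarith [hlev i]
  have hPtr : P.trace = ((n - d : ℕ) : ℝ) := by
    rw [hP, Matrix.trace_sub, Matrix.trace_one, hQ, Matrix.trace_mul_comm, ← Matrix.mul_assoc,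
      hGG, hMX, Matrix.trace_one, Fintype.card_fin, Fintype.card_fin, Nat.cast_sub hn1]
  set β : Fin n → ℝ := fun i => (X *ᵥ t i) ⬝ᵥ (X *ᵥ t i) with hβ
  have hβ0 : ∀ i, 0 ≤ β i := by
    intro i
    have h := dotProduct_star_self_nonneg (X *ᵥ t i)
    simpa using h
  have hβsum : ∑ i, β i = X.trace := by
    have h1 : ∑ i, β i = (G * (X * X) * Gᵀ).trace := by
      rw [Matrix.trace]
      refine Finset.sum_congr rfl fun i _ => ?_
      rw [Matrix.diag_apply, Matrix.mul_assoc, Matrix.mul_apply]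
      have h2 : β i = t i ⬝ᵥ (X * X) *ᵥ t i := by
        simp only [hβ]
        rw [← Matrix.mulVec_mulVec, Matrix.dotProduct_mulVec (t i), ← Matrix.mulVec_transpose,
          hXs]
      rw [h2, dotProduct]
      refine Finset.sum_congr rfl fun a _ => ?_
      rw [Matrix.mul_apply, Matrix.mulVec, dotProduct]
      rfl
    rw [h1, Matrix.trace_mul_comm, ← Matrix.mul_assoc, hGG, ← Matrix.mul_assoc, hMX,
      Matrix.one_mul]
  obtain ⟨Z, hPZ, hZn, B, hBcard, hB⟩ := selection P hPs hPi hPdiag (n - d) hPtr β hβ0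
  rw [hβsum] at hZn
  set τ := X.trace with hτ
  have hτ0 : 0 ≤ τ := by rw [← hβsum]; exact Finset.sum_nonneg fun i _ => hβ0 i
  have hGZ : Gᵀ *ᵥ Z = 0 := by
    have h1 : Q *ᵥ Z = 0 := by
      have h2 : P *ᵥ Z = Z - Q *ᵥ Z := by rw [hP, Matrix.sub_mulVec, Matrix.one_mulVec]
      rw [h2] at hPZ
      exact sub_eq_self.1 hPZ
    have h3 : Gᵀ *ᵥ (Q *ᵥ Z) = Gᵀ *ᵥ Z := by
      rw [Matrix.mulVec_mulVec, hQ, ← Matrix.mul_assoc, ← Matrix.mul_assoc, hGG, hMX,
        Matrix.one_mul]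
    rw [← h3, h1, Matrix.mulVec_zero]
  -- the selected members
  set Si : Fin n → Finset (Fin d → ℝ) := fun i =>
    if i ∈ B then {if 0 ≤ Z i then t i else -t i} else {t i, -t i} with hSi
  refine ⟨X, hXPD, hadd, Finset.univ.biUnion Si, ?_, ?_, ?_⟩
  · intro p hp
    obtain ⟨i, _, hi⟩ := Finset.mem_biUnion.1 hp
    simp only [hSi] at hi
    split_ifs at hi with h1 h2
    · rw [Finset.mem_singleton.1 hi]; exact htA i
    · rw [Finset.mem_singleton.1 hi]; exact hsym _ (htA i)
    · rcases Finset.mem_insert.1 hi with h | h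
      · rw [h]; exact htA i
      · rw [Finset.mem_singleton.1 h]; exact hsym _ (htA i)
  · have h1 : ∀ i, (Si i).card + (if i ∈ B then 1 else 0) ≤ 2 := by
      intro i
      simp only [hSi]
      by_cases h : i ∈ B
      · simp [h]
      · simp only [h, if_false, add_zero]
        exact Finset.card_le_two
    have h2 : (∑ i, ((Si i).card + (if i ∈ B then 1 else 0))) ≤ ∑ i : Fin n, 2 :=
      Finset.sum_le_sum fun i _ => h1 i
    rw [Finset.sum_add_distrib, Finset.sum_ite_mem, Finset.univ_inter, Finset.sum_const,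
      Finset.sum_const, Finset.card_univ, Fintype.card_fin, smul_eq_mul, smul_eq_mul,
      mul_one] at h2
    have h3 : (Finset.univ.biUnion Si).card ≤ ∑ i, (Si i).card := Finset.card_biUnion_le
    omega
  · intro x hx
    set Y : Fin n → ℝ := G *ᵥ x with hY
    set α : Fin n → ℝ := G *ᵥ (X *ᵥ x) with hα
    have hYi : ∀ i, Y i = t i ⬝ᵥ x := fun i => rfl
    have hαi : ∀ i, α i = (X *ᵥ t i) ⬝ᵥ x := by
      intro i
      have h1 : α i = t i ⬝ᵥ (X *ᵥ x) := rfl
      rw [h1, Matrix.dotProduct_mulVec, ← Matrix.mulVec_transpose, hXs]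
    have hdot : ∀ (u : Fin n → ℝ) (v : Fin d → ℝ), u ⬝ᵥ (G *ᵥ v) = (Gᵀ *ᵥ u) ⬝ᵥ v := by
      intro u v
      rw [Matrix.dotProduct_mulVec, Matrix.mulVec_transpose]
    have hxx : x ⬝ᵥ x = α ⬝ᵥ Y := by
      rw [hY, hdot, hα, Matrix.mulVec_mulVec, Matrix.mulVec_mulVec, hGG, hMX,
        Matrix.one_mulVec]
    have hZY : Z ⬝ᵥ Y = 0 := by rw [hY, hdot, hGZ, zero_dotProduct]
    have hZα : Z ⬝ᵥ α = 0 := by rw [hα, hdot, hGZ, zero_dotProduct]
    have hxx0 : 0 ≤ x ⬝ᵥ x := by
      have h := dotProduct_star_self_nonneg x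
      simpa using h
    set L := √(x ⬝ᵥ x) with hL
    have hL0 : 0 ≤ L := Real.sqrt_nonneg _
    have hL2 : L ^ 2 = x ⬝ᵥ x := Real.sq_sqrt hxx0
    have hαβ : ∀ i, α i ^ 2 ≤ β i * L ^ 2 := by
      intro i
      rw [hαi, hL2]
      simp only [hβ, dotProduct, ← sq]
      exact Finset.sum_mul_sq_le_sq_mul_sq _ _ _
    have hterm : ∀ i, (α i + L * Z i) * Y i ≤ |α i + L * Z i| := by
      intro i
      by_cases hiB : i ∈ B
      · have h1 : |α i| ≤ |L * Z i| := by
          apply sq_le_sq.1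
          rw [mul_pow]
          calc α i ^ 2 ≤ β i * L ^ 2 := hαβ i
            _ ≤ Z i ^ 2 * L ^ 2 := mul_le_mul_of_nonneg_right (hB i hiB) (sq_nonneg _)
            _ = L ^ 2 * Z i ^ 2 := by ring
        by_cases hZi : 0 ≤ Z i
        · have h2 : t i ⬝ᵥ x ≤ 1 := by
            apply hx
            refine Finset.mem_biUnion.2 ⟨i, Finset.mem_univ _, ?_⟩
            simp [hSi, hiB, hZi]
          have h3 : 0 ≤ α i + L * Z i := by
            have h4 : 0 ≤ L * Z i := mul_nonneg hL0 hZi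
            rw [abs_of_nonneg h4] at h1
            have := neg_abs_le (α i)
            linarith
          rw [abs_of_nonneg h3, hYi]
          calc _ ≤ (α i + L * Z i) * 1 := mul_le_mul_of_nonneg_left h2 h3
            _ = _ := mul_one _
        · have h2 : (-t i) ⬝ᵥ x ≤ 1 := by
            apply hx
            refine Finset.mem_biUnion.2 ⟨i, Finset.mem_univ _, ?_⟩
            simp [hSi, hiB, hZi]
          rw [neg_dotProduct] at h2
          push Not at hZi
          have h3 : α i + L * Z i ≤ 0 := by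
            have h4 : L * Z i ≤ 0 := mul_nonpos_of_nonneg_of_nonpos hL0 hZi.le
            rw [abs_of_nonpos h4] at h1
            have := le_abs_self (α i)
            linarith
          rw [abs_of_nonpos h3, hYi]
          nlinarith
      · have h2 : t i ⬝ᵥ x ≤ 1 := by
          apply hx
          refine Finset.mem_biUnion.2 ⟨i, Finset.mem_univ _, ?_⟩
          simp [hSi, hiB]
        have h3 : (-t i) ⬝ᵥ x ≤ 1 := by
          apply hx
          refine Finset.mem_biUnion.2 ⟨i, Finset.mem_univ _, ?_⟩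
          simp [hSi, hiB]
        rw [neg_dotProduct] at h3
        have h4 : |Y i| ≤ 1 := by
          rw [hYi, abs_le]
          constructor <;> linarith
        calc (α i + L * Z i) * Y i ≤ |(α i + L * Z i) * Y i| := le_abs_self _
          _ = |α i + L * Z i| * |Y i| := abs_mul _ _
          _ ≤ |α i + L * Z i| * 1 := mul_le_mul_of_nonneg_left h4 (abs_nonneg _)
          _ = _ := mul_one _
    have h1 : L ^ 2 ≤ ∑ i, |α i + L * Z i| := by
      calc L ^ 2 = ∑ i, (α i + L * Z i) * Y i := by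
            have h2 : ∑ i, (α i + L * Z i) * Y i = α ⬝ᵥ Y + L * (Z ⬝ᵥ Y) := by
              simp only [dotProduct, Finset.mul_sum, ← Finset.sum_add_distrib]
              refine Finset.sum_congr rfl fun i _ => ?_
              ring
            rw [h2, hZY, mul_zero, add_zero, ← hxx, hL2]
        _ ≤ _ := Finset.sum_le_sum fun i _ => hterm i
    have h2 : (∑ i, |α i + L * Z i|) ^ 2 ≤ n * ∑ i, (α i + L * Z i) ^ 2 := by
      have h3 := Finset.sum_mul_sq_le_sq_mul_sq (Finset.univ : Finset (Fin n)) (fun _ => (1 : ℝ))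
        (fun i => |α i + L * Z i|)
      simpa [sq_abs] using h3
    have h3 : ∑ i, (α i + L * Z i) ^ 2 ≤ 577 * τ * L ^ 2 := by
      have h4 : ∑ i, (α i + L * Z i) ^ 2 = ∑ i, α i ^ 2 + 2 * L * (Z ⬝ᵥ α) +
          L ^ 2 * (Z ⬝ᵥ Z) := by
        simp only [dotProduct, Finset.mul_sum, ← Finset.sum_add_distrib]
        refine Finset.sum_congr rfl fun i _ => ?_
        ring
      have h5 : ∑ i, α i ^ 2 ≤ τ * L ^ 2 := by
        rw [← hβsum, Finset.sum_mul]
        exact Finset.sum_le_sum fun i _ => hαβ i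
      have h6 : L ^ 2 * (Z ⬝ᵥ Z) ≤ L ^ 2 * (576 * τ) :=
        mul_le_mul_of_nonneg_left hZn (sq_nonneg _)
      rw [h4, hZα, mul_zero, add_zero]
      linarith
    have h4 : (L ^ 2) ^ 2 ≤ n * (577 * τ * L ^ 2) := by
      calc (L ^ 2) ^ 2 ≤ (∑ i, |α i + L * Z i|) ^ 2 := pow_le_pow_left₀ (sq_nonneg _) h1 2
        _ ≤ n * ∑ i, (α i + L * Z i) ^ 2 := h2
        _ ≤ _ := mul_le_mul_of_nonneg_left h3 (Nat.cast_nonneg _)
    have h5 : (n : ℝ) ≤ 2 * d := by exact_mod_cast hn2
    have h6 : (n : ℝ) * (577 * τ) ≤ 1154 * d * τ := by nlinarith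
    rw [← hL2]
    rcases (sq_nonneg L).eq_or_lt with h7 | h7
    · rw [← h7]; positivity
    · have h8 : L ^ 2 * L ^ 2 ≤ (n * (577 * τ)) * L ^ 2 := by
        calc _ = (L ^ 2) ^ 2 := by ring
          _ ≤ _ := h4
          _ = _ := by ring
      have h9 := le_of_mul_le_mul_right h8 h7
      linarith

end Pool.Agent.Helper6.Helly
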