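import Mathlib
import Pool.Agent.Helper6.Helly.Core

/-!
The core theorem in Euclidean space, with the ellipsoid given by its semi-axes.
-/

set_option autoImplicit false

namespace Pool.Agent.Helper6.Helly

open scoped BigOperators Matrix RealInnerProductSpace

lemma inner_eq_dot {d : ℕ} (x y : EuclideanSpace ℝ (Fin d)) : ⟪x, y⟫ = x.ofLp ⬝ᵥ y.ofLp := by
  rw [EuclideanSpace.inner_eq_star_dotProduct, star_trivial, dotProduct_comm]

/-- Semi-axes of the ellipsoid of a positive definite matrix. -/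
lemma exists_axes {d : ℕ} (X : Matrix (Fin d) (Fin d) ℝ) (hX : X.PosDef) :
    ∃ c : Fin d → EuclideanSpace ℝ (Fin d), (∀ i j, i ≠ j → ⟪c i, c j⟫ = 0) ∧
      (∀ p : EuclideanSpace ℝ (Fin d), ∑ j, ⟪p, c j⟫ ^ 2 = p.ofLp ⬝ᵥ X *ᵥ p.ofLp) ∧
      ∑ j, ‖c j‖ ^ 2 = X.trace := by
  have hH := hX.isHermitian
  have hnn : ∀ j, 0 ≤ hH.eigenvalues j := fun j => hX.posSemidef.eigenvalues_nonneg j
  refine ⟨fun j => √(hH.eigenvalues j) • hH.eigenvectorBasis j, ?_, ?_, ?_⟩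
  · intro i j hij
    rw [inner_smul_left, inner_smul_right, hH.eigenvectorBasis.orthonormal.2 hij]
    simp
  · intro p
    have h1 : ∀ j, ⟪p, √(hH.eigenvalues j) • hH.eigenvectorBasis j⟫ ^ 2 =
        hH.eigenvalues j * (⟪p, hH.eigenvectorBasis j⟫ * ⟪hH.eigenvectorBasis j, p⟫) := by
      intro j
      rw [inner_smul_right, mul_pow, Real.sq_sqrt (hnn j),
        real_inner_comm p (hH.eigenvectorBasis j)]
      ring
    simp only [h1]
    have h2 : (WithLp.toLp 2 (X *ᵥ p.ofLp) : EuclideanSpace ℝ (Fin d)) =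
        ∑ j, ⟪hH.eigenvectorBasis j, p⟫ • (hH.eigenvalues j • hH.eigenvectorBasis j) := by
      have h3 : p = ∑ j, ⟪hH.eigenvectorBasis j, p⟫ • hH.eigenvectorBasis j :=
        (hH.eigenvectorBasis.sum_repr' p).symm
      have h4 : ∀ q : EuclideanSpace ℝ (Fin d), (WithLp.toLp 2 (X *ᵥ q.ofLp) :
          EuclideanSpace ℝ (Fin d)) = Matrix.toEuclideanLin X q := by
        intro q; rfl
      rw [h4]
      conv_lhs => rw [h3]
      rw [map_sum]
      refine Finset.sum_congr rfl fun j _ => ?_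
      rw [map_smul, ← h4, hH.mulVec_eigenvectorBasis]
      rfl
    have h5 : p.ofLp ⬝ᵥ X *ᵥ p.ofLp =
        ⟪p, (WithLp.toLp 2 (X *ᵥ p.ofLp) : EuclideanSpace ℝ (Fin d))⟫ := by
      rw [inner_eq_dot]
    rw [h5, h2, inner_sum]
    refine Finset.sum_congr rfl fun j _ => ?_
    rw [inner_smul_right, inner_smul_right]
    ring
  · rw [hH.trace_eq_sum_eigenvalues]
    refine Finset.sum_congr rfl fun j _ => ?_
    rw [norm_smul, hH.eigenvectorBasis.orthonormal.1 j, mul_one, Real.norm_eq_abs, sq_abs,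
      Real.sq_sqrt (hnn j)]
    rfl

theorem coreE {d : ℕ} (A : Finset (EuclideanSpace ℝ (Fin d))) (hsym : ∀ p ∈ A, -p ∈ A)
    (hspan : ∀ x : EuclideanSpace ℝ (Fin d), (∀ p ∈ A, ⟪p, x⟫ = 0) → x = 0) :
    ∃ c : Fin d → EuclideanSpace ℝ (Fin d), (∀ i j, i ≠ j → ⟪c i, c j⟫ = 0) ∧
      (∀ p ∈ A, ∑ j, ⟪p, c j⟫ ^ 2 ≤ 1) ∧
      ∃ S ⊆ A, S.card ≤ 2 * d ∧ ∀ x : EuclideanSpace ℝ (Fin d), (∀ p ∈ S, ⟪p, x⟫ ≤ 1) →
        ‖x‖ ^ 2 ≤ 1154 * d * ∑ j, ‖c j‖ ^ 2 := by
  classical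
  set A' : Finset (Fin d → ℝ) := A.image (fun p => p.ofLp) with hA'
  have hspan' : Submodule.span ℝ (A' : Set (Fin d → ℝ)) = ⊤ := by
    have h1 : Submodule.span ℝ (A : Set (EuclideanSpace ℝ (Fin d))) = ⊤ := by
      rw [← Submodule.orthogonal_eq_bot_iff, Submodule.eq_bot_iff]
      intro x hx
      apply hspan
      intro p hp
      exact (Submodule.mem_orthogonal _ _).1 hx p (Submodule.subset_span hp)
    have h2 : (A' : Set (Fin d → ℝ)) =
        (WithLp.linearEquiv 2 ℝ (Fin d → ℝ)) '' (A : Set (EuclideanSpace ℝ (Fin d))) := by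
      rw [hA', Finset.coe_image]
      rfl
    have h3 := Submodule.span_image (R := ℝ) (s := (A : Set (EuclideanSpace ℝ (Fin d))))
      (WithLp.linearEquiv 2 ℝ (Fin d → ℝ)).toLinearMap
    rw [h2]
    refine h3.trans ?_
    rw [h1, Submodule.map_top]
    exact LinearEquiv.range _
  obtain ⟨X, hX, hXA, S, hSA, hScard, hS⟩ := core A' (by
    intro p hp
    obtain ⟨q, hq, rfl⟩ := Finset.mem_image.1 hp
    exact Finset.mem_image.2 ⟨-q, hsym q hq, rfl⟩) hspan'
  obtain ⟨c, hc1, hc2, hc3⟩ := exists_axes X hX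
  refine ⟨c, hc1, ?_, A.filter (fun p => p.ofLp ∈ S), Finset.filter_subset _ _, ?_, ?_⟩
  · intro p hp
    rw [hc2]
    exact hXA _ (Finset.mem_image_of_mem _ hp)
  · refine le_trans ?_ hScard
    apply Finset.card_le_card_of_injOn (fun p => p.ofLp)
    · intro p hp
      exact (Finset.mem_filter.1 hp).2
    · intro p _ q _ h
      exact (WithLp.linearEquiv 2 ℝ (Fin d → ℝ)).injective h
  · intro x hx
    have h1 := hS x.ofLp (by
      intro p hp
      obtain ⟨q, hq, rfl⟩ := Finset.mem_image.1 (hSA hp)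
      have := hx q (Finset.mem_filter.2 ⟨hq, hp⟩)
      rwa [inner_eq_dot] at this)
    rw [← inner_eq_dot, real_inner_self_eq_norm_sq] at h1
    rw [hc3]
    exact h1

end Pool.Agent.Helper6.Helly
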