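import Mathlib
import Pool.Agent.Helper6.Helly.DOpt

/-!
D-optimal multisets with a general penalty `α ≥ 2` (used for MP_882a21_co).
-/

set_option autoImplicit false

namespace Pool.Agent.Helper6.Helly

open scoped BigOperators Matrix

theorem doptQ {d : ℕ} (A : Finset (Fin d → ℝ))
    (hspan : Submodule.span ℝ (A : Set (Fin d → ℝ)) = ⊤) (α : ℝ) (hα : 2 ≤ α) :
    ∃ n : ℕ, d ≤ n ∧ (n : ℝ) * (1 - 1 / α) ≤ d ∧ ∃ t : Fin n → Fin d → ℝ, (∀ i, t i ∈ A) ∧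
      (gm t).PosDef ∧ (∀ i, 1 - 1 / α ≤ t i ⬝ᵥ (gm t)⁻¹ *ᵥ t i) ∧
      (∀ i, t i ⬝ᵥ (gm t)⁻¹ *ᵥ t i ≤ 1) ∧
      ∀ a ∈ A, a ⬝ᵥ (gm t)⁻¹ *ᵥ a ≤ α - 1 := by
  classical
  have hα0 : 0 < α := by linarith
  set q : ℝ := 1 / α with hq
  have hq0 : 0 < q := by positivity
  have hq1 : q ≤ 1 / 2 := by
    rw [hq]
    exact one_div_le_one_div_of_le (by norm_num) hα
  have hqα : q * α = 1 := by rw [hq]; field_simp
  let τ := Σ n : Fin (2 * d + 2), (Fin n → A)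
  have : Nonempty τ := ⟨⟨⟨0, by omega⟩, fun i => i.elim0⟩⟩
  let f : τ → ℝ := fun p => q ^ (p.1 : ℕ) * (gm (fun i => (p.2 i : Fin d → ℝ))).det
  obtain ⟨⟨n, t⟩, hmax⟩ := Finite.exists_max f
  have hpos : 0 < f ⟨n, t⟩ := by
    obtain ⟨t₀, ht₀A, ht₀⟩ := exists_basis A hspan
    refine lt_of_lt_of_le ?_ (hmax ⟨⟨d, by omega⟩, fun i => ⟨t₀ i, ht₀A i⟩⟩)
    exact mul_pos (by positivity) ht₀
  obtain ⟨n, hn⟩ := n
  set T : Fin n → Fin d → ℝ := fun i => (t i : Fin d → ℝ) with hT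
  have hdet : 0 < (gm T).det := by
    have h1 : 0 < q ^ n * (gm T).det := hpos
    exact (mul_pos_iff_of_pos_left (by positivity)).1 h1
  have hunit : IsUnit (gm T).det := hdet.ne'.isUnit
  have hPD : (gm T).PosDef := (gm_posSemidef T).posDef_iff_det_ne_zero.2 hdet.ne'
  -- removal
  have hlev : ∀ i, 1 - q ≤ T i ⬝ᵥ (gm T)⁻¹ *ᵥ T i := by
    intro i
    obtain ⟨m, rfl⟩ : ∃ m, n = m + 1 := ⟨n - 1, by have := i.2; omega⟩
    have h1 := hmax ⟨⟨m, by omega⟩, fun j => t (i.succAbove j)⟩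
    have h2 : q ^ m * (gm (fun j => T (i.succAbove j))).det ≤
        q ^ (m + 1) * (gm T).det := h1
    rw [gm_succAbove, det_add_rank_one _ hunit, pow_succ] at h2
    have h3 : (0 : ℝ) < q ^ m := by positivity
    have h4 : (gm T).det * (1 + -1 * (T i ⬝ᵥ (gm T)⁻¹ *ᵥ T i)) ≤ (gm T).det * q := by
      have : q ^ m * ((gm T).det * (1 + -1 * (T i ⬝ᵥ (gm T)⁻¹ *ᵥ T i))) ≤
          q ^ m * ((gm T).det * q) := by
        calc _ ≤ _ := h2
          _ = _ := by ring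
      exact le_of_mul_le_mul_left this h3
    have h5 := le_of_mul_le_mul_left h4 hdet
    linarith
  have hlev1 : ∀ i, T i ⬝ᵥ (gm T)⁻¹ *ᵥ T i ≤ 1 := by
    intro i
    obtain ⟨m, rfl⟩ : ∃ m, n = m + 1 := ⟨n - 1, by have := i.2; omega⟩
    have h1 : 0 ≤ (gm (fun j => T (i.succAbove j))).det :=
      (gm_posSemidef _).det_nonneg
    rw [gm_succAbove, det_add_rank_one _ hunit] at h1
    have h2 := nonneg_of_mul_nonneg_right h1 hdet
    linarith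
  -- the leverages sum to `d`
  have hsum : ∑ i, T i ⬝ᵥ (gm T)⁻¹ *ᵥ T i = d := by
    have h1 : ∑ i, T i ⬝ᵥ (gm T)⁻¹ *ᵥ T i =
        (Matrix.of T * (gm T)⁻¹ * (Matrix.of T)ᵀ).trace := by
      rw [Matrix.trace]
      refine Finset.sum_congr rfl fun i _ => ?_
      rw [Matrix.diag_apply, Matrix.mul_assoc, Matrix.mul_apply, dotProduct]
      refine Finset.sum_congr rfl fun a _ => ?_
      rw [Matrix.mul_apply, Matrix.mulVec, dotProduct]
      rfl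
    rw [h1, Matrix.trace_mul_comm, ← Matrix.mul_assoc]
    have h2 : (Matrix.of T)ᵀ * Matrix.of T * (gm T)⁻¹ = 1 := Matrix.mul_nonsing_inv _ hunit
    rw [h2, Matrix.trace_one]
    simp
  have hnq : (n : ℝ) * (1 - q) ≤ d := by
    have h1 : ∑ i : Fin n, (1 - q) ≤ ∑ i, T i ⬝ᵥ (gm T)⁻¹ *ᵥ T i :=
      Finset.sum_le_sum fun i _ => hlev i
    rw [hsum, Finset.sum_const, Finset.card_univ, Fintype.card_fin, nsmul_eq_mul] at h1
    exact h1
  have hn2 : n ≤ 2 * d := by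
    have h0 : (0 : ℝ) ≤ n := Nat.cast_nonneg n
    have h2 : (n : ℝ) ≤ 2 * d := by nlinarith
    exact_mod_cast h2
  -- addition
  have hadd : ∀ a ∈ A, a ⬝ᵥ (gm T)⁻¹ *ᵥ a ≤ α - 1 := by
    intro a ha
    have h1 := hmax ⟨⟨n + 1, by omega⟩, Fin.cons ⟨a, ha⟩ t⟩
    have hc : (fun i : Fin (n + 1) => ((Fin.cons (⟨a, ha⟩ : A) t : Fin (n + 1) → A) i :
        Fin d → ℝ)) = Fin.cons a T := by
      funext i
      refine Fin.cases ?_ (fun j => ?_) i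
      · simp
      · simp [hT]
    have h2 : q ^ (n + 1) * (gm (fun i : Fin (n + 1) =>
        ((Fin.cons (⟨a, ha⟩ : A) t : Fin (n + 1) → A) i : Fin d → ℝ))).det ≤
        q ^ n * (gm T).det := h1
    rw [hc, gm_cons, det_add_rank_one _ hunit, pow_succ] at h2
    have h3 : (0 : ℝ) < q ^ n := by positivity
    have h4 : (gm T).det * (q * (1 + 1 * (a ⬝ᵥ (gm T)⁻¹ *ᵥ a))) ≤ (gm T).det * 1 := by
      have : q ^ n * ((gm T).det * (q * (1 + 1 * (a ⬝ᵥ (gm T)⁻¹ *ᵥ a)))) ≤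
          q ^ n * ((gm T).det * 1) := by
        calc _ = _ := by ring
          _ ≤ _ := h2
          _ = _ := by ring
      exact le_of_mul_le_mul_left this h3
    have h5 := le_of_mul_le_mul_left h4 hdet
    have h6 : q * (1 + 1 * (a ⬝ᵥ (gm T)⁻¹ *ᵥ a)) ≤ q * α := by rw [hqα]; exact h5
    have h7 := le_of_mul_le_mul_left h6 hq0
    linarith
  have hn1 : d ≤ n := by
    have h1 : ∑ i, T i ⬝ᵥ (gm T)⁻¹ *ᵥ T i ≤ ∑ i : Fin n, (1 : ℝ) :=
      Finset.sum_le_sum fun i _ => hlev1 i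
    rw [hsum, Finset.sum_const, Finset.card_univ, Fintype.card_fin, nsmul_eq_mul, mul_one] at h1
    exact_mod_cast h1
  exact ⟨n, hn1, hnq, T, fun i => (t i).2, hPD, hlev, hlev1, hadd⟩

end Pool.Agent.Helper6.Helly
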