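import Mathlib
import Pool.Agent.Helper6.Helly.CoreE
import Pool.Agent.Helper59.QH.Reduction

/-!
From the core theorem to families of convex sets closed under negation (MP_882a21_co).
-/

set_option autoImplicit false

namespace Pool.Agent.Helper6.Helly

open scoped BigOperators RealInnerProductSpace Topology

/-- Abbreviation. -/
abbrev Eu (d : ℕ) := EuclideanSpace ℝ (Fin d)

/-- The reflected set. -/
def ngt {d : ℕ} (K : Set (Eu d)) : Set (Eu d) := {x | -x ∈ K}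

lemma ngt_ngt {d : ℕ} (K : Set (Eu d)) : ngt (ngt K) = K := by
  ext x; simp [ngt]

/-- One approximation step. -/
theorem approx_step {d : ℕ} (hd : 0 < d) (F : Finset (Set (Eu d))) (hne : F.Nonempty)
    (hneg : ∀ K ∈ F, ngt K ∈ F)
    (K' : Set (Eu d) → Set (Eu d))
    (hcomp : ∀ K, IsCompact (K' K)) (hconv : ∀ K, Convex ℝ (K' K))
    (hK'neg : ∀ K, ∀ z ∈ K' K, -z ∈ K' (ngt K))
    (h0 : (0 : Eu d) ∈ ⋂ K ∈ F, K' K) (c0 : ℝ) (hc0 : 0 ≤ c0) (hc01 : c0 ≤ 1)
    (hseg : ∀ G ⊆ F, G.Nonempty → G.card ≤ 2 * d → ∃ p q : Eu d,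
      (∀ K ∈ G, p ∈ K' K) ∧ (∀ K ∈ G, q ∈ K' K) ∧ c0 < dist p q)
    (η : ℝ) (hη : 0 < η) :
    ∃ c : Fin d → Eu d, (∀ i j, i ≠ j → ⟪c i, c j⟫ = 0) ∧
      (∀ u : Fin d → ℝ, ∑ j, u j ^ 2 ≤ 1 →
        Metric.infDist (∑ j, u j • c j) (⋂ K ∈ F, K' K) < η) ∧
      c0 ^ 2 ≤ 4616 * d * ∑ j, ‖c j‖ ^ 2 := by
  classical
  set M : Set (Eu d) := ⋂ K ∈ F, K' K with hM
  obtain ⟨n, a, b, κ, h1, h2⟩ := Pool.Agent.Helper59.QH.approx F hne K' hcomp hconv ⟨0, h0⟩ η hη
  have hb : ∀ i, 0 < b i := by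
    intro i
    have := (h1 i).2 0 (Set.mem_iInter₂.1 h0 _ (h1 i).1)
    simpa using this
  obtain ⟨K0, hK0⟩ := hne
  have hMsub : M ⊆ K' K0 := Set.biInter_subset_of_mem hK0
  have hMbdd : Bornology.IsBounded M := (hcomp K0).isBounded.subset hMsub
  obtain ⟨R, hR⟩ := hMbdd.subset_closedBall 0
  set A : Finset (Eu d) := Finset.univ.image (fun i => (b i)⁻¹ • a i) ∪
    Finset.univ.image (fun i => -((b i)⁻¹ • a i)) with hA
  have hAsym : ∀ p ∈ A, -p ∈ A := by
    intro p hp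
    rcases Finset.mem_union.1 hp with h | h
    · obtain ⟨i, _, rfl⟩ := Finset.mem_image.1 h
      exact Finset.mem_union_right _ (Finset.mem_image.2 ⟨i, Finset.mem_univ _, rfl⟩)
    · obtain ⟨i, _, rfl⟩ := Finset.mem_image.1 h
      exact Finset.mem_union_left _ (Finset.mem_image.2 ⟨i, Finset.mem_univ _, by simp⟩)
  have hAi : ∀ i, (b i)⁻¹ • a i ∈ A := fun i =>
    Finset.mem_union_left _ (Finset.mem_image.2 ⟨i, Finset.mem_univ _, rfl⟩)
  have hpoly : ∀ z : Eu d, (∀ p ∈ A, ⟪p, z⟫ ≤ 1) → Metric.infDist z M < η := by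
    intro z hz
    apply h2
    intro i
    have h3 := hz _ (hAi i)
    rw [real_inner_smul_left, inv_mul_le_iff₀ (hb i), mul_one] at h3
    exact h3
  have hAspan : ∀ x : Eu d, (∀ p ∈ A, ⟪p, x⟫ = 0) → x = 0 := by
    intro x hx
    by_contra hne
    have hxn : 0 < ‖x‖ := norm_pos_iff.2 hne
    obtain ⟨s, hs⟩ : ∃ s : ℝ, R + η < s * ‖x‖ := by
      refine ⟨(R + η + 1) / ‖x‖, ?_⟩
      rw [div_mul_cancel₀ _ hxn.ne']
      linarith
    have h3 := hpoly (s • x) (by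
      intro p hp
      rw [real_inner_smul_right, hx p hp]
      simp)
    obtain ⟨y, hy, hyd⟩ := (Metric.infDist_lt_iff ⟨0, h0⟩).1 h3
    have h4 := hR hy
    rw [mem_closedBall_zero_iff] at h4
    have h5 : ‖s • x‖ ≤ ‖s • x - y‖ + ‖y‖ := by
      have := norm_add_le (s • x - y) y
      simpa using this
    rw [dist_eq_norm] at hyd
    rw [norm_smul, Real.norm_eq_abs] at h5
    have h6 : s * ‖x‖ ≤ |s| * ‖x‖ := mul_le_mul_of_nonneg_right (le_abs_self s) hxn.le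
    linarith
  obtain ⟨c, hc1, hc2, S, hSA, hScard, hS⟩ := coreE A hAsym hAspan
  refine ⟨c, hc1, ?_, ?_⟩
  · intro u hu
    apply hpoly
    intro p hp
    have h3 : ⟪p, ∑ j, u j • c j⟫ = ∑ j, u j * ⟪p, c j⟫ := by
      rw [inner_sum]
      refine Finset.sum_congr rfl fun j _ => ?_
      rw [real_inner_smul_right]
    rw [h3]
    have h4 := Finset.sum_mul_sq_le_sq_mul_sq Finset.univ u (fun j => ⟪p, c j⟫)
    have h5 : (∑ j, u j ^ 2) * ∑ j, ⟪p, c j⟫ ^ 2 ≤ 1 := by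
      have h6 : 0 ≤ ∑ j, ⟪p, c j⟫ ^ 2 := Finset.sum_nonneg fun j _ => sq_nonneg _
      calc _ ≤ 1 * 1 := mul_le_mul hu (hc2 p hp) h6 zero_le_one
        _ = 1 := one_mul 1
    have h6 : (∑ j, u j * ⟪p, c j⟫) ^ 2 ≤ 1 ^ 2 := by
      rw [one_pow]; exact h4.trans h5
    exact (abs_le_of_sq_le_sq' h6 zero_le_one).2
  · rcases S.eq_empty_or_nonempty with hSe | hSne
    · have h3 := hS (EuclideanSpace.single (⟨0, hd⟩ : Fin d) (1 : ℝ)) (by
        intro p hp; rw [hSe] at hp; simp at hp)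
      rw [PiLp.norm_single] at h3
      have h4 : c0 ^ 2 ≤ 1 := by nlinarith
      simp only [norm_one, one_pow] at h3
      nlinarith
    · have hκ : ∀ p ∈ A, ∃ K ∈ F, ∀ y ∈ K' K, ⟪p, y⟫ < 1 := by
        intro p hp
        rcases Finset.mem_union.1 hp with h | h
        · obtain ⟨i, _, rfl⟩ := Finset.mem_image.1 h
          refine ⟨κ i, (h1 i).1, ?_⟩
          intro y hy
          rw [real_inner_smul_left, inv_mul_lt_iff₀ (hb i), mul_one]
          exact (h1 i).2 y hy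
        · obtain ⟨i, _, rfl⟩ := Finset.mem_image.1 h
          refine ⟨ngt (κ i), hneg _ (h1 i).1, ?_⟩
          intro y hy
          have hy' : -y ∈ K' (κ i) := by
            have := hK'neg _ y hy
            rwa [ngt_ngt] at this
          rw [inner_neg_left, ← inner_neg_right, real_inner_smul_left, inv_mul_lt_iff₀ (hb i),
            mul_one]
          exact (h1 i).2 _ hy'
      choose! κ' hκ1 hκ2 using hκ
      obtain ⟨p, q, hp, hq, hpq⟩ := hseg (S.image κ') (by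
        intro K hK
        obtain ⟨p, hp, rfl⟩ := Finset.mem_image.1 hK
        exact hκ1 p (hSA hp)) (hSne.image κ') (Finset.card_image_le.trans hScard)
      have h3 := hS p (fun w hw =>
        (hκ2 w (hSA hw) p (hp _ (Finset.mem_image_of_mem κ' hw))).le)
      have h4 := hS q (fun w hw =>
        (hκ2 w (hSA hw) q (hq _ (Finset.mem_image_of_mem κ' hw))).le)
      have h5 : dist p q ^ 2 ≤ 2 * ‖p‖ ^ 2 + 2 * ‖q‖ ^ 2 := by
        rw [dist_eq_norm]
        have h6 := parallelogram_law_with_norm ℝ p q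
        nlinarith [sq_nonneg ‖p + q‖]
      have h6 : c0 ^ 2 ≤ dist p q ^ 2 := pow_le_pow_left₀ hc0 hpq.le 2
      linarith

/-- The ellipsoid theorem for families closed under negation. -/
theorem ellipsoid {d : ℕ} (hd : 0 < d) (F : Finset (Set (Eu d)))
    (hconv : ∀ K ∈ F, Convex ℝ K) (hneg : ∀ K ∈ F, ngt K ∈ F)
    (hF : ∀ G ⊆ F, G.Nonempty → G.card ≤ 2 * d → 1 ≤ Metric.ediam (⋂ K ∈ G, K)) :
    ∃ c : Fin d → Eu d, (∀ i j, i ≠ j → ⟪c i, c j⟫ = 0) ∧
      1 / (5000 * (d : ℝ)) ≤ ∑ j, ‖c j‖ ^ 2 ∧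
      ∀ u : Fin d → ℝ, ∑ j, u j ^ 2 ≤ 1 → ∀ K ∈ F, ∑ j, u j • c j ∈ K := by
  classical
  have hd' : (0 : ℝ) < d := by exact_mod_cast hd
  have hd1 : (1 : ℝ) ≤ d := by exact_mod_cast hd
  rcases F.eq_empty_or_nonempty with rfl | hFne
  · refine ⟨fun j => EuclideanSpace.single j 1, ?_, ?_, ?_⟩
    · intro i j hij
      simp [EuclideanSpace.inner_single_left, Ne.symm hij]
    · simp only [PiLp.norm_single, norm_one, one_pow, Finset.sum_const,
        Finset.card_univ, Fintype.card_fin, nsmul_eq_mul, mul_one]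
      rw [div_le_iff₀ (by positivity)]
      nlinarith
    · intro u _ K hK
      simp at hK
  set c0 : ℝ := 97 / 100 with hc0
  have hseg : ∀ G ⊆ F, G.Nonempty → G.card ≤ 2 * d →
      ∃ p ∈ ⋂ K ∈ G, K, ∃ q ∈ ⋂ K ∈ G, K, c0 < dist p q := by
    intro G hG hGn hGc
    by_contra hno
    push Not at hno
    have h1 : Metric.ediam (⋂ K ∈ G, K) ≤ ENNReal.ofReal c0 := by
      apply Metric.ediam_le
      intro x hx y hy
      rw [edist_dist]
      exact ENNReal.ofReal_le_ofReal (hno x hx y hy)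
    have h2 : ENNReal.ofReal c0 < 1 := by
      rw [← ENNReal.ofReal_one]
      exact (ENNReal.ofReal_lt_ofReal_iff one_pos).2 (by norm_num)
    exact absurd ((hF G hG hGn hGc).trans h1) (not_le.2 h2)
  have hseg' : ∀ G : Finset (Set (Eu d)),
      ∃ p q : Eu d, (G ⊆ F ∧ G.Nonempty ∧ G.card ≤ 2 * d) →
      (p ∈ ⋂ K ∈ G, K) ∧ (q ∈ ⋂ K ∈ G, K) ∧ c0 < dist p q := by
    intro G
    by_cases h : G ⊆ F ∧ G.Nonempty ∧ G.card ≤ 2 * d
    · obtain ⟨p, hp, q, hq, hpq⟩ := hseg G h.1 h.2.1 h.2.2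
      exact ⟨p, q, fun _ => ⟨hp, hq, hpq⟩⟩
    · exact ⟨0, 0, fun h' => absurd h' h⟩
  choose p q hpq using hseg'
  set 𝒢 : Finset (Finset (Set (Eu d))) :=
    F.powerset.filter (fun G => G.Nonempty ∧ G.card ≤ 2 * d) with h𝒢
  have hmem𝒢 : ∀ G, G ∈ 𝒢 ↔ G ⊆ F ∧ G.Nonempty ∧ G.card ≤ 2 * d := by
    intro G
    rw [h𝒢, Finset.mem_filter, Finset.mem_powerset]
  set Sset : Set (Eu d) → Set (Eu d) := fun K =>
    {z | ∃ G ∈ 𝒢, (K ∈ G ∧ (z = p G ∨ z = q G)) ∨ (ngt K ∈ G ∧ (-z = p G ∨ -z = q G))}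
    with hSset
  set K' : Set (Eu d) → Set (Eu d) := fun K => convexHull ℝ (Sset K) with hK'
  have hfin : ∀ K, (Sset K).Finite := by
    intro K
    apply Set.Finite.subset (𝒢.image p ∪ 𝒢.image q ∪ (𝒢.image (fun G => -p G) ∪
      𝒢.image (fun G => -q G))).finite_toSet
    rintro z ⟨G, hG, ⟨_, hz | hz⟩ | ⟨_, hz | hz⟩⟩
    · rw [hz]
      exact Finset.mem_coe.2 (Finset.mem_union_left _ (Finset.mem_union_left _
        (Finset.mem_image_of_mem p hG)))
    · rw [hz]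
      exact Finset.mem_coe.2 (Finset.mem_union_left _ (Finset.mem_union_right _
        (Finset.mem_image_of_mem q hG)))
    · have hz' : z = -p G := by rw [← hz, neg_neg]
      rw [hz']
      exact Finset.mem_coe.2 (Finset.mem_union_right _ (Finset.mem_union_left _
        (Finset.mem_image_of_mem (fun G => -p G) hG)))
    · have hz' : z = -q G := by rw [← hz, neg_neg]
      rw [hz']
      exact Finset.mem_coe.2 (Finset.mem_union_right _ (Finset.mem_union_right _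
        (Finset.mem_image_of_mem (fun G => -q G) hG)))
  have hcomp : ∀ K, IsCompact (K' K) := fun K => (hfin K).isCompact_convexHull (𝕜 := ℝ)
  have hconv' : ∀ K, Convex ℝ (K' K) := fun K => convex_convexHull ℝ _
  have hmemG : ∀ G ⊆ F, G.Nonempty → G.card ≤ 2 * d → ∀ K ∈ G, p G ∈ K' K ∧ q G ∈ K' K := by
    intro G hG hGn hGc K hK
    have hG' : G ∈ 𝒢 := (hmem𝒢 G).2 ⟨hG, hGn, hGc⟩
    exact ⟨subset_convexHull ℝ _ ⟨G, hG', Or.inl ⟨hK, Or.inl rfl⟩⟩,
      subset_convexHull ℝ _ ⟨G, hG', Or.inl ⟨hK, Or.inr rfl⟩⟩⟩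
  have hK'sub : ∀ K ∈ F, K' K ⊆ K := by
    intro K hK
    apply convexHull_min _ (hconv K hK)
    rintro z ⟨G, hG, ⟨hKG, hz⟩ | ⟨hKG, hz⟩⟩
    · have h1 := hpq G ((hmem𝒢 G).1 hG)
      rcases hz with rfl | rfl
      · exact Set.mem_iInter₂.1 h1.1 K hKG
      · exact Set.mem_iInter₂.1 h1.2.1 K hKG
    · have h1 := hpq G ((hmem𝒢 G).1 hG)
      rcases hz with hz | hz
      · have h2 : p G ∈ ngt K := Set.mem_iInter₂.1 h1.1 (ngt K) hKG
        rw [← hz] at h2
        simpa [ngt] using h2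
      · have h2 : q G ∈ ngt K := Set.mem_iInter₂.1 h1.2.1 (ngt K) hKG
        rw [← hz] at h2
        simpa [ngt] using h2
  have hK'neg : ∀ K, ∀ z ∈ K' K, -z ∈ K' (ngt K) := by
    intro K z hz
    have h1 : Convex ℝ {z : Eu d | -z ∈ K' (ngt K)} := by
      intro x hx y hy a b ha hb hab
      have h := (hconv' (ngt K)) (show -x ∈ K' (ngt K) from hx) (show -y ∈ K' (ngt K) from hy)
        ha hb hab
      rw [smul_neg, smul_neg, ← neg_add] at h
      exact h
    have h2 : K' K ⊆ {z : Eu d | -z ∈ K' (ngt K)} := by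
      apply convexHull_min _ h1
      rintro z ⟨G, hG, ⟨hKG, hz⟩ | ⟨hKG, hz⟩⟩
      · apply subset_convexHull ℝ _
        refine ⟨G, hG, Or.inr ⟨?_, ?_⟩⟩
        · rw [ngt_ngt]; exact hKG
        · rwa [neg_neg]
      · apply subset_convexHull ℝ _
        exact ⟨G, hG, Or.inl ⟨hKG, hz⟩⟩
    exact h2 hz
  have hM : (⋂ K ∈ F, K' K).Nonempty := by
    apply Convex.helly_theorem' (𝕜 := ℝ) (fun K _ => hconv' K)
    intro I hI hIc
    rw [finrank_euclideanSpace_fin] at hIc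
    rcases I.eq_empty_or_nonempty with rfl | hIn
    · exact ⟨0, by simp⟩
    · exact ⟨p I, Set.mem_iInter₂.2 (fun K hK => (hmemG I hI hIn (by omega) K hK).1)⟩
  have h0 : (0 : Eu d) ∈ ⋂ K ∈ F, K' K := by
    obtain ⟨x, hx⟩ := hM
    refine Set.mem_iInter₂.2 fun K hK => ?_
    have h1 : x ∈ K' K := Set.mem_iInter₂.1 hx K hK
    have h2 : -x ∈ K' K := by
      have h3 := hK'neg (ngt K) x (Set.mem_iInter₂.1 hx (ngt K) (hneg K hK))
      rwa [ngt_ngt] at h3
    have h3 := (hconv' K) h1 h2 (by norm_num : (0 : ℝ) ≤ 1 / 2) (by norm_num : (0 : ℝ) ≤ 1 / 2)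
      (by norm_num)
    simpa using h3
  set M : Set (Eu d) := ⋂ K ∈ F, K' K with hMdef
  have hMclosed : IsClosed M := isClosed_biInter (fun K _ => (hcomp K).isClosed)
  obtain ⟨K0, hK0⟩ := id hFne
  have hMsub : M ⊆ K' K0 := Set.biInter_subset_of_mem hK0
  have hMbdd : Bornology.IsBounded M := (hcomp K0).isBounded.subset hMsub
  obtain ⟨R, hR⟩ := hMbdd.subset_closedBall 0
  have hR0 : 0 ≤ R := by
    have := hR h0
    rw [mem_closedBall_zero_iff] at this
    simpa using this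
  have hstep : ∀ m : ℕ, ∃ c : Fin d → Eu d, (∀ i j, i ≠ j → ⟪c i, c j⟫ = 0) ∧
      (∀ u : Fin d → ℝ, ∑ j, u j ^ 2 ≤ 1 →
        Metric.infDist (∑ j, u j • c j) M < 1 / ((m : ℝ) + 1)) ∧
      c0 ^ 2 ≤ 4616 * d * ∑ j, ‖c j‖ ^ 2 := by
    intro m
    refine approx_step hd F hFne hneg K' hcomp hconv' hK'neg h0 c0 (by norm_num) (by norm_num)
      ?_ _ (by positivity)
    intro G hG hGn hGc
    have h1 := hmemG G hG hGn hGc
    exact ⟨p G, q G, fun K hK => (h1 K hK).1, fun K hK => (h1 K hK).2,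
      (hpq G ⟨hG, hGn, hGc⟩).2.2⟩
  choose C hC1 hC2 hC3 using hstep
  have hCbdd : ∀ m, C m ∈ Metric.closedBall (0 : Fin d → Eu d) (R + 1) := by
    intro m
    rw [mem_closedBall_zero_iff, pi_norm_le_iff_of_nonneg (by linarith)]
    intro j
    have h1 := hC2 m (Pi.single j 1) (by simp [Pi.single_apply])
    have h2 : ∑ i, (Pi.single j (1 : ℝ) : Fin d → ℝ) i • C m i = C m j := by
      rw [Finset.sum_eq_single j]
      · simp
      · intro i _ hij
        simp [Pi.single_eq_of_ne hij]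
      · intro h; exact absurd (Finset.mem_univ j) h
    rw [h2] at h1
    obtain ⟨y, hy, hyd⟩ := (Metric.infDist_lt_iff ⟨0, h0⟩).1 h1
    have h3 := hR hy
    rw [mem_closedBall_zero_iff] at h3
    have h4 : 1 / ((m : ℝ) + 1) ≤ 1 := by
      rw [div_le_one (by positivity)]
      have : (0 : ℝ) ≤ m := Nat.cast_nonneg m
      linarith
    rw [dist_eq_norm] at hyd
    have h5 := norm_add_le (C m j - y) y
    rw [sub_add_cancel] at h5
    linarith
  obtain ⟨c, _, φ, hφ, hlim⟩ := (isCompact_closedBall (0 : Fin d → Eu d) (R + 1)).tendsto_subseq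
    hCbdd
  have hlimj : ∀ j, Filter.Tendsto (fun m => C (φ m) j) Filter.atTop (𝓝 (c j)) := by
    intro j
    exact (tendsto_pi_nhds.1 hlim) j
  refine ⟨c, ?_, ?_, ?_⟩
  · intro i j hij
    have h1 : Filter.Tendsto (fun m => ⟪C (φ m) i, C (φ m) j⟫) Filter.atTop (𝓝 ⟪c i, c j⟫) :=
      (hlimj i).inner (hlimj j)
    have h2 : (fun m => ⟪C (φ m) i, C (φ m) j⟫) = fun _ => (0 : ℝ) := by
      funext m
      exact hC1 _ i j hij
    rw [h2] at h1
    exact (tendsto_nhds_unique h1 tendsto_const_nhds)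
  · have h1 : Filter.Tendsto (fun m => ∑ j, ‖C (φ m) j‖ ^ 2) Filter.atTop
        (𝓝 (∑ j, ‖c j‖ ^ 2)) := by
      apply tendsto_finsetSum
      intro j _
      exact ((hlimj j).norm).pow 2
    refine ge_of_tendsto' h1 fun m => ?_
    have h2 := hC3 (φ m)
    rw [div_le_iff₀ (by positivity)]
    have h3 : c0 ^ 2 * 5000 ≥ 4616 := by rw [hc0]; norm_num
    nlinarith
  · intro u hu K hK
    have h1 : Filter.Tendsto (fun m => ∑ j, u j • C (φ m) j) Filter.atTop
        (𝓝 (∑ j, u j • c j)) := by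
      apply tendsto_finsetSum
      intro j _
      exact (hlimj j).const_smul (u j)
    have h2 : Filter.Tendsto (fun m => Metric.infDist (∑ j, u j • C (φ m) j) M) Filter.atTop
        (𝓝 (Metric.infDist (∑ j, u j • c j) M)) :=
      ((Metric.continuous_infDist_pt M).tendsto _).comp h1
    have h3 : Filter.Tendsto (fun m : ℕ => 1 / (((φ m : ℕ) : ℝ) + 1)) Filter.atTop (𝓝 0) :=
      tendsto_one_div_add_atTop_nhds_zero_nat.comp hφ.tendsto_atTop
    have h4 : Metric.infDist (∑ j, u j • c j) M ≤ 0 :=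
      le_of_tendsto_of_tendsto' h2 h3 (fun m => (hC2 (φ m) u hu).le)
    have h5 : Metric.infDist (∑ j, u j • c j) M = 0 := le_antisymm h4 Metric.infDist_nonneg
    have h6 : ∑ j, u j • c j ∈ M := (hMclosed.mem_iff_infDist_zero ⟨0, h0⟩).2 h5
    exact hK'sub K hK (Set.mem_iInter₂.1 h6 K hK)

end Pool.Agent.Helper6.Helly
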