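import Mathlib
import Pool.Agent.Helper6.Helly.Families

/-!
The ellipsoid theorem for families of convex sets whose intersection is centrally symmetric with
nonempty interior (MP_882a21_co).
-/

set_option autoImplicit false

namespace Pool.Agent.Helper6.Helly

open scoped BigOperators RealInnerProductSpace Topology

/-- At a point of the boundary touched by an inner ball, some member of the family has the tangent
hyperplane of the ball as a supporting hyperplane. -/
lemma touch {d : ℕ} (F : Finset (Set (Eu d))) (hconv : ∀ K ∈ F, Convex ℝ K)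
    (c x₀ : Eu d) (R : ℝ) (hR : 0 < R) (hball : Metric.ball c R ⊆ interior (⋂ K ∈ F, K))
    (hx₀ : x₀ ∉ interior (⋂ K ∈ F, K)) (hdist : ‖x₀ - c‖ = R) :
    ∃ K ∈ F, ∀ x ∈ K, ⟪x₀ - c, x - x₀⟫ ≤ 0 := by
  have h1 : ∃ K ∈ F, x₀ ∉ interior K := by
    by_contra hcon
    push Not at hcon
    apply hx₀
    rw [mem_interior_iff_mem_nhds]
    apply (Finset.iInter_mem_sets F).2
    intro K hK
    exact mem_interior_iff_mem_nhds.1 (hcon K hK)
  obtain ⟨K, hK, hxK⟩ := h1
  refine ⟨K, hK, ?_⟩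
  obtain ⟨f, hf⟩ := geometric_hahn_banach_open_point (hconv K hK).interior isOpen_interior hxK
  set a : Eu d := (InnerProductSpace.toDual ℝ _).symm f with ha
  have haf : ∀ x, ⟪a, x⟫ = f x := by
    intro x
    rw [ha, InnerProductSpace.toDual_symm_apply]
  have hballK : Metric.ball c R ⊆ interior K :=
    hball.trans (interior_mono (Set.biInter_subset_of_mem hK))
  have hcK : c ∈ interior K := hballK (Metric.mem_ball_self hR)
  have hfc : ⟪a, c⟫ < ⟪a, x₀⟫ := by
    rw [haf, haf]; exact hf c hcK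
  have ha0 : a ≠ 0 := by
    intro h
    rw [h] at hfc
    simp at hfc
  have han : 0 < ‖a‖ := norm_pos_iff.2 ha0
  -- equality in Cauchy–Schwarz
  have h2 : ∀ t : ℝ, 0 ≤ t → t < R → t * ‖a‖ ≤ ⟪a, x₀ - c⟫ := by
    intro t ht0 htR
    have h3 : c + (t / ‖a‖) • a ∈ Metric.ball c R := by
      rw [Metric.mem_ball, dist_eq_norm, add_sub_cancel_left, norm_smul, Real.norm_eq_abs,
        abs_of_nonneg (by positivity), div_mul_cancel₀ _ han.ne']
      exact htR
    have h4 := hf _ (hballK h3)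
    rw [← haf, ← haf, inner_add_right, real_inner_smul_right, real_inner_self_eq_norm_sq] at h4
    rw [inner_sub_right]
    have h5 : t / ‖a‖ * ‖a‖ ^ 2 = t * ‖a‖ := by field_simp
    linarith
  have h3 : R * ‖a‖ ≤ ⟪a, x₀ - c⟫ := by
    by_contra hcon
    push Not at hcon
    have h4 : ⟪a, x₀ - c⟫ / ‖a‖ < R := by rwa [div_lt_iff₀ han]
    have h5 : 0 ≤ ⟪a, x₀ - c⟫ / ‖a‖ := by
      apply div_nonneg _ han.le
      rw [inner_sub_right]; linarith
    have h6 := h2 ((⟪a, x₀ - c⟫ / ‖a‖ + R) / 2) (by linarith) (by linarith)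
    have h7 : ⟪a, x₀ - c⟫ / ‖a‖ * ‖a‖ = ⟪a, x₀ - c⟫ := div_mul_cancel₀ _ han.ne'
    nlinarith
  have h4 : ⟪a, x₀ - c⟫ = ‖a‖ * ‖x₀ - c‖ := by
    apply le_antisymm (real_inner_le_norm _ _)
    rw [hdist]; linarith
  have h5 : ‖x₀ - c‖ • a = ‖a‖ • (x₀ - c) := inner_eq_norm_mul_iff_real.1 h4
  intro x hx
  have h6 : ⟪a, x⟫ ≤ ⟪a, x₀⟫ := by
    have h7 : x ∈ closure (interior K) := by
      rw [(hconv K hK).closure_interior_eq_closure_of_nonempty_interior ⟨c, hcK⟩]
      exact subset_closure hx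
    have h8 : closure (interior K) ⊆ {x | ⟪a, x⟫ ≤ ⟪a, x₀⟫} := by
      apply closure_minimal
      · intro y hy
        have := hf y hy
        rw [← haf, ← haf] at this
        exact this.le
      · exact isClosed_le (continuous_const.inner continuous_id) continuous_const
    exact h8 h7
  have h7 : ‖a‖ * ⟪x₀ - c, x - x₀⟫ = ‖x₀ - c‖ * ⟪a, x - x₀⟫ := by
    rw [← real_inner_smul_left, ← h5, real_inner_smul_left]
  have h8 : ⟪a, x - x₀⟫ ≤ 0 := by rw [inner_sub_right]; linarith
  have h9 : ‖a‖ * ⟪x₀ - c, x - x₀⟫ ≤ 0 := by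
    rw [h7]
    exact mul_nonpos_of_nonneg_of_nonpos (norm_nonneg _) h8
  by_contra hcon
  push Not at hcon
  have := mul_pos han hcon
  linarith

/-- Support vectors: `p` such that some member of the family lies in the half-space
`⟪p, x - o⟫ ≤ 1`. -/
def supp {d : ℕ} (F : Finset (Set (Eu d))) (o : Eu d) : Set (Eu d) :=
  {p | ∃ K ∈ F, ∀ x ∈ K, ⟪p, x - o⟫ ≤ 1}

/-- Separation by half-spaces such that they and their reflections contain members. -/
lemma sep {d : ℕ} (F : Finset (Set (Eu d))) (hconv : ∀ K ∈ F, Convex ℝ K) (o : Eu d)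
    (hsym : ∀ x ∈ ⋂ K ∈ F, K, (2 : ℝ) • o - x ∈ ⋂ K ∈ F, K) (r : ℝ) (hr : 0 < r)
    (hball : Metric.ball o r ⊆ ⋂ K ∈ F, K) (z : Eu d) (σ : ℝ) (hσ0 : 0 < σ) (hσ1 : σ < 1)
    (hz : o + σ • (z - o) ∉ interior (⋂ K ∈ F, K)) :
    ∃ p, p ∈ supp F o ∧ -p ∈ supp F o ∧ 1 < ⟪p, z - o⟫ := by
  classical
  set Q : Set (Eu d) := ⋂ K ∈ F, K with hQ
  have hQc : Convex ℝ Q := convex_iInter₂ hconv
  have hIc : Convex ℝ (interior Q) := hQc.interior
  have hballI : Metric.ball o r ⊆ interior Q := interior_maximal hball Metric.isOpen_ball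
  have hoI : o ∈ interior Q := hballI (Metric.mem_ball_self hr)
  have hsymI : ∀ x ∈ interior Q, (2 : ℝ) • o - x ∈ interior Q := by
    intro x hx
    have h1 : IsOpen {y : Eu d | (2 : ℝ) • o - y ∈ interior Q} :=
      isOpen_interior.preimage (by fun_prop)
    have h2 : {y : Eu d | (2 : ℝ) • o - y ∈ interior Q} ⊆ Q := by
      intro y hy
      have h3 := hsym _ (interior_subset hy)
      simpa using h3
    have h3 := interior_maximal h2 h1
    apply h3
    show (2 : ℝ) • o - ((2 : ℝ) • o - x) ∈ interior Q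
    simpa using hx
  -- points of the segment up to an interior point are interior
  have hseg : ∀ s t : ℝ, 0 ≤ s → s ≤ t → o + t • (z - o) ∈ interior Q →
      o + s • (z - o) ∈ interior Q := by
    intro s t hs hst ht
    rcases (hs.trans hst).eq_or_lt with h0 | h0
    · have : s = 0 := by linarith
      rw [this]; simpa using hoI
    · have h1 := hIc hoI ht (show 0 ≤ 1 - s / t by
        rw [sub_nonneg]; exact (div_le_one h0).2 hst) (show 0 ≤ s / t by positivity) (by ring)
      convert h1 using 1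
      rw [smul_add, smul_smul, div_mul_cancel₀ _ h0.ne', ← add_assoc, ← add_smul]
      simp
  have hzo : z - o ≠ 0 := by
    intro h
    rw [h] at hz
    apply hz
    simpa using hoI
  have hzn : 0 < ‖z - o‖ := norm_pos_iff.2 hzo
  -- the step
  set δ : ℝ := (1 - σ) * r / (2 * ‖z - o‖) with hδ
  have hδ0 : 0 < δ := by
    have : 0 < 1 - σ := by linarith
    positivity
  have hex : ∃ k : ℕ, o + ((k : ℝ) * δ) • (z - o) ∉ interior Q := by
    obtain ⟨k, hk⟩ := exists_nat_gt (σ / δ)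
    refine ⟨k, fun hcon => hz (hseg σ _ hσ0.le ?_ hcon)⟩
    rw [div_lt_iff₀ hδ0] at hk
    exact hk.le
  have hk1 := Nat.find_spec hex
  set k := Nat.find hex with hk
  have hk0 : k ≠ 0 := by
    intro h
    rw [h] at hk1
    apply hk1
    simpa using hoI
  obtain ⟨j, hj⟩ : ∃ j, k = j + 1 := ⟨k - 1, by omega⟩
  have hj1 : o + ((j : ℝ) * δ) • (z - o) ∈ interior Q := by
    by_contra hcon
    have := Nat.find_min' hex hcon
    omega
  set s : ℝ := (j : ℝ) * δ with hs
  have hs0 : 0 ≤ s := by positivity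
  have hsσ : s < σ := by
    by_contra hcon
    push Not at hcon
    exact hz (hseg σ s hσ0.le hcon hj1)
  set c : Eu d := o + s • (z - o) with hc
  -- nearest point of the complement
  have hclosed : IsClosed (interior Q)ᶜ := isOpen_interior.isClosed_compl
  have hne : (interior Q)ᶜ.Nonempty := ⟨_, hz⟩
  obtain ⟨x₀, hx₀, hdist⟩ := hclosed.exists_infDist_eq_dist hne c
  set R : ℝ := dist c x₀ with hR
  have hRpos : 0 < R := by
    rw [hR, dist_pos]
    intro h
    rw [← h] at hx₀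
    exact hx₀ hj1
  have hballc : Metric.ball c R ⊆ interior Q := by
    intro y hy
    by_contra hcon
    have h1 : Metric.infDist c (interior Q)ᶜ ≤ dist c y := Metric.infDist_le_dist_of_mem hcon
    rw [Metric.mem_ball, dist_comm] at hy
    rw [hdist] at h1
    linarith
  have hRδ : R ≤ δ * ‖z - o‖ := by
    have h1 : Metric.infDist c (interior Q)ᶜ ≤ dist c (o + ((k : ℝ) * δ) • (z - o)) :=
      Metric.infDist_le_dist_of_mem hk1
    rw [hdist] at h1
    have h2 : c - (o + ((k : ℝ) * δ) • (z - o)) = (-δ) • (z - o) := by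
      rw [hc, hs, hj]
      push_cast
      rw [add_sub_add_left_eq_sub, ← sub_smul]
      congr 1
      ring
    rw [dist_eq_norm, h2, norm_smul, Real.norm_eq_abs, abs_neg, abs_of_pos hδ0] at h1
    exact h1
  have hRlt : R < (1 - s) * r := by
    have h1 : δ * ‖z - o‖ = (1 - σ) * r / 2 := by
      rw [hδ]; field_simp
    have h2 : 0 < (1 - σ) * r := mul_pos (by linarith) hr
    have h3 : (1 - σ) * r ≤ (1 - s) * r := mul_le_mul_of_nonneg_right (by linarith) hr.le
    linarith
  set v : Eu d := x₀ - c with hv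
  have hvn : ‖v‖ = R := by rw [hv, ← dist_eq_norm, dist_comm]
  obtain ⟨K, hK, hKv⟩ := touch F hconv c x₀ R hRpos hballc hx₀ hvn
  -- the reflected configuration
  have hx₀' : (2 : ℝ) • o - x₀ ∉ interior Q := by
    intro h
    have := hsymI _ h
    rw [sub_sub_cancel] at this
    exact hx₀ this
  have hballc' : Metric.ball ((2 : ℝ) • o - c) R ⊆ interior Q := by
    intro y hy
    have h1 : (2 : ℝ) • o - y ∈ Metric.ball c R := by
      rw [Metric.mem_ball, dist_eq_norm] at hy ⊢
      have h2 : (2 : ℝ) • o - y - c = -(y - ((2 : ℝ) • o - c)) := by abel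
      rw [h2, norm_neg]
      exact hy
    have h2 := hsymI _ (hballc h1)
    rwa [sub_sub_cancel] at h2
  have hv' : ((2 : ℝ) • o - x₀) - ((2 : ℝ) • o - c) = -v := by rw [hv]; abel
  obtain ⟨K', hK', hKv'⟩ := touch F hconv ((2 : ℝ) • o - c) ((2 : ℝ) • o - x₀) R hRpos hballc'
    hx₀' (by rw [hv', norm_neg, hvn])
  rw [hv'] at hKv'
  -- the normalisation
  have hpos : r * ‖v‖ ≤ ⟪v, x₀ - o⟫ := by
    have h2 : ∀ t : ℝ, 0 ≤ t → t < r → t * ‖v‖ ≤ ⟪v, x₀ - o⟫ := by
      intro t ht0 htr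
      have hvpos : 0 < ‖v‖ := by rw [hvn]; exact hRpos
      have h3 : o + (t / ‖v‖) • v ∈ Metric.ball o r := by
        rw [Metric.mem_ball, dist_eq_norm, add_sub_cancel_left, norm_smul, Real.norm_eq_abs,
          abs_of_nonneg (by positivity), div_mul_cancel₀ _ hvpos.ne']
        exact htr
      have h4 := hKv _ (Set.mem_iInter₂.1 (hball h3) K hK)
      have h5 : ⟪v, o + (t / ‖v‖) • v - x₀⟫ = t * ‖v‖ - ⟪v, x₀ - o⟫ := by
        rw [inner_sub_right, inner_add_right, real_inner_smul_right, real_inner_self_eq_norm_sq,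
          inner_sub_right]
        have : t / ‖v‖ * ‖v‖ ^ 2 = t * ‖v‖ := by field_simp
        linarith
      rw [h5] at h4
      linarith
    have hvpos : 0 < ‖v‖ := by rw [hvn]; exact hRpos
    by_contra hcon
    push Not at hcon
    have h4 : ⟪v, x₀ - o⟫ / ‖v‖ < r := by rwa [div_lt_iff₀ hvpos]
    have h0 := h2 0 le_rfl hr
    rw [zero_mul] at h0
    have h5 : 0 ≤ ⟪v, x₀ - o⟫ / ‖v‖ := div_nonneg h0 hvpos.le
    have h6 := h2 ((⟪v, x₀ - o⟫ / ‖v‖ + r) / 2) (by linarith) (by linarith)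
    have h7 : ⟪v, x₀ - o⟫ / ‖v‖ * ‖v‖ = ⟪v, x₀ - o⟫ := div_mul_cancel₀ _ hvpos.ne'
    nlinarith
  have hvpos : 0 < ‖v‖ := by rw [hvn]; exact hRpos
  set b : ℝ := ⟪v, x₀ - o⟫ with hb
  have hbpos : 0 < b := lt_of_lt_of_le (mul_pos hr hvpos) hpos
  refine ⟨b⁻¹ • v, ⟨K, hK, fun x hx => ?_⟩, ⟨K', hK', fun x hx => ?_⟩, ?_⟩
  · rw [real_inner_smul_left, inv_mul_le_iff₀ hbpos, mul_one]
    have h1 := hKv x hx
    have h2 : ⟪v, x - o⟫ = ⟪v, x - x₀⟫ + ⟪v, x₀ - o⟫ := by
      rw [← inner_add_right]; congr 1; abel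
    rw [h2]; linarith
  · rw [← smul_neg, real_inner_smul_left, inv_mul_le_iff₀ hbpos, mul_one]
    have h1 := hKv' x hx
    have h2 : ⟪-v, x - o⟫ = ⟪-v, x - ((2 : ℝ) • o - x₀)⟫ + ⟪v, x₀ - o⟫ := by
      rw [inner_neg_left, inner_neg_left, neg_add_eq_sub, ← inner_sub_right, ← inner_neg_right]
      congr 1
      rw [two_smul]; abel
    rw [h2]; linarith
  · rw [real_inner_smul_left, lt_inv_mul_iff₀ hbpos, mul_one]
    -- `b < ⟪v, z - o⟫`
    have h1 : z - c = (1 - s) • (z - o) := by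
      rw [hc, sub_smul, one_smul]; abel
    have h2 : c - o = s • (z - o) := by rw [hc]; abel
    have h3 : ⟪v, c - o⟫ = b - R ^ 2 := by
      have : c - o = (x₀ - o) - v := by rw [hv]; abel
      rw [this, inner_sub_right, real_inner_self_eq_norm_sq, hvn]
    have h4 : s * ⟪v, z - o⟫ = b - R ^ 2 := by
      rw [← real_inner_smul_right, ← h2, h3]
    have h5 : r * R ≤ b := by rw [← hvn]; exact hpos
    have h6 : R * R < (1 - s) * r * R := mul_lt_mul_of_pos_right hRlt hRpos
    have h7 : (1 - s) * r * R ≤ (1 - s) * b := by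
      rw [mul_assoc]
      exact mul_le_mul_of_nonneg_left h5 (by linarith)
    rcases hs0.eq_or_lt with h8 | h8
    · rw [← h8] at h4 h6 h7
      have : b = R ^ 2 := by linarith
      nlinarith
    · by_contra hcon
      push Not at hcon
      have := mul_le_mul_of_nonneg_left hcon h8.le
      nlinarith

/-- A finite symmetric set of support vectors cutting out a small dilate of the intersection. -/
lemma exists_finset {d : ℕ} (F : Finset (Set (Eu d))) (hconv : ∀ K ∈ F, Convex ℝ K) (o : Eu d)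
    (hsym : ∀ x ∈ ⋂ K ∈ F, K, (2 : ℝ) • o - x ∈ ⋂ K ∈ F, K) (r : ℝ) (hr : 0 < r)
    (hball : Metric.ball o r ⊆ ⋂ K ∈ F, K) (R : ℝ)
    (hR : (⋂ K ∈ F, K) ⊆ Metric.closedBall o R) (σ : ℝ) (hσ0 : 0 < σ) (hσ1 : σ < 1) :
    ∃ A : Finset (Eu d), (∀ p ∈ A, -p ∈ A) ∧ (∀ p ∈ A, p ∈ supp F o) ∧
      ∀ z : Eu d, (∀ p ∈ A, ⟪p, z⟫ ≤ 1) → o + σ • z ∈ interior (⋂ K ∈ F, K) := by
  classical
  set Q : Set (Eu d) := ⋂ K ∈ F, K with hQ
  have hR0 : 0 ≤ R := by
    have h1 : o ∈ Metric.closedBall o R := hR (hball (Metric.mem_ball_self hr))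
    rw [Metric.mem_closedBall, dist_self] at h1
    exact h1
  set R₁ : ℝ := (R + 1) / σ with hR₁
  have hR₁0 : 0 < R₁ := by positivity
  set Sf : Set (Eu d) := {z | o + σ • z ∉ interior Q} ∩ Metric.closedBall 0 R₁ with hSf
  have hSc : IsCompact Sf := by
    apply (isCompact_closedBall (0 : Eu d) R₁).inter_left
    have : {z : Eu d | o + σ • z ∉ interior Q} = (fun z => o + σ • z) ⁻¹' (interior Q)ᶜ := rfl
    rw [this]
    exact isOpen_interior.isClosed_compl.preimage (by fun_prop)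
  have hsep : ∀ z ∈ Sf, ∃ p, p ∈ supp F o ∧ -p ∈ supp F o ∧ 1 < ⟪p, z⟫ := by
    intro z hz
    have h1 := sep F hconv o hsym r hr hball (o + z) σ hσ0 hσ1 (by
      rw [add_sub_cancel_left]; exact hz.1)
    simpa using h1
  choose! P hP1 hP2 hP3 using hsep
  obtain ⟨t, ht1, ht2⟩ := hSc.elim_nhds_subcover (fun z => {w | 1 < ⟪P z, w⟫}) (fun z hz => by
    apply IsOpen.mem_nhds
    · exact isOpen_lt continuous_const (continuous_const.inner continuous_id)
    · exact hP3 z hz)
  refine ⟨t.image P ∪ t.image (fun z => -P z), ?_, ?_, ?_⟩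
  · intro p hp
    rcases Finset.mem_union.1 hp with h | h
    · obtain ⟨z, hz, rfl⟩ := Finset.mem_image.1 h
      exact Finset.mem_union_right _ (Finset.mem_image.2 ⟨z, hz, rfl⟩)
    · obtain ⟨z, hz, rfl⟩ := Finset.mem_image.1 h
      exact Finset.mem_union_left _ (Finset.mem_image.2 ⟨z, hz, by simp⟩)
  · intro p hp
    rcases Finset.mem_union.1 hp with h | h
    · obtain ⟨z, hz, rfl⟩ := Finset.mem_image.1 h
      exact hP1 z (ht1 z hz)
    · obtain ⟨z, hz, rfl⟩ := Finset.mem_image.1 h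
      exact hP2 z (ht1 z hz)
  · intro z hz
    by_contra hcon
    -- scale `z` into the shell
    obtain ⟨l, hl0, hl1, hlS⟩ : ∃ l : ℝ, 0 < l ∧ l ≤ 1 ∧ l • z ∈ Sf := by
      by_cases hzn : ‖z‖ ≤ R₁
      · refine ⟨1, one_pos, le_rfl, ?_⟩
        rw [one_smul]
        exact ⟨hcon, by rwa [mem_closedBall_zero_iff]⟩
      · push Not at hzn
        have hz0 : 0 < ‖z‖ := hR₁0.trans hzn
        refine ⟨R₁ / ‖z‖, by positivity, (div_le_one hz0).2 hzn.le, ?_, ?_⟩
        · intro h
          have h1 := hR (interior_subset h)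
          rw [Metric.mem_closedBall, dist_eq_norm, add_sub_cancel_left, smul_smul, norm_smul,
            Real.norm_eq_abs, abs_of_nonneg (by positivity)] at h1
          have h2 : σ * (R₁ / ‖z‖) * ‖z‖ = R + 1 := by
            rw [hR₁]; field_simp
          rw [h2] at h1
          linarith
        · rw [mem_closedBall_zero_iff, norm_smul, Real.norm_eq_abs,
            abs_of_nonneg (by positivity), div_mul_cancel₀ _ hz0.ne']
    have hcov := ht2 hlS
    rw [Set.mem_iUnion₂] at hcov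
    obtain ⟨w, hwt, hw2⟩ := hcov
    have hw2 : 1 < ⟪P w, l • z⟫ := hw2
    have h1 : ⟪P w, z⟫ ≤ 1 :=
      hz _ (Finset.mem_union_left _ (Finset.mem_image_of_mem P hwt))
    rw [real_inner_smul_right] at hw2
    nlinarith

/-- The ellipsoid theorem for centrally symmetric intersections with nonempty interior. -/
theorem ellipsoid2 {d : ℕ} (hd : 0 < d) (F : Finset (Set (Eu d)))
    (hconv : ∀ K ∈ F, Convex ℝ K) (o : Eu d)
    (hint : (interior (⋂ K ∈ F, K)).Nonempty)
    (hsym : ∀ x ∈ ⋂ K ∈ F, K, (2 : ℝ) • o - x ∈ ⋂ K ∈ F, K)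
    (hF : ∀ G ⊆ F, G.Nonempty → G.card ≤ 2 * d → 1 ≤ Metric.ediam (⋂ K ∈ G, K)) :
    ∃ c : Fin d → Eu d, (∀ i j, i ≠ j → ⟪c i, c j⟫ = 0) ∧
      1 / (5000 * (d : ℝ)) ≤ ∑ j, ‖c j‖ ^ 2 ∧
      ∀ u : Fin d → ℝ, ∑ j, u j ^ 2 ≤ 1 → ∀ K ∈ F, o + ∑ j, u j • c j ∈ K := by
  classical
  have hd' : (0 : ℝ) < d := by exact_mod_cast hd
  have hd1 : (1 : ℝ) ≤ d := by exact_mod_cast hd
  set Q : Set (Eu d) := ⋂ K ∈ F, K with hQ
  have hQc : Convex ℝ Q := convex_iInter₂ hconv
  -- `o` is an interior point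
  have hoI : o ∈ interior Q := by
    obtain ⟨y, hy⟩ := hint
    have h1 : IsOpen {y : Eu d | (2 : ℝ) • o - y ∈ interior Q} :=
      isOpen_interior.preimage (by fun_prop)
    have h2 : {y : Eu d | (2 : ℝ) • o - y ∈ interior Q} ⊆ Q := by
      intro y hy
      have h3 := hsym _ (interior_subset hy)
      simpa using h3
    have h3 := interior_maximal h2 h1
    have h4 : (2 : ℝ) • o - y ∈ interior Q := by
      apply h3
      show (2 : ℝ) • o - ((2 : ℝ) • o - y) ∈ interior Q
      simpa using hy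
    have h5 := hQc.interior hy h4 (by norm_num : (0 : ℝ) ≤ 1 / 2)
      (by norm_num : (0 : ℝ) ≤ 1 / 2) (by norm_num)
    convert h5 using 1
    rw [smul_sub, smul_smul]
    norm_num
  obtain ⟨r, hr, hball⟩ := Metric.mem_nhds_iff.1 (mem_interior_iff_mem_nhds.1 hoI)
  have hoQ : o ∈ Q := interior_subset hoI
  by_cases hbdd : Bornology.IsBounded Q
  swap
  · -- unbounded intersection
    obtain ⟨x, hx, hx1⟩ : ∃ x ∈ Q, 1 ≤ ‖x - o‖ := by
      by_contra hcon
      push Not at hcon
      apply hbdd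
      apply (Metric.isBounded_closedBall (x := o) (r := 1)).subset
      intro x hx
      rw [Metric.mem_closedBall, dist_eq_norm]
      exact (hcon x hx).le
    refine ⟨Pi.single ⟨0, hd⟩ (x - o), ?_, ?_, ?_⟩
    · intro i j hij
      by_cases hi : i = ⟨0, hd⟩
      · have hj : j ≠ ⟨0, hd⟩ := by rw [← hi]; exact hij.symm
        simp [Pi.single_eq_of_ne hj]
      · simp [Pi.single_eq_of_ne hi]
    · have h1 : ‖(Pi.single (⟨0, hd⟩ : Fin d) (x - o) : Fin d → Eu d) ⟨0, hd⟩‖ ^ 2 ≤
          ∑ j, ‖(Pi.single (⟨0, hd⟩ : Fin d) (x - o) : Fin d → Eu d) j‖ ^ 2 :=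
        Finset.single_le_sum (f := fun j =>
          ‖(Pi.single (⟨0, hd⟩ : Fin d) (x - o) : Fin d → Eu d) j‖ ^ 2)
          (fun j _ => sq_nonneg _) (Finset.mem_univ _)
      refine le_trans ?_ h1
      rw [Pi.single_eq_same, div_le_iff₀ (by positivity)]
      nlinarith
    · intro u hu K hK
      have h1 : ∑ j, u j • (Pi.single (⟨0, hd⟩ : Fin d) (x - o) : Fin d → Eu d) j =
          u ⟨0, hd⟩ • (x - o) := by
        rw [Finset.sum_eq_single ⟨0, hd⟩]
        · rw [Pi.single_eq_same]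
        · intro j _ hj
          rw [Pi.single_eq_of_ne hj, smul_zero]
        · intro h; exact absurd (Finset.mem_univ _) h
      rw [h1]
      have h2 : u ⟨0, hd⟩ ^ 2 ≤ 1 :=
        (Finset.single_le_sum (f := fun j => u j ^ 2) (fun j _ => sq_nonneg _)
          (Finset.mem_univ (⟨0, hd⟩ : Fin d))).trans hu
      have h3 := abs_le.1 ((sq_le_one_iff_abs_le_one _).1 h2)
      set w := u ⟨0, hd⟩ with hw
      have h4 := hQc hx (hsym x hx) (show 0 ≤ (1 + w) / 2 by linarith [h3.1])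
        (show 0 ≤ (1 - w) / 2 by linarith [h3.2]) (by ring)
      have h5 : o + w • (x - o) = ((1 + w) / 2) • x + ((1 - w) / 2) • ((2 : ℝ) • o - x) := by
        module
      rw [h5]
      exact Set.mem_iInter₂.1 h4 K hK
  · -- bounded intersection
    obtain ⟨R, hR⟩ := hbdd.subset_closedBall o
    obtain ⟨A, hAsym, hAsupp, hA⟩ := exists_finset F hconv o hsym r hr hball R hR (100 / 101)
      (by norm_num) (by norm_num)
    have hAspan : ∀ x : Eu d, (∀ p ∈ A, ⟪p, x⟫ = 0) → x = 0 := by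
      intro x hx
      by_contra hne
      have hxn : 0 < ‖x‖ := norm_pos_iff.2 hne
      have h3 := hA (((|R| + 1) * (101 / 100) / ‖x‖) • x) (by
        intro p hp
        rw [real_inner_smul_right, hx p hp]
        simp)
      have h4 := hR (interior_subset h3)
      rw [Metric.mem_closedBall, dist_eq_norm, add_sub_cancel_left, smul_smul, norm_smul,
        Real.norm_eq_abs, abs_of_nonneg (by positivity)] at h4
      have h5 : 100 / 101 * ((|R| + 1) * (101 / 100) / ‖x‖) * ‖x‖ = |R| + 1 := by field_simp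
      rw [h5] at h4
      have := le_abs_self R
      linarith
    obtain ⟨c, hc1, hc2, S, hSA, hScard, hS⟩ := coreE A hAsym hAspan
    -- the trace bound
    have hτ : 1 ≤ 4616 * (d : ℝ) * ∑ j, ‖c j‖ ^ 2 := by
      set τ := ∑ j, ‖c j‖ ^ 2 with hτ
      have hτ0 : 0 ≤ τ := Finset.sum_nonneg fun j _ => sq_nonneg _
      rcases S.eq_empty_or_nonempty with hSe | hSne
      · have h3 := hS (EuclideanSpace.single (⟨0, hd⟩ : Fin d) (1 : ℝ)) (by
          intro p hp; rw [hSe] at hp; simp at hp)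
        rw [PiLp.norm_single] at h3
        simp only [norm_one, one_pow] at h3
        nlinarith
      · have hκ : ∀ p ∈ A, ∃ K ∈ F, ∀ x ∈ K, ⟪p, x - o⟫ ≤ 1 := fun p hp => hAsupp p hp
        choose! κ hκ1 hκ2 using hκ
        have h1 := hF (S.image κ) (by
          intro K hK
          obtain ⟨p, hp, rfl⟩ := Finset.mem_image.1 hK
          exact hκ1 p (hSA hp)) (hSne.image κ) (Finset.card_image_le.trans hScard)
        by_contra hcon
        push Not at hcon
        have h2 : ∀ x ∈ ⋂ K ∈ S.image κ, K, ‖x - o‖ ^ 2 ≤ 1154 * d * τ := by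
          intro x hx
          apply hS
          intro p hp
          exact hκ2 p (hSA hp) x (Set.mem_iInter₂.1 hx (κ p) (Finset.mem_image_of_mem κ hp))
        have h3 : Metric.ediam (⋂ K ∈ S.image κ, K) ≤
            ENNReal.ofReal (√(4616 * (d : ℝ) * τ)) := by
          apply Metric.ediam_le
          intro x hx y hy
          rw [edist_dist]
          apply ENNReal.ofReal_le_ofReal
          apply Real.le_sqrt_of_sq_le
          have h4 := h2 x hx
          have h5 := h2 y hy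
          have h6 : dist x y ≤ ‖x - o‖ + ‖y - o‖ := by
            rw [dist_eq_norm]
            have : x - y = (x - o) - (y - o) := by abel
            rw [this]
            exact norm_sub_le _ _
          have h7 : dist x y ^ 2 ≤ (‖x - o‖ + ‖y - o‖) ^ 2 :=
            pow_le_pow_left₀ dist_nonneg h6 2
          nlinarith [sq_nonneg (‖x - o‖ - ‖y - o‖)]
        have h4 : ENNReal.ofReal (√(4616 * (d : ℝ) * τ)) < 1 := by
          rw [← ENNReal.ofReal_one]
          apply (ENNReal.ofReal_lt_ofReal_iff one_pos).2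
          rw [Real.sqrt_lt' one_pos, one_pow]
          exact hcon
        exact absurd (h1.trans h3) (not_le.2 h4)
    refine ⟨fun j => (100 / 101 : ℝ) • c j, ?_, ?_, ?_⟩
    · intro i j hij
      rw [real_inner_smul_left, real_inner_smul_right, hc1 i j hij]
      simp
    · have h1 : ∑ j, ‖(100 / 101 : ℝ) • c j‖ ^ 2 = (100 / 101) ^ 2 * ∑ j, ‖c j‖ ^ 2 := by
        rw [Finset.mul_sum]
        refine Finset.sum_congr rfl fun j _ => ?_
        rw [norm_smul, mul_pow, Real.norm_eq_abs, sq_abs]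
      rw [h1, div_le_iff₀ (by positivity)]
      nlinarith
    · intro u hu K hK
      have h1 : ∑ j, u j • ((100 / 101 : ℝ) • c j) = (100 / 101 : ℝ) • ∑ j, u j • c j := by
        rw [Finset.smul_sum]
        refine Finset.sum_congr rfl fun j _ => ?_
        rw [smul_comm]
      rw [h1]
      have h2 := hA (∑ j, u j • c j) (by
        intro p hp
        have h3 : ⟪p, ∑ j, u j • c j⟫ = ∑ j, u j * ⟪p, c j⟫ := by
          rw [inner_sum]
          refine Finset.sum_congr rfl fun j _ => ?_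
          rw [real_inner_smul_right]
        rw [h3]
        have h4 := Finset.sum_mul_sq_le_sq_mul_sq Finset.univ u (fun j => ⟪p, c j⟫)
        have h5 : (∑ j, u j ^ 2) * ∑ j, ⟪p, c j⟫ ^ 2 ≤ 1 := by
          have h6 : 0 ≤ ∑ j, ⟪p, c j⟫ ^ 2 := Finset.sum_nonneg fun j _ => sq_nonneg _
          calc _ ≤ 1 * 1 := mul_le_mul hu (hc2 p hp) h6 zero_le_one
            _ = 1 := one_mul 1
        have h6 : (∑ j, u j * ⟪p, c j⟫) ^ 2 ≤ 1 ^ 2 := by
          rw [one_pow]; exact h4.trans h5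
        exact (abs_le_of_sq_le_sq' h6 zero_le_one).2)
      exact Set.mem_iInter₂.1 (interior_subset h2) K hK

end Pool.Agent.Helper6.Helly
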