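import Mathlib
import Pool.Agent.Helper6.Helly.SymInter

/-!
From symmetric polytopes to families of convex sets: a radius bound for `2 d` facets of symmetric
polytopes gives a diameter bound for symmetric families with the `2 d`-condition (MP_882a21_co).
-/

set_option autoImplicit false

namespace Pool.Agent.Helper6.Helly

open scoped BigOperators RealInnerProductSpace Topology

/-- The radius statement for symmetric polytopes, with factor `Λ`. -/
def RadCore (d : ℕ) (Λ : ℝ) : Prop :=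
  ∀ (A : Finset (Eu d)) (ρ : ℝ), (∀ p ∈ A, -p ∈ A) →
    (∀ x : Eu d, (∀ p ∈ A, ⟪p, x⟫ ≤ 1) → ‖x‖ ≤ ρ) →
    ∃ S ⊆ A, S.card ≤ 2 * d ∧ ∀ x : Eu d, (∀ p ∈ S, ⟪p, x⟫ ≤ 1) → ‖x‖ ≤ Λ * ρ

lemma exists_norm {d : ℕ} (hd : 0 < d) (r : ℝ) : ∃ x : Eu d, r < ‖x‖ := by
  refine ⟨EuclideanSpace.single (⟨0, hd⟩ : Fin d) (|r| + 1), ?_⟩
  rw [PiLp.norm_single, Real.norm_eq_abs, abs_of_nonneg (by positivity)]
  have := le_abs_self r
  linarith

/-- One approximation step. -/
theorem stepQ {d : ℕ} (hd : 0 < d) (Λ : ℝ) (core : RadCore d Λ)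
    (F : Finset (Set (Eu d))) (hne : F.Nonempty)
    (hneg : ∀ K ∈ F, ngt K ∈ F)
    (K' : Set (Eu d) → Set (Eu d))
    (hcomp : ∀ K, IsCompact (K' K)) (hconv : ∀ K, Convex ℝ (K' K))
    (hK'neg : ∀ K, ∀ z ∈ K' K, -z ∈ K' (ngt K))
    (h0 : (0 : Eu d) ∈ ⋂ K ∈ F, K' K) (c0 : ℝ)
    (hseg : ∀ G ⊆ F, G.Nonempty → G.card ≤ 2 * d → ∃ p q : Eu d,
      (∀ K ∈ G, p ∈ K' K) ∧ (∀ K ∈ G, q ∈ K' K) ∧ c0 < dist p q)
    (D : ℝ) (hD : ∀ x ∈ ⋂ K ∈ F, K' K, 2 * ‖x‖ ≤ D)
    (η : ℝ) (hη : 0 < η) : c0 ≤ Λ * (D + 2 * η) := by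
  classical
  set M : Set (Eu d) := ⋂ K ∈ F, K' K with hM
  obtain ⟨n, a, b, κ, h1, h2⟩ := Pool.Agent.Helper59.QH.approx F hne K' hcomp hconv ⟨0, h0⟩ η hη
  have hb : ∀ i, 0 < b i := by
    intro i
    have := (h1 i).2 0 (Set.mem_iInter₂.1 h0 _ (h1 i).1)
    simpa using this
  set A : Finset (Eu d) := Finset.univ.image (fun i => (b i)⁻¹ • a i) ∪
    Finset.univ.image (fun i => -((b i)⁻¹ • a i)) with hA
  have hAsym : ∀ p ∈ A, -p ∈ A := by
    intro p hp
    rcases Finset.mem_union.1 hp with h | h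
    · obtain ⟨i, _, rfl⟩ := Finset.mem_image.1 h
      exact Finset.mem_union_right _ (Finset.mem_image.2 ⟨i, Finset.mem_univ _, rfl⟩)
    · obtain ⟨i, _, rfl⟩ := Finset.mem_image.1 h
      exact Finset.mem_union_left _ (Finset.mem_image.2 ⟨i, Finset.mem_univ _, by simp⟩)
  have hAi : ∀ i, (b i)⁻¹ • a i ∈ A := fun i =>
    Finset.mem_union_left _ (Finset.mem_image.2 ⟨i, Finset.mem_univ _, rfl⟩)
  have hpoly : ∀ z : Eu d, (∀ p ∈ A, ⟪p, z⟫ ≤ 1) → ‖z‖ ≤ D / 2 + η := by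
    intro z hz
    have h3 : Metric.infDist z M < η := by
      apply h2
      intro i
      have h3 := hz _ (hAi i)
      rw [real_inner_smul_left, inv_mul_le_iff₀ (hb i), mul_one] at h3
      exact h3
    obtain ⟨y, hy, hyd⟩ := (Metric.infDist_lt_iff ⟨0, h0⟩).1 h3
    have h4 := hD y hy
    have h5 : ‖z‖ ≤ ‖z - y‖ + ‖y‖ := by
      have := norm_add_le (z - y) y
      simpa using this
    rw [dist_eq_norm] at hyd
    linarith
  have hD0 : 0 ≤ D := by
    have := hD 0 h0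
    simpa using this
  obtain ⟨S, hSA, hScard, hS⟩ := core A (D / 2 + η) hAsym hpoly
  rcases S.eq_empty_or_nonempty with hSe | hSne
  · obtain ⟨x, hx⟩ := exists_norm hd (Λ * (D / 2 + η))
    have h3 := hS x (by intro p hp; rw [hSe] at hp; simp at hp)
    linarith
  · have hκ : ∀ p ∈ A, ∃ K ∈ F, ∀ y ∈ K' K, ⟪p, y⟫ < 1 := by
      intro p hp
      rcases Finset.mem_union.1 hp with h | h
      · obtain ⟨i, _, rfl⟩ := Finset.mem_image.1 h
        refine ⟨κ i, (h1 i).1, ?_⟩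
        intro y hy
        rw [real_inner_smul_left, inv_mul_lt_iff₀ (hb i), mul_one]
        exact (h1 i).2 y hy
      · obtain ⟨i, _, rfl⟩ := Finset.mem_image.1 h
        refine ⟨ngt (κ i), hneg _ (h1 i).1, ?_⟩
        intro y hy
        have hy' : -y ∈ K' (κ i) := by
          have := hK'neg _ y hy
          rwa [ngt_ngt] at this
        rw [inner_neg_left, ← inner_neg_right, real_inner_smul_left, inv_mul_lt_iff₀ (hb i),
          mul_one]
        exact (h1 i).2 _ hy'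
    choose! κ' hκ1 hκ2 using hκ
    obtain ⟨p, q, hp, hq, hpq⟩ := hseg (S.image κ') (by
      intro K hK
      obtain ⟨p, hp, rfl⟩ := Finset.mem_image.1 hK
      exact hκ1 p (hSA hp)) (hSne.image κ') (Finset.card_image_le.trans hScard)
    have h3 := hS p (fun w hw =>
      (hκ2 w (hSA hw) p (hp _ (Finset.mem_image_of_mem κ' hw))).le)
    have h4 := hS q (fun w hw =>
      (hκ2 w (hSA hw) q (hq _ (Finset.mem_image_of_mem κ' hw))).le)
    have h5 : dist p q ≤ ‖p‖ + ‖q‖ := by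
      rw [dist_eq_norm]
      exact norm_sub_le p q
    calc c0 ≤ Λ * (D / 2 + η) + Λ * (D / 2 + η) := by linarith
      _ = Λ * (D + 2 * η) := by ring

/-- The diameter bound for families closed under negation. -/
theorem famNeg {d : ℕ} (hd : 0 < d) (Λ : ℝ) (hΛ : 0 < Λ) (core : RadCore d Λ)
    (F : Finset (Set (Eu d)))
    (hconv : ∀ K ∈ F, Convex ℝ K) (hneg : ∀ K ∈ F, ngt K ∈ F)
    (hF : ∀ G ⊆ F, G.Nonempty → G.card ≤ 2 * d → 1 ≤ Metric.ediam (⋂ K ∈ G, K)) :
    ENNReal.ofReal (1 / Λ) ≤ Metric.ediam (⋂ K ∈ F, K) := by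
  classical
  by_cases hfin : Metric.ediam (⋂ K ∈ F, K) = ⊤
  · rw [hfin]; exact le_top
  rcases F.eq_empty_or_nonempty with rfl | hFne
  · exfalso
    apply hfin
    rw [Metric.ediam_eq_top_iff_unbounded.2 ?_]
    simp only [Finset.notMem_empty, Set.iInter_of_empty, Set.iInter_univ]
    intro hb
    obtain ⟨R, hR⟩ := hb.subset_closedBall 0
    obtain ⟨x, hx⟩ := exists_norm hd R
    have := hR (Set.mem_univ x)
    rw [mem_closedBall_zero_iff] at this
    linarith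
  set D : ℝ := (Metric.ediam (⋂ K ∈ F, K)).toReal with hDdef
  -- reduction to all `c0 < 1`
  suffices hmain : ∀ c0 : ℝ, 0 ≤ c0 → c0 < 1 → ∀ η : ℝ, 0 < η → c0 ≤ Λ * (D + 2 * η) by
    have h1 : 1 ≤ Λ * D := by
      by_contra hcon
      push Not at hcon
      have hD0 : 0 ≤ Λ * D := mul_nonneg hΛ.le ENNReal.toReal_nonneg
      have h2 := hmain ((Λ * D + 1) / 2) (by linarith) (by linarith) ((1 - Λ * D) / (8 * Λ))
        (by apply div_pos <;> linarith)
      have h3 : Λ * (D + 2 * ((1 - Λ * D) / (8 * Λ))) = Λ * D + (1 - Λ * D) / 4 := by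
        field_simp
        ring
      rw [h3] at h2
      linarith
    rw [← ENNReal.ofReal_toReal hfin]
    apply ENNReal.ofReal_le_ofReal
    rw [div_le_iff₀ hΛ, mul_comm]
    exact h1
  intro c0 hc0 hc01 η hη
  have hseg : ∀ G ⊆ F, G.Nonempty → G.card ≤ 2 * d →
      ∃ p ∈ ⋂ K ∈ G, K, ∃ q ∈ ⋂ K ∈ G, K, c0 < dist p q := by
    intro G hG hGn hGc
    by_contra hno
    push Not at hno
    have h1 : Metric.ediam (⋂ K ∈ G, K) ≤ ENNReal.ofReal c0 := by
      apply Metric.ediam_le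
      intro x hx y hy
      rw [edist_dist]
      exact ENNReal.ofReal_le_ofReal (hno x hx y hy)
    have h2 : ENNReal.ofReal c0 < 1 := by
      rw [← ENNReal.ofReal_one]
      exact (ENNReal.ofReal_lt_ofReal_iff one_pos).2 hc01
    exact absurd ((hF G hG hGn hGc).trans h1) (not_le.2 h2)
  have hseg' : ∀ G : Finset (Set (Eu d)),
      ∃ p q : Eu d, (G ⊆ F ∧ G.Nonempty ∧ G.card ≤ 2 * d) →
      (p ∈ ⋂ K ∈ G, K) ∧ (q ∈ ⋂ K ∈ G, K) ∧ c0 < dist p q := by
    intro G
    by_cases h : G ⊆ F ∧ G.Nonempty ∧ G.card ≤ 2 * d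
    · obtain ⟨p, hp, q, hq, hpq⟩ := hseg G h.1 h.2.1 h.2.2
      exact ⟨p, q, fun _ => ⟨hp, hq, hpq⟩⟩
    · exact ⟨0, 0, fun h' => absurd h' h⟩
  choose p q hpq using hseg'
  set 𝒢 : Finset (Finset (Set (Eu d))) :=
    F.powerset.filter (fun G => G.Nonempty ∧ G.card ≤ 2 * d) with h𝒢
  have hmem𝒢 : ∀ G, G ∈ 𝒢 ↔ G ⊆ F ∧ G.Nonempty ∧ G.card ≤ 2 * d := by
    intro G
    rw [h𝒢, Finset.mem_filter, Finset.mem_powerset]
  set Sset : Set (Eu d) → Set (Eu d) := fun K =>
    {z | ∃ G ∈ 𝒢, (K ∈ G ∧ (z = p G ∨ z = q G)) ∨ (ngt K ∈ G ∧ (-z = p G ∨ -z = q G))}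
    with hSset
  set K' : Set (Eu d) → Set (Eu d) := fun K => convexHull ℝ (Sset K) with hK'
  have hfin' : ∀ K, (Sset K).Finite := by
    intro K
    apply Set.Finite.subset (𝒢.image p ∪ 𝒢.image q ∪ (𝒢.image (fun G => -p G) ∪
      𝒢.image (fun G => -q G))).finite_toSet
    rintro z ⟨G, hG, ⟨_, hz | hz⟩ | ⟨_, hz | hz⟩⟩
    · rw [hz]
      exact Finset.mem_coe.2 (Finset.mem_union_left _ (Finset.mem_union_left _
        (Finset.mem_image_of_mem p hG)))
    · rw [hz]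
      exact Finset.mem_coe.2 (Finset.mem_union_left _ (Finset.mem_union_right _
        (Finset.mem_image_of_mem q hG)))
    · have hz' : z = -p G := by rw [← hz, neg_neg]
      rw [hz']
      exact Finset.mem_coe.2 (Finset.mem_union_right _ (Finset.mem_union_left _
        (Finset.mem_image_of_mem (fun G => -p G) hG)))
    · have hz' : z = -q G := by rw [← hz, neg_neg]
      rw [hz']
      exact Finset.mem_coe.2 (Finset.mem_union_right _ (Finset.mem_union_right _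
        (Finset.mem_image_of_mem (fun G => -q G) hG)))
  have hcomp : ∀ K, IsCompact (K' K) := fun K => (hfin' K).isCompact_convexHull (𝕜 := ℝ)
  have hconv' : ∀ K, Convex ℝ (K' K) := fun K => convex_convexHull ℝ _
  have hmemG : ∀ G ⊆ F, G.Nonempty → G.card ≤ 2 * d → ∀ K ∈ G, p G ∈ K' K ∧ q G ∈ K' K := by
    intro G hG hGn hGc K hK
    have hG' : G ∈ 𝒢 := (hmem𝒢 G).2 ⟨hG, hGn, hGc⟩
    exact ⟨subset_convexHull ℝ _ ⟨G, hG', Or.inl ⟨hK, Or.inl rfl⟩⟩,
      subset_convexHull ℝ _ ⟨G, hG', Or.inl ⟨hK, Or.inr rfl⟩⟩⟩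
  have hK'sub : ∀ K ∈ F, K' K ⊆ K := by
    intro K hK
    apply convexHull_min _ (hconv K hK)
    rintro z ⟨G, hG, ⟨hKG, hz⟩ | ⟨hKG, hz⟩⟩
    · have h1 := hpq G ((hmem𝒢 G).1 hG)
      rcases hz with rfl | rfl
      · exact Set.mem_iInter₂.1 h1.1 K hKG
      · exact Set.mem_iInter₂.1 h1.2.1 K hKG
    · have h1 := hpq G ((hmem𝒢 G).1 hG)
      rcases hz with hz | hz
      · have h2 : p G ∈ ngt K := Set.mem_iInter₂.1 h1.1 (ngt K) hKG
        rw [← hz] at h2
        simpa [ngt] using h2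
      · have h2 : q G ∈ ngt K := Set.mem_iInter₂.1 h1.2.1 (ngt K) hKG
        rw [← hz] at h2
        simpa [ngt] using h2
  have hK'neg : ∀ K, ∀ z ∈ K' K, -z ∈ K' (ngt K) := by
    intro K z hz
    have h1 : Convex ℝ {z : Eu d | -z ∈ K' (ngt K)} := by
      intro x hx y hy a b ha hb hab
      have h := (hconv' (ngt K)) (show -x ∈ K' (ngt K) from hx) (show -y ∈ K' (ngt K) from hy)
        ha hb hab
      rw [smul_neg, smul_neg, ← neg_add] at h
      exact h
    have h2 : K' K ⊆ {z : Eu d | -z ∈ K' (ngt K)} := by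
      apply convexHull_min _ h1
      rintro z ⟨G, hG, ⟨hKG, hz⟩ | ⟨hKG, hz⟩⟩
      · apply subset_convexHull ℝ _
        refine ⟨G, hG, Or.inr ⟨?_, ?_⟩⟩
        · rw [ngt_ngt]; exact hKG
        · rwa [neg_neg]
      · apply subset_convexHull ℝ _
        exact ⟨G, hG, Or.inl ⟨hKG, hz⟩⟩
    exact h2 hz
  have hM : (⋂ K ∈ F, K' K).Nonempty := by
    apply Convex.helly_theorem' (𝕜 := ℝ) (fun K _ => hconv' K)
    intro I hI hIc
    rw [finrank_euclideanSpace_fin] at hIc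
    rcases I.eq_empty_or_nonempty with rfl | hIn
    · exact ⟨0, by simp⟩
    · exact ⟨p I, Set.mem_iInter₂.2 (fun K hK => (hmemG I hI hIn (by omega) K hK).1)⟩
  have hMneg : ∀ x ∈ ⋂ K ∈ F, K' K, -x ∈ ⋂ K ∈ F, K' K := by
    intro x hx
    refine Set.mem_iInter₂.2 fun K hK => ?_
    have h3 := hK'neg (ngt K) x (Set.mem_iInter₂.1 hx (ngt K) (hneg K hK))
    rwa [ngt_ngt] at h3
  have h0 : (0 : Eu d) ∈ ⋂ K ∈ F, K' K := by
    obtain ⟨x, hx⟩ := hM
    refine Set.mem_iInter₂.2 fun K hK => ?_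
    have h1 : x ∈ K' K := Set.mem_iInter₂.1 hx K hK
    have h2 : -x ∈ K' K := Set.mem_iInter₂.1 (hMneg x hx) K hK
    have h3 := (hconv' K) h1 h2 (by norm_num : (0 : ℝ) ≤ 1 / 2) (by norm_num : (0 : ℝ) ≤ 1 / 2)
      (by norm_num)
    simpa using h3
  refine stepQ hd Λ core F hFne hneg K' hcomp hconv' hK'neg h0 c0 ?_ D ?_ η hη
  · intro G hG hGn hGc
    have h1 := hmemG G hG hGn hGc
    exact ⟨p G, q G, fun K hK => (h1 K hK).1, fun K hK => (h1 K hK).2,
      (hpq G ⟨hG, hGn, hGc⟩).2.2⟩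
  · intro x hx
    have h1 : x ∈ ⋂ K ∈ F, K :=
      Set.mem_iInter₂.2 fun K hK => hK'sub K hK (Set.mem_iInter₂.1 hx K hK)
    have h2 : -x ∈ ⋂ K ∈ F, K :=
      Set.mem_iInter₂.2 fun K hK => hK'sub K hK (Set.mem_iInter₂.1 (hMneg x hx) K hK)
    have h3 : edist x (-x) ≤ Metric.ediam (⋂ K ∈ F, K) := Metric.edist_le_ediam_of_mem h1 h2
    have h4 : (edist x (-x)).toReal ≤ D := ENNReal.toReal_mono hfin h3
    rw [edist_dist, ENNReal.toReal_ofReal dist_nonneg, dist_eq_norm, sub_neg_eq_add,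
      ← two_smul ℝ x, norm_smul] at h4
    simpa using h4

/-- The diameter bound for families closed under the reflection in a point. -/
theorem famRefl {d : ℕ} (hd : 0 < d) (Λ : ℝ) (hΛ : 0 < Λ) (core : RadCore d Λ)
    (F : Finset (Set (Eu d)))
    (hconv : ∀ K ∈ F, Convex ℝ K) (o : Eu d)
    (hneg : ∀ K ∈ F, {x : Eu d | (2 : ℝ) • o - x ∈ K} ∈ F)
    (hF : ∀ G ⊆ F, G.Nonempty → G.card ≤ 2 * d → 1 ≤ Metric.ediam (⋂ K ∈ G, K)) :
    ENNReal.ofReal (1 / Λ) ≤ Metric.ediam (⋂ K ∈ F, K) := by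
  classical
  let tr : Set (Eu d) → Set (Eu d) := fun K => {x | o + x ∈ K}
  have htrinj : Function.Injective tr := by
    intro K K' h
    ext x
    have h1 : (x - o ∈ tr K) ↔ (x - o ∈ tr K') := by rw [h]
    simpa [tr] using h1
  set F' : Finset (Set (Eu d)) := F.image tr with hF'
  have hmain := famNeg hd Λ hΛ core F' (by
    intro K' hK'
    obtain ⟨K, hK, rfl⟩ := Finset.mem_image.1 hK'
    exact (hconv K hK).translate_preimage_right o) (by
    intro K' hK'
    obtain ⟨K, hK, rfl⟩ := Finset.mem_image.1 hK'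
    refine Finset.mem_image.2 ⟨_, hneg K hK, ?_⟩
    ext x
    simp only [tr, ngt, Set.mem_ofPred_eq]
    have : (2 : ℝ) • o - (o + x) = o + -x := by rw [two_smul]; abel
    rw [this]) (by
    intro G' hG' hGne hGcard
    set G : Finset (Set (Eu d)) := F.filter (fun K => tr K ∈ G') with hG
    have hGim : G.image tr = G' := by
      ext K'
      constructor
      · intro h
        obtain ⟨K, hK, rfl⟩ := Finset.mem_image.1 h
        exact (Finset.mem_filter.1 hK).2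
      · intro h
        obtain ⟨K, hK, rfl⟩ := Finset.mem_image.1 (hG' h)
        exact Finset.mem_image.2 ⟨K, Finset.mem_filter.2 ⟨hK, h⟩, rfl⟩
    have hcard : G.card = G'.card := by
      rw [← hGim, Finset.card_image_of_injective _ htrinj]
    have hne : G.Nonempty := by
      rw [← Finset.card_pos, hcard]
      exact Finset.card_pos.2 hGne
    have h1 := hF G (Finset.filter_subset _ _) hne (by rw [hcard]; exact hGcard)
    refine h1.trans ?_
    apply Metric.ediam_le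
    intro x hx y hy
    have h2 : ∀ x ∈ ⋂ K ∈ G, K, x - o ∈ ⋂ K ∈ G', K := by
      intro x hx
      refine Set.mem_iInter₂.2 fun K' hK' => ?_
      rw [← hGim] at hK'
      obtain ⟨K, hK, rfl⟩ := Finset.mem_image.1 hK'
      show o + (x - o) ∈ K
      rw [add_sub_cancel]
      exact Set.mem_iInter₂.1 hx K hK
    have h3 : edist x y = edist (x - o) (y - o) := by
      rw [edist_sub_right]
    rw [h3]
    exact Metric.edist_le_ediam_of_mem (h2 x hx) (h2 y hy))
  refine hmain.trans ?_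
  apply Metric.ediam_le
  intro x hx y hy
  have h2 : ∀ x ∈ ⋂ K ∈ F', K, o + x ∈ ⋂ K ∈ F, K := by
    intro x hx
    refine Set.mem_iInter₂.2 fun K hK => ?_
    exact Set.mem_iInter₂.1 hx (tr K) (Finset.mem_image_of_mem tr hK)
  have h3 : edist x y = edist (o + x) (o + y) := by
    rw [edist_add_left]
  rw [h3]
  exact Metric.edist_le_ediam_of_mem (h2 x hx) (h2 y hy)

/-- The diameter bound for centrally symmetric intersections with nonempty interior. -/
theorem famInt {d : ℕ} (hd : 0 < d) (Λ : ℝ) (hΛ : 0 < Λ) (core : RadCore d Λ)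
    (F : Finset (Set (Eu d)))
    (hconv : ∀ K ∈ F, Convex ℝ K) (o : Eu d)
    (hint : (interior (⋂ K ∈ F, K)).Nonempty)
    (hsym : ∀ x ∈ ⋂ K ∈ F, K, (2 : ℝ) • o - x ∈ ⋂ K ∈ F, K)
    (hF : ∀ G ⊆ F, G.Nonempty → G.card ≤ 2 * d → 1 ≤ Metric.ediam (⋂ K ∈ G, K)) :
    ENNReal.ofReal (1 / Λ) ≤ Metric.ediam (⋂ K ∈ F, K) := by
  classical
  by_cases hfin : Metric.ediam (⋂ K ∈ F, K) = ⊤
  · rw [hfin]; exact le_top
  set Q : Set (Eu d) := ⋂ K ∈ F, K with hQ
  have hQc : Convex ℝ Q := convex_iInter₂ hconv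
  -- `o` is an interior point
  have hoI : o ∈ interior Q := by
    obtain ⟨y, hy⟩ := hint
    have h1 : IsOpen {y : Eu d | (2 : ℝ) • o - y ∈ interior Q} :=
      isOpen_interior.preimage (by fun_prop)
    have h2 : {y : Eu d | (2 : ℝ) • o - y ∈ interior Q} ⊆ Q := by
      intro y hy
      have h3 := hsym _ (interior_subset hy)
      simpa using h3
    have h3 := interior_maximal h2 h1
    have h4 : (2 : ℝ) • o - y ∈ interior Q := by
      apply h3
      show (2 : ℝ) • o - ((2 : ℝ) • o - y) ∈ interior Q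
      simpa using hy
    have h5 := hQc.interior hy h4 (by norm_num : (0 : ℝ) ≤ 1 / 2)
      (by norm_num : (0 : ℝ) ≤ 1 / 2) (by norm_num)
    convert h5 using 1
    rw [smul_sub, smul_smul]
    norm_num
  obtain ⟨r, hr, hball⟩ := Metric.mem_nhds_iff.1 (mem_interior_iff_mem_nhds.1 hoI)
  have hoQ : o ∈ Q := interior_subset hoI
  have hbdd : Bornology.IsBounded Q := by
    by_contra h
    exact hfin (Metric.ediam_eq_top_iff_unbounded.2 h)
  set D : ℝ := (Metric.ediam Q).toReal with hDdef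
  have hD : ∀ x ∈ Q, 2 * ‖x - o‖ ≤ D := by
    intro x hx
    have h3 : edist x ((2 : ℝ) • o - x) ≤ Metric.ediam Q :=
      Metric.edist_le_ediam_of_mem hx (hsym x hx)
    have h4 : (edist x ((2 : ℝ) • o - x)).toReal ≤ D := ENNReal.toReal_mono hfin h3
    have h5 : x - ((2 : ℝ) • o - x) = (2 : ℝ) • (x - o) := by module
    rw [edist_dist, ENNReal.toReal_ofReal dist_nonneg, dist_eq_norm, h5, norm_smul] at h4
    simpa using h4
  have hD0 : 0 ≤ D := ENNReal.toReal_nonneg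
  have hR : Q ⊆ Metric.closedBall o (D / 2) := by
    intro x hx
    rw [Metric.mem_closedBall, dist_eq_norm]
    linarith [hD x hx]
  have hmain : ∀ σ : ℝ, 0 < σ → σ < 1 → σ ≤ Λ * D := by
    intro σ hσ0 hσ1
    obtain ⟨A, hAsym, hAsupp, hA⟩ := exists_finset F hconv o hsym r hr hball (D / 2) hR σ
      hσ0 hσ1
    obtain ⟨S, hSA, hScard, hS⟩ := core A (D / (2 * σ)) hAsym (by
      intro x hx
      have h3 := hR (interior_subset (hA x hx))
      rw [Metric.mem_closedBall, dist_eq_norm, add_sub_cancel_left, norm_smul, Real.norm_eq_abs,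
        abs_of_pos hσ0] at h3
      rw [le_div_iff₀ (by positivity)]
      linarith)
    rcases S.eq_empty_or_nonempty with hSe | hSne
    · obtain ⟨x, hx⟩ := exists_norm hd (Λ * (D / (2 * σ)))
      have h3 := hS x (by intro p hp; rw [hSe] at hp; simp at hp)
      linarith
    · have hκ : ∀ p ∈ A, ∃ K ∈ F, ∀ x ∈ K, ⟪p, x - o⟫ ≤ 1 := fun p hp => hAsupp p hp
      choose! κ hκ1 hκ2 using hκ
      have h1 := hF (S.image κ) (by
        intro K hK
        obtain ⟨p, hp, rfl⟩ := Finset.mem_image.1 hK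
        exact hκ1 p (hSA hp)) (hSne.image κ) (Finset.card_image_le.trans hScard)
      have h2 : ∀ x ∈ ⋂ K ∈ S.image κ, K, ‖x - o‖ ≤ Λ * (D / (2 * σ)) := by
        intro x hx
        apply hS
        intro p hp
        exact hκ2 p (hSA hp) x (Set.mem_iInter₂.1 hx (κ p) (Finset.mem_image_of_mem κ hp))
      have h3 : Metric.ediam (⋂ K ∈ S.image κ, K) ≤
          ENNReal.ofReal (Λ * D / σ) := by
        apply Metric.ediam_le
        intro x hx y hy
        rw [edist_dist]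
        apply ENNReal.ofReal_le_ofReal
        have h4 := h2 x hx
        have h5 := h2 y hy
        have h6 : dist x y ≤ ‖x - o‖ + ‖y - o‖ := by
          rw [dist_eq_norm]
          have : x - y = (x - o) - (y - o) := by abel
          rw [this]
          exact norm_sub_le _ _
        calc dist x y ≤ Λ * (D / (2 * σ)) + Λ * (D / (2 * σ)) := by linarith
          _ = Λ * D / σ := by field_simp; ring
      have h4 : (1 : ENNReal) ≤ ENNReal.ofReal (Λ * D / σ) := h1.trans h3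
      rw [ENNReal.one_le_ofReal, le_div_iff₀ hσ0, one_mul] at h4
      exact h4
  have h1 : 1 ≤ Λ * D := by
    by_contra hcon
    push Not at hcon
    have hΛD : 0 ≤ Λ * D := mul_nonneg hΛ.le hD0
    have h2 := hmain ((Λ * D + 1) / 2) (by linarith) (by linarith)
    linarith
  rw [← ENNReal.ofReal_toReal hfin]
  apply ENNReal.ofReal_le_ofReal
  rw [div_le_iff₀ hΛ, mul_comm]
  exact h1

/-- The diameter bound for symmetric families, both cases. -/
theorem famQ {d : ℕ} (hd : 0 < d) (Λ : ℝ) (hΛ : 0 < Λ) (core : RadCore d Λ)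
    (F : Finset (Set (Eu d)))
    (hconv : ∀ K ∈ F, Convex ℝ K)
    (hF : ∀ G ⊆ F, G.Nonempty → G.card ≤ 2 * d → 1 ≤ Metric.ediam (⋂ K ∈ G, K))
    (o : Eu d)
    (hsym : (∀ K ∈ F, {x : Eu d | (2 : ℝ) • o - x ∈ K} ∈ F) ∨
      ((interior (⋂ K ∈ F, K)).Nonempty ∧
        ∀ x ∈ ⋂ K ∈ F, K, (2 : ℝ) • o - x ∈ ⋂ K ∈ F, K)) :
    ENNReal.ofReal (1 / Λ) ≤ Metric.ediam (⋂ K ∈ F, K) := by
  rcases hsym with h | ⟨h1, h2⟩
  · exact famRefl hd Λ hΛ core F hconv o h hF
  · exact famInt hd Λ hΛ core F hconv o h1 h2 hF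

end Pool.Agent.Helper6.Helly
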