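import Mathlib

/-!
Maxima over finite sets and the contraction inequality, used for MP_882a21_co.
-/

set_option autoImplicit false

namespace Pool.Agent.Helper6.Helly

open scoped BigOperators

section Functionals

variable {κ : Type*} [Fintype κ] [Nonempty κ]

/-- The maximum of a function on a finite set. -/
noncomputable def mx (φ : κ → ℝ) : ℝ := Finset.univ.sup' Finset.univ_nonempty φ

lemma le_mx (φ : κ → ℝ) (k : κ) : φ k ≤ mx φ := Finset.le_sup' φ (Finset.mem_univ k)

lemma mx_le (φ : κ → ℝ) (c : ℝ) (h : ∀ k, φ k ≤ c) : mx φ ≤ c :=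
  Finset.sup'_le _ _ fun k _ => h k

lemma exists_mx (φ : κ → ℝ) : ∃ k, mx φ = φ k := by
  obtain ⟨k, _, hk⟩ := Finset.exists_mem_eq_sup' (Finset.univ_nonempty (α := κ)) φ
  exact ⟨k, hk⟩

/-- Functionals for which the symmetrisation argument works. -/
structure Good (Φ : (κ → ℝ) → ℝ) : Prop where
  conv : ConvexOn ℝ Set.univ Φ
  con : ∀ φ u v : κ → ℝ, (∀ k k', |u k - u k'| ≤ |v k - v k'|) →
    Φ (φ + u) + Φ (φ - u) ≤ Φ (φ + v) + Φ (φ - v)

lemma good_mx : Good (mx : (κ → ℝ) → ℝ) := by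
  refine ⟨⟨convex_univ, ?_⟩, ?_⟩
  · intro x _ y _ a b ha hb _
    apply mx_le
    intro k
    simp only [Pi.add_apply, Pi.smul_apply, smul_eq_mul]
    exact add_le_add (mul_le_mul_of_nonneg_left (le_mx x k) ha)
      (mul_le_mul_of_nonneg_left (le_mx y k) hb)
  · intro φ u v h
    obtain ⟨k, hk⟩ := exists_mx (φ + u)
    obtain ⟨k', hk'⟩ := exists_mx (φ - u)
    rw [hk, hk']
    have h1 := le_mx (φ + v) k
    have h2 := le_mx (φ - v) k'
    have h3 := le_mx (φ - v) k
    have h4 := le_mx (φ + v) k'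
    simp only [Pi.add_apply, Pi.sub_apply] at *
    have h5 := h k k'
    have h6 := le_abs_self (u k - u k')
    rcases le_total (v k') (v k) with h7 | h7
    · rw [abs_of_nonneg (show 0 ≤ v k - v k' by linarith)] at h5
      linarith
    · rw [abs_of_nonpos (show v k - v k' ≤ 0 by linarith)] at h5
      linarith

lemma Good.mid {Φ : (κ → ℝ) → ℝ} (h : Good Φ) (x y : κ → ℝ) :
    Φ ((1 / 2 : ℝ) • x + (1 / 2 : ℝ) • y) ≤ (Φ x + Φ y) / 2 := by
  have h1 := h.conv.2 (Set.mem_univ x) (Set.mem_univ y) (by norm_num : (0 : ℝ) ≤ 1 / 2)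
    (by norm_num : (0 : ℝ) ≤ 1 / 2) (by norm_num)
  simp only [smul_eq_mul] at h1
  linarith

end Functionals

end Pool.Agent.Helper6.Helly
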