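import Mathlib
import Pool.Agent.Helper6.Helly.SymInter

/-!
Centre of symmetry different from the origin, and the two corollaries of the ellipsoid theorem
(MP_882a21_co): low dimensional intersections and intersections of few half-spaces.
-/

set_option autoImplicit false

namespace Pool.Agent.Helper6.Helly

open scoped BigOperators RealInnerProductSpace Topology

/-- The ellipsoid theorem for families closed under the reflection in a point `o`. -/
theorem ellipsoid1 {d : ℕ} (hd : 0 < d) (F : Finset (Set (Eu d)))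
    (hconv : ∀ K ∈ F, Convex ℝ K) (o : Eu d)
    (hneg : ∀ K ∈ F, {x : Eu d | (2 : ℝ) • o - x ∈ K} ∈ F)
    (hF : ∀ G ⊆ F, G.Nonempty → G.card ≤ 2 * d → 1 ≤ Metric.ediam (⋂ K ∈ G, K)) :
    ∃ c : Fin d → Eu d, (∀ i j, i ≠ j → ⟪c i, c j⟫ = 0) ∧
      1 / (5000 * (d : ℝ)) ≤ ∑ j, ‖c j‖ ^ 2 ∧
      ∀ u : Fin d → ℝ, ∑ j, u j ^ 2 ≤ 1 → ∀ K ∈ F, o + ∑ j, u j • c j ∈ K := by
  classical
  let tr : Set (Eu d) → Set (Eu d) := fun K => {x | o + x ∈ K}
  have htrinj : Function.Injective tr := by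
    intro K K' h
    ext x
    have h1 : (x - o ∈ tr K) ↔ (x - o ∈ tr K') := by rw [h]
    simpa [tr] using h1
  set F' : Finset (Set (Eu d)) := F.image tr with hF'
  obtain ⟨c, hc1, hc2, hc3⟩ := ellipsoid hd F' (by
    intro K' hK'
    obtain ⟨K, hK, rfl⟩ := Finset.mem_image.1 hK'
    exact (hconv K hK).translate_preimage_right o) (by
    intro K' hK'
    obtain ⟨K, hK, rfl⟩ := Finset.mem_image.1 hK'
    refine Finset.mem_image.2 ⟨_, hneg K hK, ?_⟩
    ext x
    simp only [tr, ngt, Set.mem_ofPred_eq]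
    have : (2 : ℝ) • o - (o + x) = o + -x := by rw [two_smul]; abel
    rw [this]) (by
    intro G' hG' hGne hGcard
    set G : Finset (Set (Eu d)) := F.filter (fun K => tr K ∈ G') with hG
    have hGim : G.image tr = G' := by
      ext K'
      constructor
      · intro h
        obtain ⟨K, hK, rfl⟩ := Finset.mem_image.1 h
        exact (Finset.mem_filter.1 hK).2
      · intro h
        obtain ⟨K, hK, rfl⟩ := Finset.mem_image.1 (hG' h)
        exact Finset.mem_image.2 ⟨K, Finset.mem_filter.2 ⟨hK, h⟩, rfl⟩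
    have hcard : G.card = G'.card := by
      rw [← hGim, Finset.card_image_of_injective _ htrinj]
    have hne : G.Nonempty := by
      rw [← Finset.card_pos, hcard]
      exact Finset.card_pos.2 hGne
    have h1 := hF G (Finset.filter_subset _ _) hne (by rw [hcard]; exact hGcard)
    refine h1.trans ?_
    apply Metric.ediam_le
    intro x hx y hy
    have h2 : ∀ x ∈ ⋂ K ∈ G, K, x - o ∈ ⋂ K ∈ G', K := by
      intro x hx
      refine Set.mem_iInter₂.2 fun K' hK' => ?_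
      rw [← hGim] at hK'
      obtain ⟨K, hK, rfl⟩ := Finset.mem_image.1 hK'
      show o + (x - o) ∈ K
      rw [add_sub_cancel]
      exact Set.mem_iInter₂.1 hx K hK
    have h3 : edist x y = edist (x - o) (y - o) := by
      rw [edist_sub_right]
    rw [h3]
    exact Metric.edist_le_ediam_of_mem (h2 x hx) (h2 y hy))
  refine ⟨c, hc1, hc2, fun u hu K hK => ?_⟩
  exact hc3 u hu (tr K) (Finset.mem_image_of_mem tr hK)

/-- Low dimensional sets containing a large ellipsoid have large diameter. -/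
theorem diam_dim {d : ℕ} (hd : 0 < d) (Q : Set (Eu d)) (o : Eu d) (c : Fin d → Eu d)
    (hc1 : ∀ i j, i ≠ j → ⟪c i, c j⟫ = 0) (hc2 : 1 / (5000 * (d : ℝ)) ≤ ∑ j, ‖c j‖ ^ 2)
    (hc3 : ∀ u : Fin d → ℝ, ∑ j, u j ^ 2 ≤ 1 → o + ∑ j, u j • c j ∈ Q) (k : ℕ)
    (hk : Module.finrank ℝ (vectorSpan ℝ Q) ≤ k) :
    ENNReal.ofReal (1 / (36 * √((d : ℝ) * k))) ≤ Metric.ediam Q := by
  classical
  have hd' : (0 : ℝ) < d := by exact_mod_cast hd
  have hsingle : ∀ (j : Fin d) (t : ℝ), ∑ i, (Pi.single j t : Fin d → ℝ) i • c i = t • c j := by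
    intro j t
    rw [Finset.sum_eq_single j]
    · simp
    · intro i _ hij
      simp [Pi.single_eq_of_ne hij]
    · intro h; exact absurd (Finset.mem_univ j) h
  have hmem : ∀ (j : Fin d) (t : ℝ), t ^ 2 ≤ 1 → o + t • c j ∈ Q := by
    intro j t ht
    rw [← hsingle]
    apply hc3
    rw [Finset.sum_eq_single j]
    · simpa using ht
    · intro i _ hij
      simp [Pi.single_eq_of_ne hij]
    · intro h; exact absurd (Finset.mem_univ j) h
  set J : Finset (Fin d) := Finset.univ.filter (fun j => c j ≠ 0) with hJ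
  -- at most `k` nonzero semi-axes
  have hJk : J.card ≤ k := by
    have hli : LinearIndependent ℝ (fun j : J => c j) := by
      apply linearIndependent_of_ne_zero_of_inner_eq_zero (𝕜 := ℝ)
      · intro j
        exact (Finset.mem_filter.1 j.2).2
      · intro i j hij
        exact hc1 i j (fun h => hij (Subtype.ext h))
    have h1 := finrank_span_eq_card hli
    have h2 : Submodule.span ℝ (Set.range (fun j : J => c j)) ≤ vectorSpan ℝ Q := by
      rw [Submodule.span_le]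
      rintro _ ⟨j, rfl⟩
      have h3 := vsub_mem_vectorSpan ℝ (hmem j 1 (by norm_num)) (hmem j 0 (by norm_num))
      simpa using h3
    have h3 := Submodule.finrank_mono h2
    rw [h1, Fintype.card_coe] at h3
    exact h3.trans hk
  obtain ⟨j, hj⟩ : ∃ j, 1 / (5000 * ((d : ℝ) * k)) ≤ ‖c j‖ ^ 2 := by
    by_contra hcon
    push Not at hcon
    have h1 : ∑ j, ‖c j‖ ^ 2 = ∑ j ∈ J, ‖c j‖ ^ 2 := by
      rw [← Finset.sum_filter_add_sum_filter_not Finset.univ (fun j => c j ≠ 0)]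
      have : ∑ j ∈ Finset.univ.filter (fun j => ¬ (c j ≠ 0)), ‖c j‖ ^ 2 = 0 := by
        apply Finset.sum_eq_zero
        intro j hj
        have := (Finset.mem_filter.1 hj).2
        push Not at this
        rw [this]; simp
      rw [this, add_zero]
    have hpos : 0 < 1 / (5000 * (d : ℝ)) := by positivity
    have hJne : J.Nonempty := by
      by_contra h
      rw [Finset.not_nonempty_iff_eq_empty] at h
      rw [h1, h, Finset.sum_empty] at hc2
      linarith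
    have h2 : ∑ j ∈ J, ‖c j‖ ^ 2 < ∑ j ∈ J, 1 / (5000 * ((d : ℝ) * k)) :=
      Finset.sum_lt_sum_of_nonempty hJne fun j _ => hcon j
    rw [Finset.sum_const, nsmul_eq_mul] at h2
    have hJpos : 0 < J.card := Finset.card_pos.2 hJne
    have hkpos : (0 : ℝ) < k := by exact_mod_cast (lt_of_lt_of_le hJpos hJk)
    have h3 : (J.card : ℝ) * (1 / (5000 * ((d : ℝ) * k))) ≤ 1 / (5000 * (d : ℝ)) := by
      have h4 : (J.card : ℝ) ≤ k := by exact_mod_cast hJk
      calc (J.card : ℝ) * (1 / (5000 * ((d : ℝ) * k))) ≤ k * (1 / (5000 * ((d : ℝ) * k))) :=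
            mul_le_mul_of_nonneg_right h4 (by positivity)
        _ = 1 / (5000 * (d : ℝ)) := by field_simp
    linarith
  have h1 : edist (o + (1 : ℝ) • c j) (o + (-1 : ℝ) • c j) ≤ Metric.ediam Q :=
    Metric.edist_le_ediam_of_mem (hmem j 1 (by norm_num)) (hmem j (-1) (by norm_num))
  refine le_trans ?_ h1
  rw [edist_dist]
  apply ENNReal.ofReal_le_ofReal
  have h2 : dist (o + (1 : ℝ) • c j) (o + (-1 : ℝ) • c j) = 2 * ‖c j‖ := by
    rw [dist_eq_norm]
    have : o + (1 : ℝ) • c j - (o + (-1 : ℝ) • c j) = (2 : ℝ) • c j := by module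
    rw [this, norm_smul]
    simp
  rw [h2]
  rcases Nat.eq_zero_or_pos k with hk0 | hk0
  · rw [hk0]; simp
  have hkpos : (0 : ℝ) < k := by exact_mod_cast hk0
  have hdk : (0 : ℝ) < (d : ℝ) * k := mul_pos hd' hkpos
  have hs : 0 < √((d : ℝ) * k) := Real.sqrt_pos.2 hdk
  rw [div_le_iff₀ (by positivity)]
  by_contra hcon
  push Not at hcon
  have h3 : (2 * ‖c j‖ * (36 * √((d : ℝ) * k))) ^ 2 < 1 ^ 2 :=
    pow_lt_pow_left₀ hcon (by positivity) two_ne_zero
  have h4 : (2 * ‖c j‖ * (36 * √((d : ℝ) * k))) ^ 2 = 5184 * ((d : ℝ) * k) * ‖c j‖ ^ 2 := by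
    rw [mul_pow, mul_pow, mul_pow, Real.sq_sqrt hdk.le]
    ring
  rw [h4] at h3
  rw [div_le_iff₀ (by positivity)] at hj
  nlinarith

lemma sum_exp {ι : Type} [Fintype ι] [DecidableEq ι] (w : ι → ℝ) (hw : ∑ j, w j ^ 2 ≤ 1)
    (θ : ℝ) :
    ∑ σ : ι → Bool, Real.exp (θ * ∑ j, sg (σ j) * w j) ≤
      (Fintype.card (ι → Bool) : ℝ) * Real.exp (θ ^ 2 / 2) := by
  have h1 : ∀ σ : ι → Bool, Real.exp (θ * ∑ j, sg (σ j) * w j) =
      ∏ j, Real.exp (θ * (sg (σ j) * w j)) := by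
    intro σ
    rw [Finset.mul_sum, Real.exp_sum]
  simp only [h1]
  have h2 : ∑ σ : ι → Bool, ∏ j, Real.exp (θ * (sg (σ j) * w j)) =
      ∏ j, ∑ b : Bool, Real.exp (θ * (sg b * w j)) := by
    rw [Finset.prod_univ_sum]
    rw [Fintype.piFinset_univ]
  rw [h2]
  have h3 : ∀ j, ∑ b : Bool, Real.exp (θ * (sg b * w j)) ≤ 2 * Real.exp (θ ^ 2 * w j ^ 2 / 2) := by
    intro j
    rw [Fintype.sum_bool]
    simp only [sg, if_true, Bool.false_eq_true, if_false]
    have h4 := Real.cosh_le_exp_half_sq (θ * w j)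
    rw [Real.cosh_eq] at h4
    have h5 : θ * (1 * w j) = θ * w j := by ring
    have h6 : θ * (-1 * w j) = -(θ * w j) := by ring
    rw [h5, h6]
    have h7 : (θ * w j) ^ 2 / 2 = θ ^ 2 * w j ^ 2 / 2 := by ring
    rw [h7] at h4
    linarith
  calc ∏ j, ∑ b : Bool, Real.exp (θ * (sg b * w j)) ≤
        ∏ j, (2 * Real.exp (θ ^ 2 * w j ^ 2 / 2)) :=
        Finset.prod_le_prod (fun j _ => Finset.sum_nonneg fun b _ => (Real.exp_pos _).le)
          (fun j _ => h3 j)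
    _ = 2 ^ (Fintype.card ι) * Real.exp (∑ j, θ ^ 2 * w j ^ 2 / 2) := by
        rw [Finset.prod_mul_distrib, Finset.prod_const, Finset.card_univ, Real.exp_sum]
    _ ≤ (Fintype.card (ι → Bool) : ℝ) * Real.exp (θ ^ 2 / 2) := by
        rw [Fintype.card_fun, Fintype.card_bool]
        push_cast
        apply mul_le_mul_of_nonneg_left _ (by positivity)
        apply Real.exp_le_exp.2
        have h8 : ∑ j, θ ^ 2 * w j ^ 2 / 2 = θ ^ 2 / 2 * ∑ j, w j ^ 2 := by
          rw [Finset.mul_sum]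
          refine Finset.sum_congr rfl fun j _ => ?_
          ring
        rw [h8]
        nlinarith [sq_nonneg θ]

lemma final_est (d l τ θ : ℝ) (hd : 0 < d) (hl : 0 < l) (hθ : 0 < θ) (hθ2 : θ ^ 2 = 2 * l)
    (hτ : 1 / (5000 * d) ≤ τ) : 1 / (50 * √(d * l)) ≤ 2 * √τ / θ := by
  have hτ0 : 0 < τ := lt_of_lt_of_le (by positivity) hτ
  have hdl : 0 < d * l := mul_pos hd hl
  have hs : 0 < √(d * l) := Real.sqrt_pos.2 hdl
  rw [div_le_div_iff₀ (by positivity) hθ, one_mul]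
  by_contra hcon
  push Not at hcon
  have h3 : (2 * √τ * (50 * √(d * l))) ^ 2 < θ ^ 2 :=
    pow_lt_pow_left₀ hcon (by positivity) two_ne_zero
  have h4 : (2 * √τ * (50 * √(d * l))) ^ 2 = 10000 * τ * (d * l) := by
    rw [mul_pow, mul_pow, mul_pow, Real.sq_sqrt hdl.le, Real.sq_sqrt hτ0.le]
    ring
  rw [h4, hθ2] at h3
  rw [div_le_iff₀ (by positivity)] at hτ
  nlinarith

lemma ediam_lim {d : ℕ} (Q : Set (Eu d)) (s θ C : ℝ) (hs : 0 < s) (hθ : 0 < θ)
    (hdiam : ∀ t : ℝ, 0 ≤ t → t < 1 / θ → ENNReal.ofReal (2 * t * s) ≤ Metric.ediam Q)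
    (hC : C ≤ 2 * s / θ) : ENNReal.ofReal C ≤ Metric.ediam Q := by
  by_contra hcon
  push Not at hcon
  have hDtop : Metric.ediam Q ≠ ⊤ := ne_top_of_lt hcon
  have hD0 : 0 ≤ (Metric.ediam Q).toReal := ENNReal.toReal_nonneg
  have hDlt : (Metric.ediam Q).toReal < C := ENNReal.toReal_lt_of_lt_ofReal hcon
  have h1 : (Metric.ediam Q).toReal / (2 * s) < 1 / θ := by
    rw [div_lt_div_iff₀ (by positivity) hθ]
    have h2 : (Metric.ediam Q).toReal < 2 * s / θ := lt_of_lt_of_le hDlt hC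
    rw [lt_div_iff₀ hθ] at h2
    linarith
  have h0 : 0 ≤ (Metric.ediam Q).toReal / (2 * s) := by positivity
  have h2 := hdiam (((Metric.ediam Q).toReal / (2 * s) + 1 / θ) / 2) (by linarith) (by linarith)
  have h3 : 2 * (((Metric.ediam Q).toReal / (2 * s) + 1 / θ) / 2) * s ≤
      (Metric.ediam Q).toReal := by
    exact (ENNReal.ofReal_le_ofReal_iff hD0).1 (h2.trans (ENNReal.ofReal_toReal hDtop).ge)
  have h4 : (Metric.ediam Q).toReal / (2 * s) * (2 * s) = (Metric.ediam Q).toReal :=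
    div_mul_cancel₀ _ (by positivity)
  have h5 : (Metric.ediam Q).toReal < 1 / θ * (2 * s) := by
    rwa [div_lt_iff₀ (by positivity)] at h1
  nlinarith

/-- The coefficients of a half-space relative to the ellipsoid. -/
lemma half_coeff {d : ℕ} (h : Set (Eu d)) (o : Eu d) (c : Fin d → Eu d)
    (hc3 : ∀ u : Fin d → ℝ, ∑ j, u j ^ 2 ≤ 1 → o + ∑ j, u j • c j ∈ h)
    (hH : ∃ (a : Eu d) (b : ℝ), h = {x | ⟪a, x⟫ ≤ b} ∨ h = {x | ⟪a, x⟫ < b})
    (θ : ℝ) (hθ0 : 0 < θ) :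
    ∃ w : Fin d → ℝ, ∑ j, w j ^ 2 ≤ 1 ∧
      ∀ (σ : Fin d → Bool), ∑ j, sg (σ j) * w j ≤ θ → ∀ t : ℝ, 0 ≤ t → t < 1 / θ →
        o + t • ∑ j, sg (σ j) • c j ∈ h := by
  obtain ⟨a, b, hab⟩ := hH
  have hin : ∀ u : Fin d → ℝ, ∑ j, u j ^ 2 ≤ 1 → ∑ j, u j * ⟪a, c j⟫ ≤ b - ⟪a, o⟫ := by
    intro u hu
    have h1 : o + ∑ j, u j • c j ∈ h := hc3 u hu
    have h2 : ⟪a, o + ∑ j, u j • c j⟫ ≤ b := by
      rcases hab with rfl | rfl
      · exact h1
      · exact le_of_lt h1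
    rw [inner_add_right, inner_sum] at h2
    simp only [real_inner_smul_right] at h2
    linarith
  have hb0 : 0 ≤ b - ⟪a, o⟫ := by
    have := hin 0 (by simp)
    simpa using this
  -- `⟪a, c j⟫ = (b - ⟪a, o⟫) w j`
  obtain ⟨w, hw1, hw2⟩ : ∃ w : Fin d → ℝ, ∑ j, w j ^ 2 ≤ 1 ∧
      ∀ j, ⟪a, c j⟫ = (b - ⟪a, o⟫) * w j := by
    rcases hb0.eq_or_lt with h0 | h0
    · refine ⟨0, by simp, fun j => ?_⟩
      have h1 := hin (Pi.single j 1) (by simp [Pi.single_apply])
      have h2 := hin (Pi.single j (-1)) (by simp [Pi.single_apply])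
      simp only [Pi.single_apply, ite_mul, one_mul, zero_mul, neg_mul, Finset.sum_ite_eq',
        Finset.mem_univ, if_true] at h1 h2
      rw [← h0] at h1 h2
      simp only [Pi.zero_apply, mul_zero]
      linarith
    · refine ⟨fun j => ⟪a, c j⟫ / (b - ⟪a, o⟫), ?_, fun j => ?_⟩
      · set S : ℝ := ∑ j, ⟪a, c j⟫ ^ 2 with hS
        have hS0 : 0 ≤ S := Finset.sum_nonneg fun j _ => sq_nonneg _
        have h1 : ∑ j, (⟪a, c j⟫ / (b - ⟪a, o⟫)) ^ 2 = S / (b - ⟪a, o⟫) ^ 2 := by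
          rw [hS, Finset.sum_div]
          refine Finset.sum_congr rfl fun j _ => ?_
          rw [div_pow]
        rw [h1, div_le_one (by positivity)]
        rcases hS0.eq_or_lt with h2 | h2
        · rw [← h2]; positivity
        · have hsS : 0 < √S := Real.sqrt_pos.2 h2
          have h3 := hin (fun j => ⟪a, c j⟫ / √S) (by
            have : ∑ j, (⟪a, c j⟫ / √S) ^ 2 = S / √S ^ 2 := by
              rw [hS, Finset.sum_div]
              refine Finset.sum_congr rfl fun j _ => ?_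
              rw [div_pow]
            rw [this, Real.sq_sqrt hS0, div_self h2.ne'])
          have h4 : ∑ j, ⟪a, c j⟫ / √S * ⟪a, c j⟫ = √S := by
            have : ∑ j, ⟪a, c j⟫ / √S * ⟪a, c j⟫ = S / √S := by
              rw [hS, Finset.sum_div]
              refine Finset.sum_congr rfl fun j _ => ?_
              ring
            rw [this, Real.div_sqrt]
          rw [h4] at h3
          calc S = √S ^ 2 := (Real.sq_sqrt hS0).symm
            _ ≤ (b - ⟪a, o⟫) ^ 2 := pow_le_pow_left₀ hsS.le h3 2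
      · rw [mul_div_cancel₀ _ h0.ne']
  refine ⟨w, hw1, fun σ hσ t ht0 ht1 => ?_⟩
  have h1 : ⟪a, o + t • ∑ j, sg (σ j) • c j⟫ =
      ⟪a, o⟫ + t * ((b - ⟪a, o⟫) * ∑ j, sg (σ j) * w j) := by
    rw [inner_add_right, real_inner_smul_right, inner_sum]
    congr 2
    rw [Finset.mul_sum]
    refine Finset.sum_congr rfl fun j _ => ?_
    rw [real_inner_smul_right, hw2 j]
    ring
  have htθ : t * θ < 1 := by rwa [lt_div_iff₀ hθ0] at ht1
  have h2 : t * ((b - ⟪a, o⟫) * ∑ j, sg (σ j) * w j) ≤ (b - ⟪a, o⟫) * (t * θ) := by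
    have h3 : (b - ⟪a, o⟫) * t * ∑ j, sg (σ j) * w j ≤ (b - ⟪a, o⟫) * t * θ :=
      mul_le_mul_of_nonneg_left hσ (mul_nonneg hb0 ht0)
    calc t * ((b - ⟪a, o⟫) * ∑ j, sg (σ j) * w j) =
          (b - ⟪a, o⟫) * t * ∑ j, sg (σ j) * w j := by ring
      _ ≤ (b - ⟪a, o⟫) * t * θ := h3
      _ = _ := by ring
  rcases hab with rfl | rfl
  · show ⟪a, o + t • ∑ j, sg (σ j) • c j⟫ ≤ b
    rw [h1]
    have h3 : (b - ⟪a, o⟫) * (t * θ) ≤ (b - ⟪a, o⟫) * 1 :=
      mul_le_mul_of_nonneg_left htθ.le hb0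
    linarith
  · show ⟪a, o + t • ∑ j, sg (σ j) • c j⟫ < b
    rw [h1]
    have hb1 : 0 < b - ⟪a, o⟫ := by
      have h3 : o ∈ {x : Eu d | ⟪a, x⟫ < b} := by
        have h4 := hc3 0 (by simp)
        simpa using h4
      have h3 : ⟪a, o⟫ < b := h3
      linarith
    have h3 : (b - ⟪a, o⟫) * (t * θ) < (b - ⟪a, o⟫) * 1 :=
      mul_lt_mul_of_pos_left htθ hb1
    linarith

/-- Intersections of few half-spaces containing a large ellipsoid have large diameter. -/
theorem diam_half {d : ℕ} (hd : 0 < d) (Q : Set (Eu d)) (o : Eu d) (c : Fin d → Eu d)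
    (hc1 : ∀ i j, i ≠ j → ⟪c i, c j⟫ = 0) (hc2 : 1 / (5000 * (d : ℝ)) ≤ ∑ j, ‖c j‖ ^ 2)
    (hc3 : ∀ u : Fin d → ℝ, ∑ j, u j ^ 2 ≤ 1 → o + ∑ j, u j • c j ∈ Q)
    (hsym : ∀ x ∈ Q, (2 : ℝ) • o - x ∈ Q) (H : Finset (Set (Eu d)))
    (hH : ∀ h ∈ H, ∃ (a : Eu d) (b : ℝ), h = {x | ⟪a, x⟫ ≤ b} ∨ h = {x | ⟪a, x⟫ < b})
    (hQ : Q = ⋂ h ∈ H, h) :
    ENNReal.ofReal (1 / (50 * √((d : ℝ) * Real.log H.card))) ≤ Metric.ediam Q := by
  classical
  have hd' : (0 : ℝ) < d := by exact_mod_cast hd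
  by_cases hN : H.card ≤ 1
  · have h1 : Real.log H.card = 0 := by
      interval_cases h : H.card
      · simp
      · simp
    rw [h1]; simp
  push Not at hN
  have hN' : (1 : ℝ) < H.card := by exact_mod_cast hN
  have hlog : 0 < Real.log H.card := Real.log_pos hN'
  set N : ℝ := (H.card : ℝ) with hNdef
  set θ : ℝ := √(2 * Real.log N) with hθ
  have hθ0 : 0 < θ := Real.sqrt_pos.2 (by linarith)
  have hθ2 : θ ^ 2 = 2 * Real.log N := Real.sq_sqrt (by linarith)
  set τ : ℝ := ∑ j, ‖c j‖ ^ 2 with hτ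
  have hτ0 : 0 < τ := lt_of_lt_of_le (by positivity) hc2
  -- the normalised coefficients of a half-space
  have hw : ∀ h ∈ H, ∃ w : Fin d → ℝ, ∑ j, w j ^ 2 ≤ 1 ∧
      ∀ (σ : Fin d → Bool), ∑ j, sg (σ j) * w j ≤ θ → ∀ t : ℝ, 0 ≤ t → t < 1 / θ →
        o + t • ∑ j, sg (σ j) • c j ∈ h := by
    intro h hh
    refine half_coeff h o c (fun u hu => ?_) (hH h hh) θ hθ0
    have := hc3 u hu
    rw [hQ] at this
    exact Set.mem_iInter₂.1 this h hh
  choose! w hw1 hw2 using hw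
  -- a good sign vector
  obtain ⟨σ, hσ⟩ : ∃ σ : Fin d → Bool,
      ∑ h ∈ H, Real.exp (θ * ∑ j, sg (σ j) * w h j) ≤ N * Real.exp (θ ^ 2 / 2) := by
    by_contra hcon
    push Not at hcon
    have h1 : ∑ σ : Fin d → Bool, N * Real.exp (θ ^ 2 / 2) <
        ∑ σ : Fin d → Bool, ∑ h ∈ H, Real.exp (θ * ∑ j, sg (σ j) * w h j) :=
      Finset.sum_lt_sum_of_nonempty Finset.univ_nonempty fun σ _ => hcon σ
    rw [Finset.sum_comm] at h1
    have h2 : ∑ h ∈ H, ∑ σ : Fin d → Bool, Real.exp (θ * ∑ j, sg (σ j) * w h j) ≤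
        ∑ h ∈ H, (Fintype.card (Fin d → Bool) : ℝ) * Real.exp (θ ^ 2 / 2) :=
      Finset.sum_le_sum fun h hh => sum_exp (w h) (hw1 h hh) θ
    rw [Finset.sum_const, nsmul_eq_mul] at h2
    rw [Finset.sum_const, Finset.card_univ, nsmul_eq_mul] at h1
    have h3 : (Fintype.card (Fin d → Bool) : ℝ) * (N * Real.exp (θ ^ 2 / 2)) =
        (H.card : ℝ) * ((Fintype.card (Fin d → Bool) : ℝ) * Real.exp (θ ^ 2 / 2)) := by
      rw [hNdef]; ring
    linarith
  have hσ' : ∀ h ∈ H, ∑ j, sg (σ j) * w h j ≤ θ := by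
    intro h hh
    have h1 : Real.exp (θ * ∑ j, sg (σ j) * w h j) ≤ N * Real.exp (θ ^ 2 / 2) :=
      (Finset.single_le_sum (f := fun h => Real.exp (θ * ∑ j, sg (σ j) * w h j))
        (fun h _ => (Real.exp_pos _).le) hh).trans hσ
    have h2 : N * Real.exp (θ ^ 2 / 2) = Real.exp (θ ^ 2) := by
      have h3 : N = Real.exp (Real.log N) := (Real.exp_log (by linarith)).symm
      rw [h3, ← Real.exp_add]
      congr 1
      linarith
    rw [h2] at h1
    have h3 := Real.exp_le_exp.1 h1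
    have h4 : θ * ∑ j, sg (σ j) * w h j ≤ θ * θ := by rw [← sq]; exact h3
    exact le_of_mul_le_mul_left h4 hθ0
  set x : Eu d := ∑ j, sg (σ j) • c j with hx
  have hxn : ‖x‖ ^ 2 = τ := by
    rw [← real_inner_self_eq_norm_sq, hx, sum_inner]
    rw [hτ]
    refine Finset.sum_congr rfl fun i _ => ?_
    rw [inner_sum, Finset.sum_eq_single i]
    · rw [real_inner_smul_left, real_inner_smul_right, real_inner_self_eq_norm_sq, ← mul_assoc,
        sg_mul_self, one_mul]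
    · intro j _ hj
      rw [real_inner_smul_left, real_inner_smul_right, hc1 i j hj.symm]
      simp
    · intro h; exact absurd (Finset.mem_univ i) h
  have hxQ : ∀ t : ℝ, 0 ≤ t → t < 1 / θ → o + t • x ∈ Q := by
    intro t ht0 ht1
    rw [hQ]
    exact Set.mem_iInter₂.2 fun h hh => hw2 h hh σ (hσ' h hh) t ht0 ht1
  have hxnorm : ‖x‖ = √τ := by rw [← hxn, Real.sqrt_sq (norm_nonneg _)]
  have hdiam : ∀ t : ℝ, 0 ≤ t → t < 1 / θ → ENNReal.ofReal (2 * t * √τ) ≤ Metric.ediam Q := by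
    intro t ht0 ht1
    have h1 := hxQ t ht0 ht1
    have h2 := hsym _ h1
    have h3 : edist (o + t • x) ((2 : ℝ) • o - (o + t • x)) ≤ Metric.ediam Q :=
      Metric.edist_le_ediam_of_mem h1 h2
    refine le_trans (le_of_eq ?_) h3
    rw [edist_dist, dist_eq_norm]
    congr 1
    have h4 : o + t • x - ((2 : ℝ) • o - (o + t • x)) = (2 * t) • x := by module
    rw [h4, norm_smul, Real.norm_eq_abs, abs_of_nonneg (by linarith), hxnorm]
  -- conclusion
  have hgoal : 1 / (50 * √((d : ℝ) * Real.log N)) ≤ 2 * √τ / θ := by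
    exact final_est d (Real.log N) τ θ hd' hlog hθ0 hθ2 hc2
  exact ediam_lim Q (√τ) θ _ (Real.sqrt_pos.2 hτ0) hθ0 hdiam hgoal

end Pool.Agent.Helper6.Helly
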