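import Mathlib
import Pool.Agent.Helper6.Helly.DOptQ
import Pool.Agent.Helper6.Helly.CoreE
import Pool.Agent.Helper6.Helly.Cert
import Pool.Agent.Helper6.Helly.Iter
import Pool.Agent.Helper6.Helly.FamQ
import Pool.Agent.Helper15.QH.Halving
import Pool.Agent.Helper98.QH.LevelSigns

/-!
Core theorem for symmetric polytopes (MP_882a21_co): `2 d` facets of a symmetric polytope in the
unit ball cut out a set of radius `O(√(d (1 + log d)))`.
-/

set_option autoImplicit false

namespace Pool.Agent.Helper6.Helly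

open scoped BigOperators Matrix RealInnerProductSpace

theorem halvingStmt : HalvingStmt := fun _ _ x x' J V C hV hC ρ Λ hρ hΛ =>
  Pool.Agent.Helper15.QH.halving x x' J V C hV hC ρ Λ hρ hΛ

/-- The D-optimal frame in Euclidean space. -/
theorem frame {d : ℕ} (A : Finset (EuclideanSpace ℝ (Fin d)))
    (hA : ∀ y : EuclideanSpace ℝ (Fin d), ∃ a ∈ A, ‖y‖ ≤ ⟪a, y⟫) :
    ∃ n k : ℕ, n = d + k ∧ (n : ℝ) * (255 / 256) ≤ d ∧
      ∃ (t ts : Fin n → EuclideanSpace ℝ (Fin d)) (P : Matrix (Fin n) (Fin n) ℝ),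
        (∀ i, t i ∈ A) ∧ Pᵀ = P ∧ P * P = P ∧ (∀ i, P i i ≤ 1 / 256) ∧ P.trace = k ∧
        (∀ Z : Fin n → ℝ, P *ᵥ Z = Z → ∑ i, Z i • t i = 0) ∧
        (∀ y : EuclideanSpace ℝ (Fin d), ∑ i, ⟪t i, y⟫ • ts i = y) ∧
        (∀ a ∈ A, ∑ i, ⟪ts i, a⟫ ^ 2 ≤ 255) := by
  classical
  set A' : Finset (Fin d → ℝ) := A.image (fun p => p.ofLp) with hA'
  have hspan' : Submodule.span ℝ (A' : Set (Fin d → ℝ)) = ⊤ := by
    have h1 : Submodule.span ℝ (A : Set (EuclideanSpace ℝ (Fin d))) = ⊤ := by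
      rw [← Submodule.orthogonal_eq_bot_iff, Submodule.eq_bot_iff]
      intro x hx
      obtain ⟨a, ha, h⟩ := hA x
      have h2 : ⟪a, x⟫ = 0 :=
        (Submodule.mem_orthogonal _ _).1 hx a (Submodule.subset_span ha)
      rw [h2] at h
      exact norm_le_zero_iff.1 h
    have h2 : (A' : Set (Fin d → ℝ)) =
        (WithLp.linearEquiv 2 ℝ (Fin d → ℝ)) '' (A : Set (EuclideanSpace ℝ (Fin d))) := by
      rw [hA', Finset.coe_image]
      rfl
    have h3 := Submodule.span_image (R := ℝ) (s := (A : Set (EuclideanSpace ℝ (Fin d))))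
      (WithLp.linearEquiv 2 ℝ (Fin d → ℝ)).toLinearMap
    rw [h2]
    refine h3.trans ?_
    rw [h1, Submodule.map_top]
    exact LinearEquiv.range _
  obtain ⟨n, hn1, hn2, t, htA, hPD, hlev, _, hadd⟩ := doptQ A' hspan' 256 (by norm_num)
  set M := gm t with hM
  have hunit : IsUnit M.det := hPD.det_pos.ne'.isUnit
  set X := M⁻¹ with hX
  have hXPD : X.PosDef := hPD.inv
  have hXs : Xᵀ = X := by
    have := hXPD.isHermitian
    simpa [Matrix.IsHermitian, Matrix.conjTranspose_eq_transpose_of_trivial] using this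
  set G : Matrix (Fin n) (Fin d) ℝ := Matrix.of t with hG
  have hGG : Gᵀ * G = M := rfl
  have hXM : X * M = 1 := Matrix.nonsing_inv_mul _ hunit
  have hMX : M * X = 1 := Matrix.mul_nonsing_inv _ hunit
  set Q : Matrix (Fin n) (Fin n) ℝ := G * X * Gᵀ with hQ
  have hQs : Qᵀ = Q := by
    rw [hQ, Matrix.transpose_mul, Matrix.transpose_mul, Matrix.transpose_transpose, hXs,
      Matrix.mul_assoc]
  have hQi : Q * Q = Q := by
    calc Q * Q = G * X * (Gᵀ * G) * X * Gᵀ := by simp only [hQ, Matrix.mul_assoc]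
      _ = G * (X * M) * X * Gᵀ := by rw [hGG]; simp only [Matrix.mul_assoc]
      _ = Q := by rw [hXM, Matrix.mul_one]
  set P : Matrix (Fin n) (Fin n) ℝ := 1 - Q with hP
  have hPs : Pᵀ = P := by rw [hP, Matrix.transpose_sub, Matrix.transpose_one, hQs]
  have hPi : P * P = P := by
    rw [hP, Matrix.sub_mul, Matrix.mul_sub, Matrix.mul_sub, Matrix.one_mul, Matrix.mul_one,
      hQi]
    simp
  have hQdiag : ∀ i, Q i i = t i ⬝ᵥ X *ᵥ t i := by
    intro i
    rw [hQ, Matrix.mul_assoc, Matrix.mul_apply, dotProduct]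
    refine Finset.sum_congr rfl fun a _ => ?_
    rw [Matrix.mul_apply, Matrix.mulVec, dotProduct]
    rfl
  have hPdiag : ∀ i, P i i ≤ 1 / 256 := by
    intro i
    rw [hP, Matrix.sub_apply, Matrix.one_apply_eq, hQdiag]
    linarith [hlev i]
  have hPtr : P.trace = ((n - d : ℕ) : ℝ) := by
    rw [hP, Matrix.trace_sub, Matrix.trace_one, hQ, Matrix.trace_mul_comm, ← Matrix.mul_assoc,
      hGG, hMX, Matrix.trace_one, Fintype.card_fin, Fintype.card_fin, Nat.cast_sub hn1]
  have hdot : ∀ (u : Fin n → ℝ) (v : Fin d → ℝ), u ⬝ᵥ (G *ᵥ v) = (Gᵀ *ᵥ u) ⬝ᵥ v := by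
    intro u v
    rw [Matrix.dotProduct_mulVec, Matrix.mulVec_transpose]
  have hGsum : ∀ u : Fin n → ℝ, Gᵀ *ᵥ u = ∑ i, u i • t i := by
    intro u
    funext j
    rw [Finset.sum_apply]
    simp only [Matrix.mulVec, dotProduct, Matrix.transpose_apply, hG, Matrix.of_apply,
      Pi.smul_apply, smul_eq_mul]
    exact Finset.sum_congr rfl fun i _ => mul_comm _ _
  refine ⟨n, n - d, by omega, by norm_num at hn2 ⊢; exact hn2,
    fun i => WithLp.toLp 2 (t i), fun i => WithLp.toLp 2 (X *ᵥ t i), P, ?_, hPs, hPi, hPdiag,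
    hPtr, ?_, ?_, ?_⟩
  · intro i
    obtain ⟨p, hp, h⟩ := Finset.mem_image.1 (htA i)
    have h2 : (WithLp.toLp 2 (t i) : EuclideanSpace ℝ (Fin d)) = p := by rw [← h]
    show (WithLp.toLp 2 (t i) : EuclideanSpace ℝ (Fin d)) ∈ A
    rw [h2]; exact hp
  · intro Z hZ
    have h1 : Q *ᵥ Z = 0 := by
      have h2 : P *ᵥ Z = Z - Q *ᵥ Z := by rw [hP, Matrix.sub_mulVec, Matrix.one_mulVec]
      rw [h2] at hZ
      exact sub_eq_self.1 hZ
    have h3 : Gᵀ *ᵥ (Q *ᵥ Z) = Gᵀ *ᵥ Z := by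
      rw [Matrix.mulVec_mulVec, hQ, ← Matrix.mul_assoc, ← Matrix.mul_assoc, hGG, hMX,
        Matrix.one_mul]
    have h4 : Gᵀ *ᵥ Z = 0 := by rw [← h3, h1, Matrix.mulVec_zero]
    rw [hGsum] at h4
    have h5 : ∑ i, Z i • (WithLp.toLp 2 (t i) : EuclideanSpace ℝ (Fin d)) =
        WithLp.toLp 2 (∑ i, Z i • t i) := by
      rw [WithLp.toLp_sum]
      rfl
    rw [h5, h4]; rfl
  · intro y
    have h1 : ∀ i, ⟪(WithLp.toLp 2 (t i) : EuclideanSpace ℝ (Fin d)), y⟫ = (G *ᵥ y.ofLp) i := by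
      intro i
      rw [inner_eq_dot]
      rfl
    have h5 : ∑ i, (G *ᵥ y.ofLp) i • (WithLp.toLp 2 (X *ᵥ t i) : EuclideanSpace ℝ (Fin d)) =
        WithLp.toLp 2 (∑ i, (G *ᵥ y.ofLp) i • (X *ᵥ t i)) := by
      rw [WithLp.toLp_sum]
      rfl
    simp only [h1]
    rw [h5]
    have h6 : ∑ i, (G *ᵥ y.ofLp) i • (X *ᵥ t i) = X *ᵥ (Gᵀ *ᵥ (G *ᵥ y.ofLp)) := by
      rw [hGsum (G *ᵥ y.ofLp), Matrix.mulVec_sum]
      refine Finset.sum_congr rfl fun i _ => ?_
      rw [Matrix.mulVec_smul]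
    have h7 : X *ᵥ (Gᵀ *ᵥ (G *ᵥ y.ofLp)) = y.ofLp := by
      rw [Matrix.mulVec_mulVec y.ofLp Gᵀ G, hGG, Matrix.mulVec_mulVec, hXM, Matrix.one_mulVec]
    rw [h6, h7]
  · intro a ha
    have h1 : ∀ i, ⟪(WithLp.toLp 2 (X *ᵥ t i) : EuclideanSpace ℝ (Fin d)), a⟫ =
        (G *ᵥ (X *ᵥ a.ofLp)) i := by
      intro i
      rw [inner_eq_dot]
      have h2 : (G *ᵥ (X *ᵥ a.ofLp)) i = t i ⬝ᵥ (X *ᵥ a.ofLp) := rfl
      rw [h2, Matrix.dotProduct_mulVec, ← Matrix.mulVec_transpose, hXs]
    simp only [h1]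
    have h3 := hadd a.ofLp (Finset.mem_image_of_mem _ ha)
    have h4 : ∑ i, (G *ᵥ (X *ᵥ a.ofLp)) i ^ 2 =
        (G *ᵥ (X *ᵥ a.ofLp)) ⬝ᵥ (G *ᵥ (X *ᵥ a.ofLp)) := by
      rw [dotProduct]
      exact Finset.sum_congr rfl fun i _ => sq _
    rw [h4, hdot, Matrix.mulVec_mulVec, Matrix.mulVec_mulVec, hGG, hMX, Matrix.one_mulVec]
    linarith

set_option maxHeartbeats 4000000 in
theorem coreQ {d : ℕ} (A : Finset (EuclideanSpace ℝ (Fin d))) (hsym : ∀ p ∈ A, -p ∈ A)
    (hA : ∀ y : EuclideanSpace ℝ (Fin d), ∃ a ∈ A, ‖y‖ ≤ ⟪a, y⟫) :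
    ∃ S ⊆ A, S.card ≤ 2 * d ∧ ∀ y : EuclideanSpace ℝ (Fin d), (∀ p ∈ S, ⟪p, y⟫ ≤ 1) →
      ‖y‖ ≤ 3000000 * √(d * (1 + Real.log d)) := by
  classical
  obtain ⟨n, k, hnk, hn, t, ts, P, htA, hPs, hPi, hPd, hPtr, hrel, hrep, hts⟩ := frame A hA
  rcases Nat.eq_zero_or_pos d with hd0 | hd
  · subst hd0
    refine ⟨∅, Finset.empty_subset _, by simp, ?_⟩
    intro y _
    have : y = 0 := Subsingleton.elim _ _
    rw [this, norm_zero]
    positivity
  have hd1 : (1 : ℝ) ≤ d := by exact_mod_cast hd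
  have hlogd : 0 ≤ Real.log d := Real.log_nonneg hd1
  set D : ℝ := d * (1 + Real.log d) with hD
  have hdD : (d : ℝ) ≤ D := by rw [hD]; nlinarith
  have hn0 : 0 < n := by omega
  have hn1 : (1 : ℝ) ≤ n := by exact_mod_cast hn0
  have hnD : (n : ℝ) ≤ 256 / 255 * D := by
    have : (n : ℝ) ≤ 256 / 255 * d := by linarith
    linarith
  have hlog2n0 : 0 ≤ Real.log (2 * n) := Real.log_nonneg (by linarith)
  have hlog2n : Real.log (2 * n) ≤ 1 + Real.log d := by
    have h1 : Real.log (2 * n) ≤ Real.log (Real.exp 1 * d) := by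
      apply Real.log_le_log (by linarith)
      have h2 : (2.7182818283 : ℝ) < Real.exp 1 := Real.exp_one_gt_d9
      have h3 : (n : ℝ) ≤ 256 / 255 * d := by linarith
      nlinarith
    rw [Real.log_mul (Real.exp_pos 1).ne' (by linarith), Real.log_exp] at h1
    exact h1
  have hnlog : (n : ℝ) * Real.log (2 * n) ≤ 256 / 255 * D := by
    calc (n : ℝ) * Real.log (2 * n) ≤ (256 / 255 * d) * (1 + Real.log d) := by
          apply mul_le_mul _ hlog2n hlog2n0 (by positivity)
          linarith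
      _ = 256 / 255 * D := by rw [hD]; ring
  have hD0 : 0 ≤ D := by linarith
  set s := √D with hs
  have hs0 : 0 ≤ s := Real.sqrt_nonneg _
  have hs2 : s ^ 2 = D := Real.sq_sqrt hD0
  have hsq : ∀ (x c : ℝ), 0 ≤ c → x ≤ c ^ 2 * D → √x ≤ c * s := by
    intro x c hc hx
    calc √x ≤ √(c ^ 2 * D) := Real.sqrt_le_sqrt hx
      _ = c * s := by rw [Real.sqrt_mul (sq_nonneg c), Real.sqrt_sq hc]
  have hsn : √(n : ℝ) ≤ 2 * s := hsq _ _ (by norm_num) (by linarith)
  have hs255 : √(255 * n) ≤ 16 * s := hsq _ _ (by norm_num) (by linarith)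
  have hsln : √(255 * (n * Real.log (2 * n))) ≤ 16 * s := hsq _ _ (by norm_num) (by linarith)
  have hs6120 : √(6120 * n) ≤ 79 * s := hsq _ _ (by norm_num) (by nlinarith)
  -- vectors with small coordinates are short
  have hshort : ∀ Y : Fin n → ℝ, (∀ i, |Y i| ≤ 1) → ‖∑ i, Y i • ts i‖ ≤ √(255 * n) := by
    intro Y hY
    obtain ⟨a, ha, h⟩ := hA (∑ i, Y i • ts i)
    refine h.trans ?_
    rw [inner_sum]
    apply Real.le_sqrt_of_sq_le
    have h1 : ∀ i, ⟪a, Y i • ts i⟫ = Y i * ⟪ts i, a⟫ := by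
      intro i
      rw [real_inner_smul_right, real_inner_comm]
    simp only [h1]
    calc (∑ i, Y i * ⟪ts i, a⟫) ^ 2 ≤ (∑ i, Y i ^ 2) * ∑ i, ⟪ts i, a⟫ ^ 2 :=
          Finset.sum_mul_sq_le_sq_mul_sq _ _ _
      _ ≤ n * 255 := by
          apply mul_le_mul _ (hts a ha) (Finset.sum_nonneg fun i _ => sq_nonneg _)
            (Nat.cast_nonneg _)
          calc ∑ i, Y i ^ 2 ≤ ∑ i : Fin n, (1 : ℝ) := by
                apply Finset.sum_le_sum
                intro i _
                rw [← sq_abs]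
                exact pow_le_one₀ (abs_nonneg _) (hY i)
            _ = n := by simp
      _ = 255 * n := by ring
  rcases Nat.eq_zero_or_pos k with hk0 | hk
  · -- a basis: both signs
    refine ⟨Finset.univ.image t ∪ Finset.univ.image (fun i => -t i), ?_, ?_, ?_⟩
    · apply Finset.union_subset
      · intro p hp
        obtain ⟨i, _, rfl⟩ := Finset.mem_image.1 hp
        exact htA i
      · intro p hp
        obtain ⟨i, _, rfl⟩ := Finset.mem_image.1 hp
        exact hsym _ (htA i)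
    · have h1 := Finset.card_union_le (Finset.univ.image t) (Finset.univ.image (fun i => -t i))
      have h2 : (Finset.univ.image t).card ≤ n := by
        refine Finset.card_image_le.trans ?_
        simp
      have h3 : (Finset.univ.image (fun i => -t i)).card ≤ n := by
        refine Finset.card_image_le.trans ?_
        simp
      omega
    · intro y hy
      have h1 := hshort (fun i => ⟪t i, y⟫) (by
        intro i
        rw [abs_le]
        have h2 := hy (t i) (Finset.mem_union_left _ (Finset.mem_image_of_mem _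
          (Finset.mem_univ i)))
        have h3 := hy (-t i) (Finset.mem_union_right _ (Finset.mem_image.2
          ⟨i, Finset.mem_univ i, rfl⟩))
        rw [inner_neg_left] at h3
        constructor <;> linarith)
      rw [hrep] at h1
      linarith
  -- the main case
  obtain ⟨B, u, hPu, hBk, hBu, hu1⟩ :=
    Pool.Agent.Helper98.QH.level_signs P hPs hPi (1 / 256) le_rfl hPd k hk hPtr
  set b := B.card with hb
  obtain ⟨m, hm⟩ : ∃ m, m = b / 6 := ⟨_, rfl⟩
  have hm1 : 1 ≤ m := by omega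
  have hm6 : 6 * m ≤ b := by omega
  have hm12 : b ≤ 12 * m := by omega
  have hbn : b ≤ n := by
    have := Finset.card_le_univ B
    simpa using this
  have hm0r : (0 : ℝ) < m := by exact_mod_cast hm1
  have hb12 : (b : ℝ) ≤ 12 * m := by exact_mod_cast hm12
  have hbnr : (b : ℝ) ≤ n := by exact_mod_cast hbn
  have hb0r : (0 : ℝ) ≤ b := Nat.cast_nonneg _
  -- the certificate
  set F : Submodule ℝ (EuclideanSpace ℝ (Fin d)) :=
    Submodule.span ℝ ((B.image ts : Finset (EuclideanSpace ℝ (Fin d))) :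
      Set (EuclideanSpace ℝ (Fin d))) with hF
  have hFr : Module.finrank ℝ F ≤ b :=
    (finrank_span_finset_le_card _).trans Finset.card_image_le
  obtain ⟨μ, hμ0, hμ1, hμ⟩ := cert A hA F b hFr
  obtain ⟨a₀, ha₀, _⟩ := hA 0
  have hAne : A.Nonempty := ⟨a₀, ha₀⟩
  obtain ⟨σ, hσ⟩ : ∃ σ : ℕ, 2 * (A.card : ℝ) < 2 ^ σ :=
    pow_unbounded_of_one_lt _ (by norm_num)
  have hN : 2 * A.card ≤ 2 ^ σ * m := by
    have h1 : 2 * A.card < 2 ^ σ := by exact_mod_cast hσ
    calc 2 * A.card ≤ 2 ^ σ * 1 := by omega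
      _ ≤ 2 ^ σ * m := Nat.mul_le_mul_left _ hm1
  obtain ⟨L, hL⟩ := exists_list A hAne μ hμ0 hμ1 (2 ^ σ * m) hN
  -- the iteration
  set Λ : ℝ := 136 * √(n * b) with hΛ
  have hΛ0 : 0 ≤ Λ := by positivity
  set E1 : ℝ := 4 * Λ * √(255 * Real.log (2 * n)) / m with hE1
  set E2 : ℝ := 2 * 1 * √(2 * n * 255 / m) with hE2
  have hE10 : 0 ≤ E1 := by positivity
  have hE20 : 0 ≤ E2 := by positivity
  obtain ⟨R, hRB, hRm, L₀, hL₀⟩ := iterate halvingStmt
    (fun (a : A) (i : Fin n) => ⟪ts i, (a : EuclideanSpace ℝ (Fin d))⟫) 255 (by norm_num)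
    (fun a => hts a a.2) B m hm1 1 Λ zero_le_one hΛ0 E1 E2 le_rfl le_rfl σ (2 ^ σ * m) rfl L
  have hRm' : R.card ≤ m := by
    have h1 : (m : ℝ) * (1 - (2 / 3) ^ σ) ≤ m := by
      have : (0 : ℝ) ≤ (2 / 3) ^ σ := by positivity
      nlinarith
    exact_mod_cast hRm.trans h1
  -- the selected members
  set Si : Fin n → Finset (EuclideanSpace ℝ (Fin d)) := fun i =>
    if i ∈ B \ R then {if 0 ≤ u i then t i else -t i} else {t i, -t i} with hSi
  set S₁ := Finset.univ.biUnion Si with hS₁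
  set S₂ : Finset (EuclideanSpace ℝ (Fin d)) :=
    Finset.univ.image (fun l => ((L₀ l : A) : EuclideanSpace ℝ (Fin d))) ∪
      Finset.univ.image (fun l => -((L₀ l : A) : EuclideanSpace ℝ (Fin d))) with hS₂
  have hS₁A : S₁ ⊆ A := by
    intro p hp
    obtain ⟨i, _, hi⟩ := Finset.mem_biUnion.1 hp
    simp only [hSi] at hi
    split_ifs at hi with h1 h2
    · rw [Finset.mem_singleton.1 hi]; exact htA i
    · rw [Finset.mem_singleton.1 hi]; exact hsym _ (htA i)
    · rcases Finset.mem_insert.1 hi with h | h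
      · rw [h]; exact htA i
      · rw [Finset.mem_singleton.1 h]; exact hsym _ (htA i)
  have hS₂A : S₂ ⊆ A := by
    apply Finset.union_subset
    · intro p hp
      obtain ⟨l, _, rfl⟩ := Finset.mem_image.1 hp
      exact (L₀ l).2
    · intro p hp
      obtain ⟨l, _, rfl⟩ := Finset.mem_image.1 hp
      exact hsym _ (L₀ l).2
  have hS₁c : S₁.card + (B \ R).card ≤ 2 * n := by
    have h1 : ∀ i, (Si i).card + (if i ∈ B \ R then 1 else 0) ≤ 2 := by
      intro i
      simp only [hSi]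
      by_cases h : i ∈ B \ R
      · simp only [h, if_true, Finset.card_singleton]; norm_num
      · simp only [h, if_false, add_zero]
        exact Finset.card_le_two
    have h2 : (∑ i, ((Si i).card + (if i ∈ B \ R then 1 else 0))) ≤ ∑ i : Fin n, 2 :=
      Finset.sum_le_sum fun i _ => h1 i
    rw [Finset.sum_add_distrib, Finset.sum_ite_mem, Finset.univ_inter, Finset.sum_const,
      Finset.sum_const, Finset.card_univ, Fintype.card_fin, smul_eq_mul, smul_eq_mul,
      mul_one] at h2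
    have h3 : S₁.card ≤ ∑ i, (Si i).card := Finset.card_biUnion_le
    omega
  have hS₂c : S₂.card ≤ 2 * m := by
    have h1 : S₂.card ≤
      (Finset.univ.image (fun l => ((L₀ l : A) : EuclideanSpace ℝ (Fin d)))).card +
      (Finset.univ.image (fun l => -((L₀ l : A) : EuclideanSpace ℝ (Fin d)))).card :=
      Finset.card_union_le _ _
    have h2 : (Finset.univ.image (fun l => ((L₀ l : A) : EuclideanSpace ℝ (Fin d)))).card ≤ m := by
      refine Finset.card_image_le.trans ?_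
      simp
    have h3 : (Finset.univ.image (fun l => -((L₀ l : A) : EuclideanSpace ℝ (Fin d)))).card ≤
        m := by
      refine Finset.card_image_le.trans ?_
      simp
    omega
  refine ⟨S₁ ∪ S₂, Finset.union_subset hS₁A hS₂A, ?_, ?_⟩
  · have h1 := Finset.card_union_le S₁ S₂
    have h2 : (B \ R).card + R.card = b := by
      rw [Finset.card_sdiff_add_card_eq_card hRB]
    omega
  intro y hy
  set Y : Fin n → ℝ := fun i => ⟪t i, y⟫ with hY
  have hyS₁ : ∀ i, ∀ p ∈ Si i, ⟪p, y⟫ ≤ 1 := fun i p hp =>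
    hy p (Finset.mem_union_left _ (Finset.mem_biUnion.2 ⟨i, Finset.mem_univ i, hp⟩))
  have hYoff : ∀ i, i ∉ B \ R → |Y i| ≤ 1 := by
    intro i hi
    have h1 := hyS₁ i (t i) (by simp only [hSi, hi, if_false]; simp)
    have h2 := hyS₁ i (-t i) (by simp only [hSi, hi, if_false]; simp)
    rw [inner_neg_left] at h2
    rw [abs_le]
    constructor <;> simp only [hY] <;> linarith
  have huY : ∀ i, u i * Y i ≤ |u i| := by
    intro i
    by_cases hi : i ∈ B \ R
    · by_cases h0 : 0 ≤ u i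
      · have h1 := hyS₁ i (t i) (by simp only [hSi, hi, if_true, h0]; simp)
        rw [abs_of_nonneg h0]
        calc u i * Y i ≤ u i * 1 := mul_le_mul_of_nonneg_left h1 h0
          _ = u i := mul_one _
      · have h1 := hyS₁ i (-t i) (by simp only [hSi, hi, if_true, h0]; simp)
        rw [inner_neg_left] at h1
        push Not at h0
        rw [abs_of_neg h0]
        have : Y i = ⟪t i, y⟫ := rfl
        nlinarith
    · calc u i * Y i ≤ |u i * Y i| := le_abs_self _
        _ = |u i| * |Y i| := abs_mul _ _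
        _ ≤ |u i| * 1 := mul_le_mul_of_nonneg_left (hYoff i hi) (abs_nonneg _)
        _ = _ := mul_one _
  have huY0 : ∑ i, u i * Y i = 0 := by
    have h1 : ⟪∑ i, u i • t i, y⟫ = 0 := by rw [hrel u hPu, inner_zero_left]
    rw [sum_inner] at h1
    rw [← h1]
    refine Finset.sum_congr rfl fun i _ => ?_
    rw [real_inner_smul_left]
  have hYB : ∑ i ∈ B, |Y i| ≤ Λ := by
    calc ∑ i ∈ B, |Y i| ≤ ∑ i ∈ B, |u i * Y i| := by
          apply Finset.sum_le_sum
          intro i hi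
          rw [abs_mul]
          nlinarith [hBu i hi, abs_nonneg (Y i)]
      _ ≤ ∑ i, |u i * Y i| := Finset.sum_le_sum_of_subset_of_nonneg (Finset.subset_univ _)
          fun i _ _ => abs_nonneg _
      _ ≤ ∑ i, (2 * |u i| - u i * Y i) := by
          apply Finset.sum_le_sum
          intro i _
          have h1 := huY i
          rcases le_total 0 (u i * Y i) with h | h
          · rw [abs_of_nonneg h]; linarith
          · rw [abs_of_nonpos h]
            have := abs_nonneg (u i)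
            linarith
      _ = 2 * ∑ i, |u i| := by
          rw [Finset.sum_sub_distrib, huY0, sub_zero, Finset.mul_sum]
      _ ≤ 2 * (68 * √(n * b)) := by linarith
      _ = Λ := by rw [hΛ]; ring
  have hpair : ∀ a : EuclideanSpace ℝ (Fin d), ∑ i, ⟪ts i, a⟫ * Y i = ⟪a, y⟫ := by
    intro a
    conv_rhs => rw [← hrep y, inner_sum]
    refine Finset.sum_congr rfl fun i _ => ?_
    rw [real_inner_smul_right, real_inner_comm]
    ring
  have hit := hL₀ Y hYoff hYB
  simp only [hpair] at hit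
  have hl := hL (fun a => |⟪a, y⟫|) (fun a => abs_nonneg _)
  set I : ℝ := ∑ a ∈ A, μ a * |⟪a, y⟫| with hI
  have hlow : (∑ l, |⟪((L₀ l : A) : EuclideanSpace ℝ (Fin d)), y⟫|) / m ≤ 1 := by
    rw [div_le_one hm0r]
    calc ∑ l, |⟪((L₀ l : A) : EuclideanSpace ℝ (Fin d)), y⟫| ≤ ∑ l : Fin m, (1 : ℝ) := by
          apply Finset.sum_le_sum
          intro l _
          have h1 := hy (L₀ l : A) (Finset.mem_union_right _ (Finset.mem_union_left _
            (Finset.mem_image.2 ⟨l, Finset.mem_univ l, rfl⟩)))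
          have h2 := hy (-(L₀ l : A)) (Finset.mem_union_right _ (Finset.mem_union_right _
            (Finset.mem_image.2 ⟨l, Finset.mem_univ l, rfl⟩)))
          rw [inner_neg_left] at h2
          rw [abs_le]
          constructor <;> linarith
      _ = m := by simp
  have hIle : I ≤ 2 * (1 + (7 * E1 + 3 * E2)) := by
    have h1 : 7 * (1 - (7 / 8 : ℝ) ^ σ) * E1 ≤ 7 * E1 := by
      have : 0 ≤ (7 / 8 : ℝ) ^ σ := by positivity
      nlinarith [mul_nonneg this hE10]
    have h2 : 3 * (1 - (3 / 4 : ℝ) ^ σ) * E2 ≤ 3 * E2 := by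
      have : 0 ≤ (3 / 4 : ℝ) ^ σ := by positivity
      nlinarith [mul_nonneg this hE20]
    linarith
  -- splitting of `y`
  set w : EuclideanSpace ℝ (Fin d) := ∑ i ∈ B \ R, Y i • ts i with hw
  set y' : EuclideanSpace ℝ (Fin d) := ∑ i, (if i ∈ B \ R then 0 else Y i) • ts i with hy'
  have hyy : y' + w = y := by
    have h1 : w = ∑ i, (if i ∈ B \ R then Y i else 0) • ts i := by
      rw [hw]
      simp only [ite_smul, zero_smul]
      rw [Finset.sum_ite_mem, Finset.univ_inter]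
    rw [hy', h1, ← Finset.sum_add_distrib]
    conv_rhs => rw [← hrep y]
    refine Finset.sum_congr rfl fun i _ => ?_
    split_ifs <;> simp [hY]
  have hy'n : ‖y'‖ ≤ √(255 * n) := by
    apply hshort
    intro i
    split_ifs with h
    · simp
    · exact hYoff i h
  have hwF : w ∈ F := by
    apply Submodule.sum_mem
    intro i hi
    apply Submodule.smul_mem
    apply Submodule.subset_span
    exact Finset.mem_image_of_mem _ (Finset.mem_sdiff.1 hi).1
  have hc := hμ y' w hwF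
  rw [hyy] at hc
  have hyn : ‖y‖ ≤ ‖w‖ + ‖y'‖ := by
    rw [← hyy, add_comm]
    exact norm_add_le _ _
  have hsb : √(b : ℝ) ≤ √(n : ℝ) := Real.sqrt_le_sqrt hbnr
  have hsb0 : 0 ≤ √(b : ℝ) := Real.sqrt_nonneg _
  have hbE1 : √(b : ℝ) * E1 ≤ 6528 * (16 * s) := by
    have h1 : √(b : ℝ) * E1 = 544 * √(255 * (n * Real.log (2 * n))) * (b / m) := by
      have h2 : √(n * b : ℝ) = √n * √b := Real.sqrt_mul (Nat.cast_nonneg _) _
      have h3 : √(255 * (n * Real.log (2 * n))) = √(255 * Real.log (2 * n)) * √n := by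
        rw [← Real.sqrt_mul (by positivity)]
        congr 1; ring
      have h4 : √(b : ℝ) * √b = b := Real.mul_self_sqrt hb0r
      rw [hE1, hΛ, h2, h3]
      calc √(b : ℝ) * (4 * (136 * (√n * √b)) * √(255 * Real.log (2 * n)) / m) =
          544 * (√(255 * Real.log (2 * n)) * √n) * ((√(b : ℝ) * √b) / m) := by ring
        _ = _ := by rw [h4]
    rw [h1]
    have h5 : (b : ℝ) / m ≤ 12 := by rw [div_le_iff₀ hm0r]; exact hb12
    calc 544 * √(255 * (n * Real.log (2 * n))) * (b / m) ≤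
        544 * √(255 * (n * Real.log (2 * n))) * 12 :=
          mul_le_mul_of_nonneg_left h5 (by positivity)
      _ = 6528 * √(255 * (n * Real.log (2 * n))) := by ring
      _ ≤ 6528 * (16 * s) := by linarith
  have hbE2 : √(b : ℝ) * E2 ≤ 2 * (79 * s) := by
    have h1 : √(b : ℝ) * E2 = 2 * √(b * (2 * n * 255 / m)) := by
      rw [hE2, Real.sqrt_mul hb0r]; ring
    rw [h1]
    have h2 : (b : ℝ) * (2 * n * 255 / m) ≤ 6120 * n := by
      have h5 : (b : ℝ) / m ≤ 12 := by rw [div_le_iff₀ hm0r]; exact hb12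
      calc (b : ℝ) * (2 * n * 255 / m) = 510 * n * (b / m) := by ring
        _ ≤ 510 * n * 12 := mul_le_mul_of_nonneg_left h5 (by positivity)
        _ = 6120 * n := by ring
    have h3 := Real.sqrt_le_sqrt h2
    linarith
  have hfin : 2 * √(b : ℝ) * I ≤ 4 * √(b : ℝ) + 28 * (√(b : ℝ) * E1) + 12 * (√(b : ℝ) * E2) := by
    calc 2 * √(b : ℝ) * I ≤ 2 * √(b : ℝ) * (2 * (1 + (7 * E1 + 3 * E2))) :=
          mul_le_mul_of_nonneg_left hIle (by positivity)
      _ = _ := by ring
  linarith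

end Pool.Agent.Helper6.Helly
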